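import Pool.Agent.Q89.LF.A
set_option autoImplicit false

/-! A weak type inequality for the extension operator from `L²` (dispersion and conservation). -/

namespace Pool.Agent.Q89.SM

open MeasureTheory Set Complex Filter Topology
open scoped ENNReal NNReal ComplexConjugate
open Pool.Agent.Y183.LS

variable {m : ℕ}

/-- the quadratic exponential -/
noncomputable abbrev em (y : Fin m → ℝ) (t : ℝ) (v : Fin m → ℝ) : ℂ := Pool.Agent.W771.MD.em y t v

lemma em_dt (y : Fin m → ℝ) (t : ℝ) (v : Fin m → ℝ) : em y t v = ec (dt y v) * ec (t * sq2 v) :=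
  em_eq y t v

/-- the extension operator -/
noncomputable def X (g : (Fin m → ℝ) → ℂ) (t : ℝ) (y : Fin m → ℝ) : ℂ := ∫ v, g v * em y t v

lemma emc : Continuous (fun w : (ℝ × (Fin m → ℝ)) × (Fin m → ℝ) => em w.1.2 w.1.1 w.2) := by
  unfold em Pool.Agent.W771.MD.em Pool.Agent.W771.MD.qe
  fun_prop

/-- the kernel of one variable -/
lemma ker1 (b y t : ℝ) (ht : t ≠ 0) (hb : 0 ≤ b) :
    ‖∫ v in Icc (-b) b, Pool.Agent.W771.MD.qe y t v‖ ≤ 3 * |t| ^ (-(1 / 2) : ℝ) := by
  rw [integral_Icc_eq_integral_Ioc, ← intervalIntegral.integral_of_le (by linarith)]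
  have h1 : ∀ v : ℝ, Pool.Agent.W771.MD.qe y t v =
      ec (-(y ^ 2 / (4 * t))) * ec (t * (v + y / (2 * t)) ^ 2) := by
    intro v
    rw [qe_ec, ← ec_add]
    congr 1
    field_simp
    ring
  simp only [h1]
  rw [intervalIntegral.integral_const_mul, norm_mul, ec_norm, one_mul,
    intervalIntegral.integral_comp_add_right (fun s => ec (t * s ^ 2))]
  exact fr_sqrt t _ _ ht

lemma ker (b t : ℝ) (y : Fin m → ℝ) (ht : t ≠ 0) (hb : 0 ≤ b) :
    ‖∫ v in BA b m, em y t v‖ ≤ (3 * |t| ^ (-(1 / 2) : ℝ)) ^ m := by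
  have h1 : ∫ v in BA b m, em y t v =
      ∫ v : Fin m → ℝ, ∏ i, (Icc (-b) b).indicator (Pool.Agent.W771.MD.qe (y i) t) (v i) := by
    rw [← integral_indicator measurableSet_Icc]
    congr 1
    ext v
    by_cases hv : v ∈ BA b m
    · rw [indicator_of_mem hv]
      unfold em Pool.Agent.W771.MD.em
      apply Finset.prod_congr rfl
      intro i _
      rw [indicator_of_mem]
      exact ⟨hv.1 i, hv.2 i⟩
    · rw [indicator_of_notMem hv]
      have h1 : ∃ i, v i ∉ Icc (-b) b := by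
        by_contra hc
        push Not at hc
        exact hv ⟨fun i => (hc i).1, fun i => (hc i).2⟩
      obtain ⟨i, hi⟩ := h1
      rw [Finset.prod_eq_zero (Finset.mem_univ i) (indicator_of_notMem hi _)]
  rw [h1, integral_fintype_prod_volume_eq_prod
    (fun i => (Icc (-b) b).indicator (Pool.Agent.W771.MD.qe (y i) t)), norm_prod]
  calc ∏ i : Fin m, ‖∫ x, (Icc (-b) b).indicator (Pool.Agent.W771.MD.qe (y i) t) x‖ ≤
      ∏ _i : Fin m, (3 * |t| ^ (-(1 / 2) : ℝ)) := by
        apply Finset.prod_le_prod (fun i _ => norm_nonneg _)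
        intro i _
        rw [integral_indicator measurableSet_Icc]
        exact ker1 b (y i) t ht hb
    _ = _ := by rw [Finset.prod_const, Finset.card_univ, Fintype.card_fin]

/-- the square of an integral -/
lemma dbl {α β : Type*} [MeasurableSpace α] [MeasurableSpace β] (μ : Measure α) [SFinite μ]
    (ν : Measure β) [IsFiniteMeasure ν] (φ ψ : α → β → ℂ) (hφ : Measurable (Function.uncurry φ))
    (hψ : Measurable (Function.uncurry ψ)) (Φ Ψ : α → ℝ) (hΦ : Integrable Φ μ) (hΨ : Integrable Ψ μ)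
    (h1 : ∀ a v, ‖φ a v‖ ≤ Φ a) (h2 : ∀ a v, ‖ψ a v‖ ≤ Ψ a) :
    ∫ v, (∫ a, φ a v ∂μ) * (∫ a, ψ a v ∂μ) ∂ν =
      ∫ z : α × α, ∫ v, φ z.1 v * ψ z.2 v ∂ν ∂(μ.prod μ) := by
  have e1 : ∀ v, (∫ a, φ a v ∂μ) * (∫ a, ψ a v ∂μ) =
      ∫ z : α × α, φ z.1 v * ψ z.2 v ∂(μ.prod μ) := fun v =>
    (integral_prod_mul (fun a => φ a v) (fun a => ψ a v)).symm
  simp only [e1]
  rw [integral_integral_swap]
  have hI : Integrable (fun w : β × (α × α) => Φ w.2.1 * Ψ w.2.2) (ν.prod (μ.prod μ)) :=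
    (hΦ.mul_prod hΨ).comp_snd ν
  refine hI.mono' ?_ (ae_of_all _ fun w => ?_)
  · have m1 : Measurable (fun w : β × (α × α) => φ w.2.1 w.1) :=
      hφ.comp ((measurable_fst.comp measurable_snd).prodMk measurable_fst)
    have m2 : Measurable (fun w : β × (α × α) => ψ w.2.2 w.1) :=
      hψ.comp ((measurable_snd.comp measurable_snd).prodMk measurable_fst)
    exact (m1.mul m2).aestronglyMeasurable
  · simp only [Function.uncurry]
    rw [norm_mul]
    exact mul_le_mul (h1 _ _) (h2 _ _) (norm_nonneg _) ((norm_nonneg _).trans (h1 w.2.1 w.1))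

end Pool.Agent.Q89.SM
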