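import Pool.Agent.Q89.SM.A
set_option autoImplicit false

/-! The dual operator. -/

namespace Pool.Agent.Q89.SM

open MeasureTheory Set Complex Filter Topology
open scoped ENNReal NNReal ComplexConjugate
open Pool.Agent.Y183.LS

variable {m : ℕ}

/-- bounded functions of bounded support -/
structure Bd (F : ℝ → (Fin m → ℝ) → ℂ) (n : ℝ) : Prop where
  ms : Measurable (Function.uncurry F)
  bd : ∀ t y, ‖F t y‖ ≤ 1
  st : ∀ t y, F t y ≠ 0 → t ∈ Icc (-n) n ∧ y ∈ BA n m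

/-- the slice of the dual operator -/
noncomputable def Ht (F : ℝ → (Fin m → ℝ) → ℂ) (t : ℝ) (v : Fin m → ℝ) : ℂ := ∫ y, F t y * em y t v

lemma Bd.slice {F : ℝ → (Fin m → ℝ) → ℂ} {n : ℝ} (h : Bd F n) (t : ℝ) : Measurable (F t) :=
  h.ms.comp (measurable_const.prodMk measurable_id)

lemma Bd.intp {F : ℝ → (Fin m → ℝ) → ℂ} {n : ℝ} (h : Bd F n) : Integrable (Function.uncurry F) := by
  have h1 : Integrable ((Icc (-n) n ×ˢ BA n m).indicator (fun _ => (1 : ℝ))) := by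
    rw [integrable_indicator_iff (measurableSet_Icc.prod measurableSet_Icc)]
    have h0 : (volume : Measure (ℝ × (Fin m → ℝ))) (Icc (-n) n ×ˢ BA n m) ≠ ∞ := by
      rw [Measure.volume_eq_prod, Measure.prod_prod]
      apply ENNReal.mul_ne_top
      · simp
      · exact (BA_fin n).ne
    exact integrableOn_const h0 (by simp)
  refine h1.mono' h.ms.aestronglyMeasurable (ae_of_all _ fun p => ?_)
  by_cases hp : F p.1 p.2 = 0
  · simp only [Function.uncurry, hp, norm_zero]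
    exact indicator_nonneg (fun _ _ => zero_le_one) _
  · rw [indicator_of_mem]
    · exact h.bd _ _
    · exact h.st _ _ hp

lemma Bd.ints {F : ℝ → (Fin m → ℝ) → ℂ} {n : ℝ} (h : Bd F n) (t : ℝ) : Integrable (F t) := by
  have h1 : Integrable ((BA n m).indicator (fun _ => (1 : ℝ))) := by
    rw [integrable_indicator_iff measurableSet_Icc]
    exact integrableOn_const (BA_fin n).ne (by simp)
  refine h1.mono' (h.slice t).aestronglyMeasurable (ae_of_all _ fun p => ?_)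
  by_cases hp : F t p = 0
  · simp only [hp, norm_zero]
    exact indicator_nonneg (fun _ _ => zero_le_one) _
  · rw [indicator_of_mem]
    · exact h.bd _ _
    · exact (h.st _ _ hp).2

lemma Bd.memLp {F : ℝ → (Fin m → ℝ) → ℂ} {n : ℝ} (h : Bd F n) (t : ℝ) : MemLp (F t) 2 := by
  have h1 : MemLp ((BA n m).indicator (fun _ => (1 : ℝ))) 2 := by
    apply memLp_indicator_const
    · exact measurableSet_Icc
    · exact Or.inr (BA_fin n).ne
  refine h1.mono (h.slice t).aestronglyMeasurable (ae_of_all _ fun p => ?_)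
  by_cases hp : F t p = 0
  · simp [hp]
  · rw [indicator_of_mem]
    · simpa using h.bd _ _
    · exact (h.st _ _ hp).2

lemma Ht_meas {F : ℝ → (Fin m → ℝ) → ℂ} {n : ℝ} (h : Bd F n) :
    Measurable (Function.uncurry (Ht F)) := by
  have h1 : StronglyMeasurable (fun w : (ℝ × (Fin m → ℝ)) × (Fin m → ℝ) =>
      F w.1.1 w.2 * em w.2 w.1.1 w.1.2) := by
    apply Measurable.stronglyMeasurable
    apply Measurable.mul
    · exact h.ms.comp ((measurable_fst.comp measurable_fst).prodMk measurable_snd)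
    · apply Continuous.measurable
      exact emc.comp (by fun_prop : Continuous fun w : (ℝ × (Fin m → ℝ)) × (Fin m → ℝ) =>
        (((w.1.1, w.2) : ℝ × (Fin m → ℝ)), w.1.2))
  exact (h1.integral_prod_right (ν := volume)).measurable

lemma Ht_norm {F : ℝ → (Fin m → ℝ) → ℂ} (t : ℝ) (v : Fin m → ℝ) :
    ‖Ht F t v‖ ≤ ∫ y, ‖F t y‖ := by
  unfold Ht
  refine (norm_integral_le_integral_norm _).trans (le_of_eq ?_)
  congr 1
  ext y
  rw [norm_mul, em_nrm, mul_one]

/-- conservation -/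
lemma Ht_planch {F : ℝ → (Fin m → ℝ) → ℂ} {n : ℝ} (h : Bd F n) (t : ℝ) :
    ∫⁻ v, ‖Ht F t v‖ₑ ^ 2 = ∫⁻ y, ‖F t y‖ₑ ^ 2 := by
  have h1 := Pool.Agent.W771.MD.planchM (F t) (h.ints t) (h.memLp t) 0
  rw [← h1]
  congr 1
  ext v
  congr 1
  unfold Ht
  have h2 : ∀ y, F t y * em y t v = ec (t * sq2 v) * (F t y * em v 0 y) := by
    intro y
    rw [em_dt, em_dt, zero_mul, ec_zero, mul_one, dt_comm v y]
    ring
  simp only [h2]
  rw [integral_const_mul, enorm_mul, ec_enorm, one_mul]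

/-- the pairing of two slices -/
noncomputable def Ip (F : ℝ → (Fin m → ℝ) → ℂ) (b : ℝ) (z : ℝ × ℝ) : ℂ :=
  ∫ v in BA b m, Ht F z.1 v * conj (Ht F z.2 v)

lemma Ip1 {F : ℝ → (Fin m → ℝ) → ℂ} {n : ℝ} (h : Bd F n) (b : ℝ) (z : ℝ × ℝ) :
    ‖Ip F b z‖ₑ ≤ 2⁻¹ * (∫⁻ y, ‖F z.1 y‖ₑ ^ 2) + 2⁻¹ * ∫⁻ y, ‖F z.2 y‖ₑ ^ 2 := by
  unfold Ip
  refine (enorm_integral_le_lintegral_enorm _).trans ?_
  have hm : ∀ t, Measurable (fun v => ‖Ht F t v‖ₑ ^ 2) := fun t =>
    ((Ht_meas h).comp (measurable_const.prodMk measurable_id)).enorm.pow_const 2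
  calc ∫⁻ v in BA b m, ‖Ht F z.1 v * conj (Ht F z.2 v)‖ₑ ≤
      ∫⁻ v in BA b m, (2⁻¹ * ‖Ht F z.1 v‖ₑ ^ 2 + 2⁻¹ * ‖Ht F z.2 v‖ₑ ^ 2) := by
        apply lintegral_mono
        intro v
        simp only
        have e1 : ‖conj (Ht F z.2 v)‖ₑ = ‖Ht F z.2 v‖ₑ := by
          rw [← ofReal_norm, ← ofReal_norm, RCLike.norm_conj]
        rw [enorm_mul, e1]
        rw [← ofReal_norm, ← ofReal_norm]
        set x := ‖Ht F z.1 v‖
        set y := ‖Ht F z.2 v‖
        have hx : 0 ≤ x := norm_nonneg _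
        have hy : 0 ≤ y := norm_nonneg _
        have e2 : (2⁻¹ : ℝ≥0∞) = ENNReal.ofReal 2⁻¹ := by
          rw [ENNReal.ofReal_inv_of_pos (by norm_num)]
          norm_num
        rw [e2, ← ENNReal.ofReal_pow hx, ← ENNReal.ofReal_pow hy, ← ENNReal.ofReal_mul hx,
          ← ENNReal.ofReal_mul (by norm_num), ← ENNReal.ofReal_mul (by norm_num),
          ← ENNReal.ofReal_add (by positivity) (by positivity)]
        apply ENNReal.ofReal_le_ofReal
        nlinarith [sq_nonneg (x - y)]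
    _ ≤ ∫⁻ v, (2⁻¹ * ‖Ht F z.1 v‖ₑ ^ 2 + 2⁻¹ * ‖Ht F z.2 v‖ₑ ^ 2) :=
        lintegral_mono' Measure.restrict_le_self le_rfl
    _ = _ := by
        rw [lintegral_add_left ((hm _).const_mul _), lintegral_const_mul _ (hm _),
          lintegral_const_mul _ (hm _), Ht_planch h, Ht_planch h]

lemma em_conj (y y' : Fin m → ℝ) (t t' : ℝ) (v : Fin m → ℝ) :
    em y t v * conj (em y' t' v) = em (y - y') (t - t') v := by
  have e1 : ∀ x : ℝ, conj (ec x) = ec (-x) := by
    intro x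
    unfold ec
    rw [← Complex.exp_conj]
    congr 1
    simp only [map_mul, Complex.conj_ofReal, Complex.conj_I, map_ofNat]
    push_cast
    ring
  rw [em_dt, em_dt, em_dt, map_mul, e1, e1, ← ec_add, ← ec_add, ← ec_add, ← ec_add]
  congr 1
  have e2 : dt (y - y') v = dt y v - dt y' v := by
    unfold dt
    rw [← Finset.sum_sub_distrib]
    apply Finset.sum_congr rfl
    intro i _
    simp only [Pi.sub_apply]
    ring
  rw [e2]
  ring

lemma Ip2 {F : ℝ → (Fin m → ℝ) → ℂ} {n : ℝ} (h : Bd F n) (b : ℝ) (hb : 0 ≤ b) (z : ℝ × ℝ)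
    (τ : ℝ) (hτ : 0 < τ) (hz : τ ≤ |z.1 - z.2|) :
    ‖Ip F b z‖ₑ ≤ ENNReal.ofReal ((3 * τ ^ (-(1 / 2) : ℝ)) ^ m) *
      ((∫⁻ y, ‖F z.1 y‖ₑ) * ∫⁻ y, ‖F z.2 y‖ₑ) := by
  have hfin : IsFiniteMeasure (volume.restrict (BA b m)) := ⟨by
    rw [Measure.restrict_apply_univ]
    exact BA_fin b⟩
  have hmm : ∀ t, Measurable (Function.uncurry fun (y : Fin m → ℝ) (v : Fin m → ℝ) =>
      F t y * em y t v) := by
    intro t
    apply Measurable.mul
    · exact (h.slice t).comp measurable_fst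
    · apply Continuous.measurable
      exact emc.comp (by fun_prop : Continuous fun w : (Fin m → ℝ) × (Fin m → ℝ) =>
        (((t, w.1) : ℝ × (Fin m → ℝ)), w.2))
  have e1 : Ip F b z = ∫ w : (Fin m → ℝ) × (Fin m → ℝ), (∫ v in BA b m,
      (F z.1 w.1 * em w.1 z.1 v) * conj (F z.2 w.2 * em w.2 z.2 v))
        ∂((volume : Measure (Fin m → ℝ)).prod volume) := by
    rw [← dbl volume (volume.restrict (BA b m)) (fun y v => F z.1 y * em y z.1 v)
      (fun y v => conj (F z.2 y * em y z.2 v)) (hmm _)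
      (Complex.continuous_conj.measurable.comp (hmm _)) (fun y => ‖F z.1 y‖) (fun y => ‖F z.2 y‖)
      (h.ints _).norm (h.ints _).norm]
    · unfold Ip Ht
      congr 1
      ext v
      rw [integral_conj]
    · intro y v
      rw [norm_mul, em_nrm, mul_one]
    · intro y v
      rw [RCLike.norm_conj, norm_mul, em_nrm, mul_one]
  rw [e1]
  refine (enorm_integral_le_lintegral_enorm _).trans ?_
  have hz0 : z.1 - z.2 ≠ 0 := by
    intro hc
    rw [hc, abs_zero] at hz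
    linarith
  have e2 : ∀ w : (Fin m → ℝ) × (Fin m → ℝ), ‖∫ v in BA b m,
      (F z.1 w.1 * em w.1 z.1 v) * conj (F z.2 w.2 * em w.2 z.2 v)‖ₑ ≤
      ENNReal.ofReal ((3 * τ ^ (-(1 / 2) : ℝ)) ^ m) * (‖F z.1 w.1‖ₑ * ‖F z.2 w.2‖ₑ) := by
    intro w
    have e3 : ∀ v, (F z.1 w.1 * em w.1 z.1 v) * conj (F z.2 w.2 * em w.2 z.2 v) =
        (F z.1 w.1 * conj (F z.2 w.2)) * em (w.1 - w.2) (z.1 - z.2) v := by
      intro v
      rw [← em_conj, map_mul]
      ring
    simp only [e3]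
    rw [integral_const_mul, enorm_mul, enorm_mul]
    have e4 : ‖conj (F z.2 w.2)‖ₑ = ‖F z.2 w.2‖ₑ := by
      rw [← ofReal_norm, ← ofReal_norm, RCLike.norm_conj]
    rw [e4, mul_comm]
    gcongr
    rw [← ofReal_norm]
    apply ENNReal.ofReal_le_ofReal
    refine (ker b _ _ hz0 hb).trans ?_
    gcongr ?_ ^ m
    gcongr 3 * ?_
    exact Real.rpow_le_rpow_of_nonpos hτ hz (by norm_num)
  refine (lintegral_mono e2).trans (le_of_eq ?_)
  rw [lintegral_const_mul]
  · congr 1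
    rw [lintegral_prod_mul (f := fun y => ‖F z.1 y‖ₑ) (g := fun y => ‖F z.2 y‖ₑ)]
    · exact (h.slice _).enorm.aemeasurable
    · exact (h.slice _).enorm.aemeasurable
  · exact ((h.slice _).enorm.comp measurable_fst).mul ((h.slice _).enorm.comp measurable_snd)

end Pool.Agent.Q89.SM
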