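import Pool.Agent.Q89.SM.B
set_option autoImplicit false

/-! The weak type inequality. -/

namespace Pool.Agent.Q89.SM

open MeasureTheory Set Complex Filter Topology
open scoped ENNReal NNReal ComplexConjugate
open Pool.Agent.Y183.LS

variable {m : ℕ}

lemma near_int (W : ℝ → ℝ≥0∞) (hW : Measurable W) (τ : ℝ) (hτ : 0 < τ) :
    ∫⁻ z : ℝ × ℝ, {z : ℝ × ℝ | |z.1 - z.2| < τ}.indicator (fun z => W z.1) z
      ∂((volume : Measure ℝ).prod volume) = ENNReal.ofReal (2 * τ) * ∫⁻ t, W t := by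
  have hS : MeasurableSet {z : ℝ × ℝ | |z.1 - z.2| < τ} :=
    measurableSet_lt (measurable_fst.sub measurable_snd).abs measurable_const
  have hm : Measurable ({z : ℝ × ℝ | |z.1 - z.2| < τ}.indicator (fun z : ℝ × ℝ => W z.1)) :=
    (hW.comp measurable_fst).indicator hS
  rw [lintegral_prod _ hm.aemeasurable]
  have h1 : ∀ t : ℝ, ∫⁻ t' : ℝ, {z : ℝ × ℝ | |z.1 - z.2| < τ}.indicator (fun z => W z.1) (t, t') =
      W t * ENNReal.ofReal (2 * τ) := by
    intro t
    have h2 : ∀ t' : ℝ, {z : ℝ × ℝ | |z.1 - z.2| < τ}.indicator (fun z => W z.1) (t, t') =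
        (Ioo (t - τ) (t + τ)).indicator (fun _ => W t) t' := by
      intro t'
      by_cases h : |t - t'| < τ
      · rw [indicator_of_mem (by exact h), indicator_of_mem]
        rw [abs_lt] at h
        exact ⟨by linarith [h.2], by linarith [h.1]⟩
      · rw [indicator_of_notMem (by exact h), indicator_of_notMem]
        intro h3
        exact h (abs_lt.mpr ⟨by linarith [h3.2], by linarith [h3.1]⟩)
    simp only [h2]
    rw [lintegral_indicator measurableSet_Ioo, lintegral_const, Measure.restrict_apply_univ,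
      Real.volume_Ioo]
    congr 2
    ring
  simp only [h1]
  rw [lintegral_mul_const _ hW, mul_comm]

lemma near_int' (W : ℝ → ℝ≥0∞) (hW : Measurable W) (τ : ℝ) (hτ : 0 < τ) :
    ∫⁻ z : ℝ × ℝ, {z : ℝ × ℝ | |z.1 - z.2| < τ}.indicator (fun z => W z.2) z
      ∂((volume : Measure ℝ).prod volume) = ENNReal.ofReal (2 * τ) * ∫⁻ t, W t := by
  rw [← near_int W hW τ hτ, ← lintegral_prod_swap]
  · congr 1
    ext z
    by_cases h : |z.1 - z.2| < τ
    · rw [indicator_of_mem (by simpa [abs_sub_comm] using h), indicator_of_mem (by exact h)]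
      rfl
    · rw [indicator_of_notMem (by simpa [abs_sub_comm] using h), indicator_of_notMem (by exact h)]

/-- **the inequality for the dual operator** -/
lemma ttstar {F : ℝ → (Fin m → ℝ) → ℂ} {n : ℝ} (h : Bd F n) (b : ℝ) (hb : 0 ≤ b) (τ : ℝ)
    (hτ : 0 < τ) :
    ∫⁻ v in BA b m, ‖∫ t, Ht F t v‖ₑ ^ 2 ≤
      ENNReal.ofReal (2 * τ) * (∫⁻ t, ∫⁻ y, ‖F t y‖ₑ ^ 2) +
      ENNReal.ofReal ((3 * τ ^ (-(1 / 2) : ℝ)) ^ m) * (∫⁻ t, ∫⁻ y, ‖F t y‖ₑ) ^ 2 := by
  have hfin : IsFiniteMeasure (volume.restrict (BA b m)) := ⟨by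
    rw [Measure.restrict_apply_univ]
    exact BA_fin b⟩
  have hΦ : Integrable (fun t => ∫ y, ‖F t y‖) := h.intp.integral_norm_prod_left
  have hH := Ht_meas h
  have e1 : ∫ v in BA b m, (∫ t, Ht F t v) * conj (∫ t, Ht F t v) =
      ∫ z : ℝ × ℝ, Ip F b z ∂((volume : Measure ℝ).prod volume) := by
    have h1 := dbl volume (volume.restrict (BA b m)) (Ht F) (fun t v => conj (Ht F t v)) hH
      (Complex.continuous_conj.measurable.comp hH) _ _ hΦ hΦ (fun t v => Ht_norm t v)
      (fun t v => by rw [RCLike.norm_conj]; exact Ht_norm t v)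
    rw [show (fun z : ℝ × ℝ => Ip F b z) = fun z : ℝ × ℝ => ∫ v in BA b m,
      Ht F z.1 v * conj (Ht F z.2 v) from rfl, ← h1]
    congr 1
    ext v
    rw [integral_conj]
  set G : (Fin m → ℝ) → ℂ := fun v => ∫ t, Ht F t v with hG
  have hGm : Measurable G := by
    have : StronglyMeasurable (fun w : (Fin m → ℝ) × ℝ => Ht F w.2 w.1) :=
      (hH.comp (measurable_snd.prodMk measurable_fst)).stronglyMeasurable
    exact (this.integral_prod_right (ν := volume)).measurable
  have hGb : ∀ v, ‖G v‖ ≤ ∫ t, ∫ y, ‖F t y‖ := fun v =>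
    (norm_integral_le_integral_norm _).trans (integral_mono_of_nonneg
      (ae_of_all _ fun t => norm_nonneg _) hΦ (ae_of_all _ fun t => Ht_norm t v))
  set B : ℝ := ∫ t, ∫ y, ‖F t y‖ with hB
  have hG2 : Integrable (fun v => ‖G v‖ ^ 2) (volume.restrict (BA b m)) := by
    refine (integrable_const (B ^ 2)).mono' (hGm.norm.pow_const 2).aestronglyMeasurable
      (ae_of_all _ fun v => ?_)
    rw [Real.norm_eq_abs, abs_of_nonneg (by positivity)]
    have := hGb v
    have := norm_nonneg (G v)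
    gcongr
  have e2 : ∫⁻ v in BA b m, ‖G v‖ₑ ^ 2 = ‖∫ v in BA b m, G v * conj (G v)‖ₑ := by
    have e3 : ∀ v, G v * conj (G v) = ((‖G v‖ ^ 2 : ℝ) : ℂ) := by
      intro v
      rw [Complex.mul_conj']
      push_cast
      rfl
    simp only [e3]
    rw [integral_complex_ofReal, ← ofReal_norm, norm_real, Real.norm_eq_abs,
      abs_of_nonneg (integral_nonneg fun v => by positivity),
      ofReal_integral_eq_lintegral_ofReal hG2 (ae_of_all _ fun v => by positivity)]
    congr 1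
    ext v
    rw [← ofReal_norm, ENNReal.ofReal_pow (norm_nonneg _)]
  rw [e2, e1]
  refine (enorm_integral_le_lintegral_enorm _).trans ?_
  have hWm : Measurable (fun t => ∫⁻ y, ‖F t y‖ₑ ^ 2) :=
    Measurable.lintegral_prod_right' (f := fun p : ℝ × (Fin m → ℝ) => ‖F p.1 p.2‖ₑ ^ 2)
      (h.ms.enorm.pow_const 2)
  have hVm : Measurable (fun t => ∫⁻ y, ‖F t y‖ₑ) :=
    Measurable.lintegral_prod_right' (f := fun p : ℝ × (Fin m → ℝ) => ‖F p.1 p.2‖ₑ) h.ms.enorm
  set W : ℝ → ℝ≥0∞ := fun t => ∫⁻ y, ‖F t y‖ₑ ^ 2 with hW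
  set V : ℝ → ℝ≥0∞ := fun t => ∫⁻ y, ‖F t y‖ₑ with hV
  set S : Set (ℝ × ℝ) := {z : ℝ × ℝ | |z.1 - z.2| < τ} with hS
  have hSm : MeasurableSet S :=
    measurableSet_lt (measurable_fst.sub measurable_snd).abs measurable_const
  set c : ℝ≥0∞ := ENNReal.ofReal ((3 * τ ^ (-(1 / 2) : ℝ)) ^ m) with hc
  have e4 : ∀ z : ℝ × ℝ, ‖Ip F b z‖ₑ ≤ 2⁻¹ * S.indicator (fun z => W z.1) z +
      2⁻¹ * S.indicator (fun z => W z.2) z + c * (V z.1 * V z.2) := by
    intro z
    by_cases hz : z ∈ S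
    · rw [indicator_of_mem hz, indicator_of_mem hz]
      exact (Ip1 h b z).trans le_self_add
    · rw [indicator_of_notMem hz, indicator_of_notMem hz, mul_zero, zero_add, zero_add]
      exact Ip2 h b hb z τ hτ (not_lt.mp hz)
  refine (lintegral_mono e4).trans (le_of_eq ?_)
  have m1 : Measurable (S.indicator (fun z : ℝ × ℝ => W z.1)) :=
    (hWm.comp measurable_fst).indicator hSm
  have m2 : Measurable (S.indicator (fun z : ℝ × ℝ => W z.2)) :=
    (hWm.comp measurable_snd).indicator hSm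
  have m3 : Measurable (fun z : ℝ × ℝ => V z.1 * V z.2) :=
    (hVm.comp measurable_fst).mul (hVm.comp measurable_snd)
  have m4 : Measurable (fun z : ℝ × ℝ => 2⁻¹ * S.indicator (fun z : ℝ × ℝ => W z.1) z +
      2⁻¹ * S.indicator (fun z : ℝ × ℝ => W z.2) z) := (m1.const_mul _).add (m2.const_mul _)
  rw [lintegral_add_left m4, lintegral_add_left (m1.const_mul _), lintegral_const_mul _ m1, lintegral_const_mul _ m2,
    lintegral_const_mul _ m3, near_int W hWm τ hτ, near_int' W hWm τ hτ,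
    lintegral_prod_mul hVm.aemeasurable hVm.aemeasurable]
  have e5 : ∀ a : ℝ≥0∞, 2⁻¹ * a + 2⁻¹ * a = a := by
    intro a
    rw [← add_mul, ENNReal.inv_two_add_inv_two, one_mul]
  rw [e5, sq]

end Pool.Agent.Q89.SM
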