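import Pool.Agent.Q89.SM.C
set_option autoImplicit false

/-! The weak type inequality. -/

namespace Pool.Agent.Q89.SM

open MeasureTheory Set Complex Filter Topology
open scoped ENNReal NNReal ComplexConjugate
open Pool.Agent.Y183.LS

variable {m : ℕ}

lemma X_meas (g : (Fin m → ℝ) → ℂ) (hg : Measurable g) :
    Measurable (fun p : ℝ × (Fin m → ℝ) => X g p.1 p.2) := by
  have h1 : StronglyMeasurable (fun w : (ℝ × (Fin m → ℝ)) × (Fin m → ℝ) =>
      g w.2 * em w.1.2 w.1.1 w.2) := by
    apply Measurable.stronglyMeasurable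
    exact (hg.comp measurable_snd).mul emc.measurable
  exact (h1.integral_prod_right (ν := volume)).measurable

/-- the level sets, cut off -/
def Sn (g : (Fin m → ℝ) → ℂ) (lam n : ℝ) : Set (ℝ × (Fin m → ℝ)) :=
  {p | lam < ‖X g p.1 p.2‖} ∩ (Icc (-n) n ×ˢ BA n m)

lemma Sn_meas (g : (Fin m → ℝ) → ℂ) (hg : Measurable g) (lam n : ℝ) : MeasurableSet (Sn g lam n) :=
  (measurableSet_lt measurable_const (X_meas g hg).norm).inter
    (measurableSet_Icc.prod measurableSet_Icc)

/-- the constant -/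
noncomputable def Cw (m : ℕ) : ℝ := 4 * (2 * 3 ^ m) ^ (2 / (m : ℝ))

lemma Cw_pos (m : ℕ) : 0 < Cw m := by unfold Cw; positivity

lemma weak_cut (hm : 1 ≤ m) (g : (Fin m → ℝ) → ℂ) (hg : Measurable g) (b : ℝ) (hb : 0 ≤ b)
    (hs : ∀ v, v ∉ BA b m → g v = 0) (N : ℝ) (hN : 0 < N)
    (h2 : ∫⁻ v, ‖g v‖ₑ ^ 2 ≤ ENNReal.ofReal N) (lam : ℝ) (hl : 0 < lam) (n : ℝ) :
    volume (Sn g lam n) ≤ ENNReal.ofReal (Cw m * (N / lam ^ 2) ^ (1 + 2 / (m : ℝ))) := by
  classical
  have hm0 : (0 : ℝ) < m := by exact_mod_cast hm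
  have hSm := Sn_meas g hg lam n
  set S := Sn g lam n with hS
  have hXm := X_meas g hg
  have hVfin : volume S ≠ ∞ := by
    refine ne_top_of_le_ne_top ?_ (measure_mono inter_subset_right)
    rw [Measure.volume_eq_prod, Measure.prod_prod]
    apply ENNReal.mul_ne_top
    · simp
    · exact (BA_fin n).ne
  set V : ℝ := (volume S).toReal with hV
  have hVe : volume S = ENNReal.ofReal V := (ENNReal.ofReal_toReal hVfin).symm
  have hV0 : 0 ≤ V := ENNReal.toReal_nonneg
  set F : ℝ → (Fin m → ℝ) → ℂ := fun t y =>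
    S.indicator (fun p => conj (X g p.1 p.2) / ‖X g p.1 p.2‖) (t, y) with hF
  have hFm : Measurable (Function.uncurry F) := by
    have : Measurable (S.indicator (fun p : ℝ × (Fin m → ℝ) => conj (X g p.1 p.2) /
        ((‖X g p.1 p.2‖ : ℝ) : ℂ))) := by
      apply Measurable.indicator _ hSm
      apply Measurable.div
      · exact Complex.continuous_conj.measurable.comp hXm
      · exact Complex.continuous_ofReal.measurable.comp hXm.norm
    exact this
  have hXS : ∀ p ∈ S, 0 < ‖X g p.1 p.2‖ := fun p hp => hl.trans hp.1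
  have hFn : ∀ p : ℝ × (Fin m → ℝ), ‖F p.1 p.2‖ₑ = S.indicator (fun _ => (1 : ℝ≥0∞)) p := by
    intro p
    by_cases hp : p ∈ S
    · simp only [hF]
      rw [indicator_of_mem (by exact hp), indicator_of_mem hp, ← ofReal_norm, norm_div,
        RCLike.norm_conj, norm_real, Real.norm_eq_abs, abs_norm, div_self (hXS p hp).ne',
        ENNReal.ofReal_one]
    · simp only [hF]
      rw [indicator_of_notMem (by exact hp), indicator_of_notMem hp]
      simp
  have hBd : Bd F n := by
    refine ⟨hFm, fun t y => ?_, fun t y hne => ?_⟩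
    · have h1 := hFn (t, y)
      simp only at h1
      have h3 : ‖F t y‖ₑ ≤ 1 := by
        rw [h1]
        by_cases hp : (t, y) ∈ S
        · rw [indicator_of_mem hp]
        · rw [indicator_of_notMem hp]
          exact zero_le_one
      rw [← ofReal_norm, ← ENNReal.ofReal_one, ENNReal.ofReal_le_ofReal_iff zero_le_one] at h3
      exact h3
    · have : (t, y) ∈ S := by
        by_contra hc
        exact hne (indicator_of_notMem hc _)
      exact this.2
  have hI1 : ∫⁻ t, ∫⁻ y, ‖F t y‖ₑ = ENNReal.ofReal V := by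
    rw [← hVe, ← lintegral_indicator_one hSm, Measure.volume_eq_prod,
      lintegral_prod _ (measurable_one.indicator hSm).aemeasurable]
    congr 1
    ext t
    congr 1
    ext y
    exact hFn (t, y)
  have hI2 : ∫⁻ t, ∫⁻ y, ‖F t y‖ₑ ^ 2 = ENNReal.ofReal V := by
    rw [← hI1]
    congr 1
    ext t
    congr 1
    ext y
    have h1 := hFn (t, y)
    simp only at h1
    rw [h1]
    by_cases hp : (t, y) ∈ S
    · rw [indicator_of_mem hp, one_pow]
    · rw [indicator_of_notMem hp]
      simp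
  -- the function g is integrable
  have hgL2 : MemLp g 2 := by
    refine ⟨hg.aestronglyMeasurable, ?_⟩
    rw [eLpNorm_lt_top_iff_lintegral_rpow_enorm_lt_top (by norm_num) (by norm_num)]
    simp only [ENNReal.toReal_ofNat, ENNReal.rpow_ofNat]
    exact lt_of_le_of_lt h2 ENNReal.ofReal_lt_top
  have hgi : Integrable g := by
    have h3 : Integrable ((BA b m).indicator g) := by
      rw [integrable_indicator_iff measurableSet_Icc]
      have hfin : IsFiniteMeasure (volume.restrict (BA b m)) := ⟨by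
        rw [Measure.restrict_apply_univ]
        exact BA_fin b⟩
      exact (hgL2.restrict _).integrable (by norm_num)
    have h4 : (BA b m).indicator g = g := by
      ext v
      by_cases hv : v ∈ BA b m
      · rw [indicator_of_mem hv]
      · rw [indicator_of_notMem hv, hs v hv]
    rwa [h4] at h3
  -- duality
  set G : (Fin m → ℝ) → ℂ := fun v => ∫ t, Ht F t v with hG
  have hGm : Measurable G := by
    have : StronglyMeasurable (fun w : (Fin m → ℝ) × ℝ => Ht F w.2 w.1) :=
      ((Ht_meas hBd).comp (measurable_snd.prodMk measurable_fst)).stronglyMeasurable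
    exact (this.integral_prod_right (ν := volume)).measurable
  have hd : ∫ p : ℝ × (Fin m → ℝ), F p.1 p.2 * X g p.1 p.2 = ∫ v, g v * G v := by
    have e1 : ∀ p : ℝ × (Fin m → ℝ), F p.1 p.2 * X g p.1 p.2 =
        ∫ v, F p.1 p.2 * (g v * em p.2 p.1 v) := by
      intro p
      unfold X
      rw [integral_const_mul]
    simp only [e1]
    rw [integral_integral_swap]
    · congr 1
      ext v
      have e2 : ∀ p : ℝ × (Fin m → ℝ), F p.1 p.2 * (g v * em p.2 p.1 v) =
          g v * (F p.1 p.2 * em p.2 p.1 v) := fun p => by ring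
      simp only [e2]
      rw [integral_const_mul]
      congr 1
      rw [Measure.volume_eq_prod, integral_prod]
      · rfl
      · have h5 : Measurable (fun p : ℝ × (Fin m → ℝ) => F p.1 p.2 * em p.2 p.1 v) := by
          apply Measurable.mul hFm
          exact (emc.comp (by fun_prop : Continuous fun p : ℝ × (Fin m → ℝ) =>
            ((p, v) : (ℝ × (Fin m → ℝ)) × (Fin m → ℝ)))).measurable
        refine hBd.intp.norm.mono' h5.aestronglyMeasurable (ae_of_all _ fun p => ?_)
        rw [norm_mul, em_nrm, mul_one]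
        rfl
    · have h5 : Integrable (fun w : (ℝ × (Fin m → ℝ)) × (Fin m → ℝ) =>
          ‖F w.1.1 w.1.2‖ * ‖g w.2‖) (volume.prod volume) :=
        Integrable.mul_prod (f := fun p : ℝ × (Fin m → ℝ) => ‖F p.1 p.2‖) (g := fun v => ‖g v‖)
          hBd.intp.norm hgi.norm
      refine h5.mono' ?_ (ae_of_all _ fun w => ?_)
      · apply Measurable.aestronglyMeasurable
        apply Measurable.mul
        · exact hFm.comp measurable_fst
        · apply Measurable.mul
          · exact hg.comp measurable_snd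
          · exact emc.measurable
      · simp only [Function.uncurry]
        rw [norm_mul, norm_mul, em_nrm, mul_one]
  have hlow : ENNReal.ofReal (lam * V) ≤ ‖∫ v, g v * G v‖ₑ := by
    rw [← hd]
    have e1 : ∀ p : ℝ × (Fin m → ℝ), F p.1 p.2 * X g p.1 p.2 =
        ((S.indicator (fun p => ‖X g p.1 p.2‖) p : ℝ) : ℂ) := by
      intro p
      by_cases hp : p ∈ S
      · simp only [hF]
        rw [indicator_of_mem (by exact hp), indicator_of_mem hp]
        have h7 : ((‖X g p.1 p.2‖ : ℝ) : ℂ) ≠ 0 := by exact_mod_cast (hXS p hp).ne'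
        rw [div_mul_eq_mul_div, mul_comm, Complex.mul_conj', sq, mul_div_assoc, div_self h7, mul_one]
      · simp only [hF]
        rw [indicator_of_notMem (by exact hp), indicator_of_notMem hp]
        simp
    simp only [e1]
    rw [integral_complex_ofReal, ← ofReal_norm, norm_real, Real.norm_eq_abs]
    apply ENNReal.ofReal_le_ofReal
    refine le_trans ?_ (le_abs_self _)
    rw [integral_indicator hSm]
    have hXi : IntegrableOn (fun p : ℝ × (Fin m → ℝ) => ‖X g p.1 p.2‖) S := by
      have : IntegrableOn (fun _ : ℝ × (Fin m → ℝ) => ∫ v, ‖g v‖) S :=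
        integrableOn_const hVfin (by simp)
      refine this.mono' hXm.norm.aestronglyMeasurable (ae_of_all _ fun p => ?_)
      rw [norm_norm]
      unfold X
      refine (norm_integral_le_integral_norm _).trans (le_of_eq ?_)
      congr 1
      ext v
      rw [norm_mul, em_nrm, mul_one]
    have h8 : ∫ p in S, lam ≤ ∫ p in S, ‖X g p.1 p.2‖ := by
      apply setIntegral_mono_on (integrableOn_const hVfin (by simp)) hXi hSm
      intro p hp
      exact hp.1.le
    rw [setIntegral_const, smul_eq_mul, mul_comm] at h8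
    exact h8
  have hup : ‖∫ v, g v * G v‖ₑ ^ 2 ≤ ENNReal.ofReal N * ∫⁻ v in BA b m, ‖G v‖ₑ ^ 2 := by
    have e1 : ‖∫ v, g v * G v‖ₑ ≤ ∫⁻ v in BA b m, ‖g v‖ₑ * ‖G v‖ₑ := by
      have e2 : ∫ v, g v * G v = ∫ v in BA b m, g v * G v := by
        rw [← integral_indicator measurableSet_Icc]
        congr 1
        ext v
        by_cases hv : v ∈ BA b m
        · rw [indicator_of_mem hv]
        · rw [indicator_of_notMem hv, hs v hv, zero_mul]
      rw [e2]
      refine (enorm_integral_le_lintegral_enorm _).trans (le_of_eq ?_)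
      simp only [enorm_mul]
    have e3 := ENNReal.lintegral_mul_le_Lp_mul_Lq (volume.restrict (BA b m))
      Real.HolderConjugate.two_two (f := fun v => ‖g v‖ₑ) (g := fun v => ‖G v‖ₑ)
      hg.enorm.aemeasurable hGm.enorm.aemeasurable
    simp only [ENNReal.rpow_ofNat, Pi.mul_apply] at e3
    calc ‖∫ v, g v * G v‖ₑ ^ 2 ≤ ((∫⁻ v in BA b m, ‖g v‖ₑ ^ 2) ^ (1 / 2 : ℝ) *
          (∫⁻ v in BA b m, ‖G v‖ₑ ^ 2) ^ (1 / 2 : ℝ)) ^ 2 := by
          gcongr
          exact e1.trans e3
      _ = (∫⁻ v in BA b m, ‖g v‖ₑ ^ 2) * ∫⁻ v in BA b m, ‖G v‖ₑ ^ 2 := by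
          rw [mul_pow, ← ENNReal.rpow_natCast, ← ENNReal.rpow_natCast, ← ENNReal.rpow_mul,
            ← ENNReal.rpow_mul]
          norm_num
      _ ≤ _ := by
          gcongr
          exact (setLIntegral_le_lintegral _ _).trans h2
  -- the choice of τ
  rcases hV0.eq_or_lt with hV1 | hV1
  · rw [hVe, ← hV1, ENNReal.ofReal_zero]
    exact zero_le
  set A : ℝ := 2 * 3 ^ m * N / lam ^ 2 with hA
  have hA0 : 0 < A := by positivity
  set τ : ℝ := A ^ (2 / (m : ℝ)) with hτ
  have hτ0 : 0 < τ := Real.rpow_pos_of_pos hA0 _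
  have hτA : (3 * τ ^ (-(1 / 2) : ℝ)) ^ m = 3 ^ m * A⁻¹ := by
    rw [mul_pow, ← Real.rpow_natCast (τ ^ (-(1 / 2) : ℝ)), ← Real.rpow_mul hτ0.le, hτ,
      ← Real.rpow_mul hA0.le]
    congr 1
    rw [← Real.rpow_neg_one]
    congr 1
    field_simp
  have htt := ttstar hBd b hb τ hτ0
  rw [hI1, hI2, hτA] at htt
  have hfin2 : ENNReal.ofReal (lam * V) ^ 2 ≤ ENNReal.ofReal N *
      (ENNReal.ofReal (2 * τ) * ENNReal.ofReal V +
        ENNReal.ofReal (3 ^ m * A⁻¹) * ENNReal.ofReal V ^ 2) := by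
    calc ENNReal.ofReal (lam * V) ^ 2 ≤ ‖∫ v, g v * G v‖ₑ ^ 2 := by gcongr
      _ ≤ ENNReal.ofReal N * ∫⁻ v in BA b m, ‖G v‖ₑ ^ 2 := hup
      _ ≤ _ := by gcongr
  rw [← ENNReal.ofReal_pow (by positivity), ← ENNReal.ofReal_pow hV0,
    ← ENNReal.ofReal_mul (by positivity), ← ENNReal.ofReal_mul (by positivity),
    ← ENNReal.ofReal_add (by positivity) (by positivity), ← ENNReal.ofReal_mul hN.le,
    ENNReal.ofReal_le_ofReal_iff (by positivity)] at hfin2
  have h9 : N * (3 ^ m * A⁻¹ * V ^ 2) = lam ^ 2 * V ^ 2 / 2 := by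
    rw [hA]
    field_simp
  have h10 : lam ^ 2 * V ≤ 4 * N * τ := by
    have h11 : lam ^ 2 * V * V ≤ 4 * N * τ * V := by nlinarith [hfin2, h9]
    exact le_of_mul_le_mul_right h11 hV1
  rw [hVe]
  apply ENNReal.ofReal_le_ofReal
  have h12 : V ≤ 4 * (N / lam ^ 2) * τ := by
    have hl2 : 0 < lam ^ 2 := by positivity
    calc V = (lam ^ 2 * V) / lam ^ 2 := by field_simp
      _ ≤ (4 * N * τ) / lam ^ 2 := by gcongr
      _ = _ := by ring
  refine h12.trans (le_of_eq ?_)
  unfold Cw
  have h13 : τ = (2 * 3 ^ m) ^ (2 / (m : ℝ)) * (N / lam ^ 2) ^ (2 / (m : ℝ)) := by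
    rw [hτ, hA, ← Real.mul_rpow (by positivity) (by positivity)]
    congr 1
    ring
  rw [h13, Real.rpow_add (by positivity), Real.rpow_one]
  ring

/-- **the weak type inequality** -/
theorem weak (hm : 1 ≤ m) (g : (Fin m → ℝ) → ℂ) (hg : Measurable g) (b : ℝ) (hb : 0 ≤ b)
    (hs : ∀ v, v ∉ BA b m → g v = 0) (N : ℝ) (hN : 0 < N)
    (h2 : ∫⁻ v, ‖g v‖ₑ ^ 2 ≤ ENNReal.ofReal N) (lam : ℝ) (hl : 0 < lam) :
    volume {p : ℝ × (Fin m → ℝ) | lam < ‖X g p.1 p.2‖} ≤
      ENNReal.ofReal (Cw m * (N / lam ^ 2) ^ (1 + 2 / (m : ℝ))) := by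
  have h1 : {p : ℝ × (Fin m → ℝ) | lam < ‖X g p.1 p.2‖} = ⋃ n : ℕ, Sn g lam n := by
    ext p
    simp only [mem_iUnion]
    constructor
    · intro hp
      obtain ⟨n, hn⟩ := exists_nat_ge (max |p.1| ‖p.2‖)
      refine ⟨n, hp, ?_, ?_⟩
      · exact abs_le.mp ((le_max_left _ _).trans hn)
      · have h3 : ∀ i, |p.2 i| ≤ n := fun i =>
          (norm_le_pi_norm p.2 i).trans ((le_max_right _ _).trans hn)
        exact ⟨fun i => (abs_le.mp (h3 i)).1, fun i => (abs_le.mp (h3 i)).2⟩
    · rintro ⟨n, hn⟩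
      exact hn.1
  have hmono : Monotone (fun n : ℕ => Sn g lam (n : ℝ)) := by
    intro a c hac
    have hac' : (a : ℝ) ≤ c := by exact_mod_cast hac
    intro p hp
    refine ⟨hp.1, ⟨by linarith [hp.2.1.1], by linarith [hp.2.1.2]⟩, ?_⟩
    exact ⟨fun i => by have := hp.2.2.1 i; simp only at this ⊢; linarith,
      fun i => by have := hp.2.2.2 i; simp only at this ⊢; linarith⟩
  rw [h1, hmono.measure_iUnion]
  exact iSup_le fun n => weak_cut hm g hg b hb hs N hN h2 lam hl n

end Pool.Agent.Q89.SM
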