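import Pool.Agent.Q89.SM.D
set_option autoImplicit false

/-! Dyadic blocks of time. -/

namespace Pool.Agent.Q89.SM

open MeasureTheory Set Complex Filter Topology
open scoped ENNReal NNReal ComplexConjugate
open Pool.Agent.Y183.LS

variable {m : ℕ}

/-- the constant of the geometric series -/
noncomputable def Kc (q q0 : ℝ) : ℝ := 2 ^ (q + q0) * (1 - 2 ^ (-(q0 - q)))⁻¹

lemma Kc_pos (q q0 : ℝ) (h : q < q0) : 0 < Kc q q0 := by
  unfold Kc
  have h1 : (2 : ℝ) ^ (-(q0 - q)) < 1 :=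
    Real.rpow_lt_one_of_one_lt_of_neg one_lt_two (by linarith)
  have h2 : 0 < 1 - (2 : ℝ) ^ (-(q0 - q)) := by linarith
  positivity

lemma interp {α : Type*} [MeasurableSpace α] (μ : Measure α) (u : α → ℝ) (hu : Measurable u)
    (hu0 : ∀ x, 0 ≤ u x) (q q0 : ℝ) (hq : 2 < q) (hq0 : q < q0) (b : ℝ) (hb : 0 ≤ b)
    (hw : ∀ lam : ℝ, 0 < lam → μ {x | lam < u x} ≤ ENNReal.ofReal (b * lam ^ (-q0)))
    (l : ℝ) (hl : 0 < l) :
    ∫⁻ x, ENNReal.ofReal (u x ^ q) ∂μ ≤ ENNReal.ofReal (l ^ (q - 2)) *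
      (∫⁻ x, ENNReal.ofReal (u x ^ 2) ∂μ) + ENNReal.ofReal (b * Kc q q0 * l ^ (q - q0)) := by
  have hS : ∀ k : ℕ, MeasurableSet {x | 2 ^ k * l / 2 < u x} := fun k =>
    measurableSet_lt measurable_const hu
  have hpt : ∀ x, ENNReal.ofReal (u x ^ q) ≤ ENNReal.ofReal (l ^ (q - 2)) *
      ENNReal.ofReal (u x ^ 2) + ∑' k : ℕ, ({x | 2 ^ k * l / 2 < u x}.indicator
        (fun _ => ENNReal.ofReal ((2 ^ (k + 1) * l) ^ q))) x := by
    intro x
    rcases le_or_gt (u x) l with h | h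
    · refine le_trans ?_ le_self_add
      rw [← ENNReal.ofReal_mul (by positivity)]
      apply ENNReal.ofReal_le_ofReal
      rcases (hu0 x).eq_or_lt with h0 | h0
      · rw [← h0, Real.zero_rpow (by linarith)]
        positivity
      · have e1 : u x ^ q = u x ^ (q - 2) * u x ^ 2 := by
          rw [← Real.rpow_natCast, ← Real.rpow_add h0]
          congr 1
          push_cast
          ring
        rw [e1]
        gcongr
    · refine le_trans ?_ le_add_self
      have h1 : 1 ≤ u x / l := by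
        rw [le_div_iff₀ hl]
        linarith
      obtain ⟨k, hk1, hk2⟩ := exists_nat_pow_near h1 one_lt_two
      rw [le_div_iff₀ hl] at hk1
      rw [div_lt_iff₀ hl] at hk2
      refine le_trans ?_ (ENNReal.le_tsum k)
      have hmem : x ∈ {x | 2 ^ k * l / 2 < u x} := by
        have : 0 < 2 ^ k * l := by positivity
        show 2 ^ k * l / 2 < u x
        linarith
      rw [indicator_of_mem hmem]
      apply ENNReal.ofReal_le_ofReal
      apply Real.rpow_le_rpow (hu0 x) hk2.le (by linarith)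
  refine (lintegral_mono hpt).trans ?_
  have hm2 : Measurable (fun x => ENNReal.ofReal (u x ^ 2)) := (hu.pow_const 2).ennreal_ofReal
  rw [lintegral_add_left (hm2.const_mul _), lintegral_const_mul _ hm2]
  gcongr
  rw [lintegral_tsum (fun k => (measurable_const.indicator (hS k)).aemeasurable)]
  set r : ℝ := 2 ^ (-(q0 - q)) with hr
  have hr0 : 0 < r := by positivity
  have hr1 : r < 1 := Real.rpow_lt_one_of_one_lt_of_neg one_lt_two (by linarith)
  set c : ℝ := b * 2 ^ (q + q0) * l ^ (q - q0) with hc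
  have hc0 : 0 ≤ c := by positivity
  have hterm : ∀ k : ℕ, ∫⁻ x, ({x | 2 ^ k * l / 2 < u x}.indicator
      (fun _ => ENNReal.ofReal ((2 ^ (k + 1) * l) ^ q))) x ∂μ ≤ ENNReal.ofReal (c * r ^ k) := by
    intro k
    rw [lintegral_indicator (hS k), lintegral_const, Measure.restrict_apply_univ]
    have h3 := hw (2 ^ k * l / 2) (by positivity)
    calc ENNReal.ofReal ((2 ^ (k + 1) * l) ^ q) * μ {x | 2 ^ k * l / 2 < u x} ≤
        ENNReal.ofReal ((2 ^ (k + 1) * l) ^ q) *
          ENNReal.ofReal (b * (2 ^ k * l / 2) ^ (-q0)) := by gcongr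
      _ = ENNReal.ofReal (c * r ^ k) := by
          rw [← ENNReal.ofReal_mul (by positivity)]
          congr 1
          have e1 : (2 : ℝ) ^ (k + 1) * l = 2 ^ ((k : ℝ) + 1) * l := by
            rw [← Real.rpow_natCast]
            push_cast
            rfl
          have e2 : (2 : ℝ) ^ k * l / 2 = 2 ^ ((k : ℝ) - 1) * l := by
            rw [Real.rpow_sub two_pos, Real.rpow_natCast, Real.rpow_one]
            ring
          have e3 : r ^ k = 2 ^ (-(q0 - q) * (k : ℝ)) := by
            rw [hr, ← Real.rpow_natCast, ← Real.rpow_mul (by norm_num)]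
          rw [e1, e2, e3, hc, Real.mul_rpow (by positivity) hl.le,
            Real.mul_rpow (by positivity) hl.le, ← Real.rpow_mul (by norm_num),
            ← Real.rpow_mul (by norm_num)]
          have e4 : l ^ (q - q0) = l ^ q * l ^ (-q0) := by
            rw [← Real.rpow_add hl]
            rfl
          have e5 : (2 : ℝ) ^ (q + q0) * 2 ^ (-(q0 - q) * (k : ℝ)) =
              2 ^ (((k : ℝ) + 1) * q) * 2 ^ (((k : ℝ) - 1) * -q0) := by
            rw [← Real.rpow_add two_pos, ← Real.rpow_add two_pos]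
            congr 1
            ring
          rw [e4]
          linear_combination (-(b * (l ^ q * l ^ (-q0)))) * e5
  refine (ENNReal.tsum_le_tsum hterm).trans ?_
  rw [← ENNReal.ofReal_tsum_of_nonneg (fun k => by positivity)
    ((summable_geometric_of_lt_one hr0.le hr1).mul_left c), tsum_mul_left,
    tsum_geometric_of_lt_one hr0.le hr1]
  apply ENNReal.ofReal_le_ofReal
  apply le_of_eq
  rw [hc, hr]
  unfold Kc
  ring

/-- the block of times -/
def JT (T : ℝ) : Set ℝ := {t | T ≤ |t| ∧ |t| < 2 * T}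

lemma JT_meas (T : ℝ) : MeasurableSet (JT T) :=
  (measurableSet_le measurable_const measurable_norm).inter
    (measurableSet_lt measurable_norm measurable_const)

lemma JT_vol (T : ℝ) (hT : 0 < T) : volume (JT T) ≤ ENNReal.ofReal (4 * T) := by
  have h1 : JT T ⊆ Icc (-(2 * T)) (2 * T) := by
    intro t ht
    exact abs_le.mp ht.2.le
  refine (measure_mono h1).trans ?_
  rw [Real.volume_Icc]
  apply ENNReal.ofReal_le_ofReal
  linarith

lemma X_planch (g : (Fin m → ℝ) → ℂ) (hg : Measurable g) (b : ℝ)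
    (hs : ∀ v, v ∉ BA b m → g v = 0) (h2 : ∫⁻ v, ‖g v‖ₑ ^ 2 ≠ ∞) (t : ℝ) :
    ∫⁻ y, ‖X g t y‖ₑ ^ 2 = ∫⁻ v, ‖g v‖ₑ ^ 2 := by
  have hgL2 : MemLp g 2 := by
    refine ⟨hg.aestronglyMeasurable, ?_⟩
    rw [eLpNorm_lt_top_iff_lintegral_rpow_enorm_lt_top (by norm_num) (by norm_num)]
    simp only [ENNReal.toReal_ofNat, ENNReal.rpow_ofNat]
    exact lt_top_iff_ne_top.mpr h2
  have hgi : Integrable g := by
    have h3 : Integrable ((BA b m).indicator g) := by
      rw [integrable_indicator_iff measurableSet_Icc]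
      have hfin : IsFiniteMeasure (volume.restrict (BA b m)) := ⟨by
        rw [Measure.restrict_apply_univ]
        exact BA_fin b⟩
      exact (hgL2.restrict _).integrable (by norm_num)
    have h4 : (BA b m).indicator g = g := by
      ext v
      by_cases hv : v ∈ BA b m
      · rw [indicator_of_mem hv]
      · rw [indicator_of_notMem hv, hs v hv]
    rwa [h4] at h3
  exact Pool.Agent.W771.MD.planchM g hgi hgL2 t

/-- the constant -/
noncomputable def Cb (m : ℕ) (q : ℝ) : ℝ := 4 + Cw m * Kc q (2 + 4 / (m : ℝ))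

/-- **the estimate on a dyadic block** -/
theorem block (hm : 1 ≤ m) (q : ℝ) (hq : 2 < q) (hq0 : q < 2 + 4 / (m : ℝ))
    (g : (Fin m → ℝ) → ℂ) (hg : Measurable g) (b : ℝ) (hb : 0 ≤ b)
    (hs : ∀ v, v ∉ BA b m → g v = 0) (N : ℝ) (hN : 0 < N)
    (h2 : ∫⁻ v, ‖g v‖ₑ ^ 2 ≤ ENNReal.ofReal N) (T : ℝ) (hT : 0 < T) :
    ∫⁻ t in JT T, ∫⁻ y, ‖X g t y‖ₑ ^ q ≤
      ENNReal.ofReal (Cb m q * (T ^ (1 - m * (q - 2) / 4) * N ^ (q / 2))) := by
  have hm0 : (0 : ℝ) < m := by exact_mod_cast hm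
  have hXm := X_meas g hg
  set u : ℝ × (Fin m → ℝ) → ℝ := fun p => ‖X g p.1 p.2‖ with hu
  have hum : Measurable u := hXm.norm
  set μ : Measure (ℝ × (Fin m → ℝ)) := (volume.restrict (JT T)).prod volume with hμ
  have hμle : μ ≤ volume := by
    rw [Measure.volume_eq_prod, hμ]
    exact Measure.prod_mono Measure.restrict_le_self le_rfl
  set l : ℝ := N ^ (1 / 2 : ℝ) * T ^ (-(m : ℝ) / 4) with hl
  have hl0 : 0 < l := by positivity
  have h3 := interp μ u hum (fun x => norm_nonneg _) q (2 + 4 / (m : ℝ)) hq hq0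
    (Cw m * N ^ (1 + 2 / (m : ℝ))) (mul_nonneg (Cw_pos m).le (by positivity)) (by
      intro lam hlam
      refine (hμle _).trans ((weak hm g hg b hb hs N hN h2 lam hlam).trans (le_of_eq ?_))
      congr 1
      rw [Real.div_rpow hN.le (by positivity), ← Real.rpow_natCast lam, ← Real.rpow_mul hlam.le,
        Real.rpow_neg hlam.le]
      have : ((2 : ℕ) : ℝ) * (1 + 2 / (m : ℝ)) = 2 + 4 / (m : ℝ) := by
        push_cast
        ring
      rw [this]
      ring) l hl0
  have e1 : ∫⁻ t in JT T, ∫⁻ y, ‖X g t y‖ₑ ^ q = ∫⁻ x, ENNReal.ofReal (u x ^ q) ∂μ := by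
    rw [hμ, lintegral_prod _ (hum.pow_const q).ennreal_ofReal.aemeasurable]
    congr 1
    ext t
    congr 1
    ext y
    rw [hu, ← ofReal_norm, ENNReal.ofReal_rpow_of_nonneg (norm_nonneg _) (by linarith)]
  have e2 : ∫⁻ x, ENNReal.ofReal (u x ^ 2) ∂μ ≤ ENNReal.ofReal (4 * T * N) := by
    rw [hμ, lintegral_prod _ (hum.pow_const 2).ennreal_ofReal.aemeasurable]
    have e3 : ∀ t, ∫⁻ y, ENNReal.ofReal (u (t, y) ^ 2) = ∫⁻ v, ‖g v‖ₑ ^ 2 := by
      intro t
      rw [← X_planch g hg b hs (ne_top_of_le_ne_top ENNReal.ofReal_ne_top h2) t]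
      congr 1
      ext y
      rw [hu, ← ofReal_norm, ENNReal.ofReal_pow (norm_nonneg _)]
    simp only [e3]
    rw [lintegral_const, Measure.restrict_apply_univ, mul_comm (4 * T), ENNReal.ofReal_mul hN.le]
    gcongr
    exact JT_vol T hT
  rw [e1]
  refine h3.trans ?_
  calc ENNReal.ofReal (l ^ (q - 2)) * (∫⁻ x, ENNReal.ofReal (u x ^ 2) ∂μ) +
        ENNReal.ofReal (Cw m * N ^ (1 + 2 / (m : ℝ)) * Kc q (2 + 4 / (m : ℝ)) *
          l ^ (q - (2 + 4 / (m : ℝ)))) ≤
      ENNReal.ofReal (l ^ (q - 2)) * ENNReal.ofReal (4 * T * N) +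
        ENNReal.ofReal (Cw m * N ^ (1 + 2 / (m : ℝ)) * Kc q (2 + 4 / (m : ℝ)) *
          l ^ (q - (2 + 4 / (m : ℝ)))) := by gcongr
    _ = _ := by
      have hK := Kc_pos q (2 + 4 / (m : ℝ)) hq0
      have hC := Cw_pos m
      rw [← ENNReal.ofReal_mul (by positivity), ← ENNReal.ofReal_add (by positivity)
        (by positivity)]
      congr 1
      have k1 : ∀ r : ℝ, l ^ r = N ^ (r / 2) * T ^ (-(m : ℝ) * r / 4) := by
        intro r
        rw [hl, Real.mul_rpow (by positivity) (by positivity), ← Real.rpow_mul hN.le,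
          ← Real.rpow_mul hT.le]
        congr 2 <;> ring
      rw [k1, k1]
      have k2 : T ^ (-(m : ℝ) * (q - 2) / 4) * T = T ^ (1 - m * (q - 2) / 4) := by
        rw [← Real.rpow_add_one hT.ne']
        congr 1
        ring
      have k3 : N ^ ((q - 2) / 2) * N = N ^ (q / 2) := by
        rw [← Real.rpow_add_one hN.ne']
        congr 1
        ring
      have k4 : T ^ (-(m : ℝ) * (q - (2 + 4 / (m : ℝ))) / 4) = T ^ (1 - m * (q - 2) / 4) := by
        congr 1
        field_simp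
        ring
      have k5 : N ^ (1 + 2 / (m : ℝ)) * N ^ ((q - (2 + 4 / (m : ℝ))) / 2) = N ^ (q / 2) := by
        rw [← Real.rpow_add hN]
        congr 1
        field_simp
        ring
      rw [k4, ← k2]
      unfold Cb
      have k6 : N ^ ((q - 2) / 2) * T ^ (-(m : ℝ) * (q - 2) / 4) * (4 * T * N) =
          4 * (T ^ (-(m : ℝ) * (q - 2) / 4) * T) * (N ^ ((q - 2) / 2) * N) := by ring
      rw [k6, k3]
      linear_combination (Cw m * Kc q (2 + 4 / (m : ℝ)) * (T ^ (-(m : ℝ) * (q - 2) / 4) * T)) * k5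

end Pool.Agent.Q89.SM
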