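import Pool.Agent.Q89.SM.E
set_option autoImplicit false

/-! Decay of the Fresnel transform of a window. -/

namespace Pool.Agent.Q89.SM

open MeasureTheory Set Complex Filter Topology
open scoped ENNReal NNReal ComplexConjugate
open Pool.Agent.Y183.LS
open Pool.Agent.Q89.LF (Win wh Aw Aw_rep Aw_rec wh_int wh_cont ga ga_norm)

lemma Aw_triv {w : ℝ → ℂ} (τ s : ℝ) : ‖Aw w τ s‖ ≤ ∫ v, ‖w v‖ := by
  unfold Aw
  refine (norm_integral_le_integral_norm _).trans (le_of_eq ?_)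
  congr 1
  ext v
  rw [norm_mul, ec_norm, mul_one]

lemma rec_norm {w : ℝ → ℂ} (h : Win w) (τ s : ℝ) (ht : τ ≠ 0) :
    |s| * ‖Aw w τ s‖ ≤ ‖Aw (fun v => (v : ℂ) * w v) τ s‖ + |τ|⁻¹ * ‖Aw (deriv w) τ s‖ := by
  have h1 := Aw_rec h τ ht s
  have h2 : |s| * ‖Aw w τ s‖ = ‖(s : ℂ) * Aw w τ s‖ := by
    rw [norm_mul, norm_real, Real.norm_eq_abs]
  rw [h2, h1]
  refine (norm_add_le _ _).trans ?_
  gcongr
  rw [norm_mul]
  gcongr
  rw [norm_div, norm_one, norm_mul, norm_mul, norm_mul, norm_I, norm_real, norm_real,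
    Real.norm_eq_abs, Real.norm_eq_abs, mul_one]
  have htp : 0 < |τ| := abs_pos.mpr ht
  rw [inv_eq_one_div]
  apply one_div_le_one_div_of_le htp
  have h3 : (1 : ℝ) ≤ ‖(4 : ℂ)‖ * |Real.pi| := by
    rw [abs_of_pos Real.pi_pos]
    have : ‖(4 : ℂ)‖ = 4 := by norm_num
    rw [this]
    linarith [Real.pi_gt_three]
  nlinarith

lemma Aw_small (N : ℕ) : ∀ {w : ℝ → ℂ}, Win w → ∃ C : ℝ, 0 ≤ C ∧ ∀ τ s : ℝ, τ ≠ 0 → |τ| ≤ 1 →
    |τ * s| ^ N * ‖Aw w τ s‖ ≤ C := by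
  induction N with
  | zero =>
    intro w _
    refine ⟨∫ v, ‖w v‖, integral_nonneg fun v => norm_nonneg _, fun τ s _ _ => ?_⟩
    rw [pow_zero, one_mul]
    exact Aw_triv τ s
  | succ N ih =>
    intro w h
    obtain ⟨C1, h1, H1⟩ := ih h.mulX
    obtain ⟨C2, h2, H2⟩ := ih h.der
    refine ⟨C1 + C2, by positivity, fun τ s hτ hτ1 => ?_⟩
    have h3 := rec_norm h τ s hτ
    have htp : 0 < |τ| := abs_pos.mpr hτ
    have h4 := H1 τ s hτ hτ1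
    have h5 := H2 τ s hτ hτ1
    calc |τ * s| ^ (N + 1) * ‖Aw w τ s‖ = |τ * s| ^ N * |τ| * (|s| * ‖Aw w τ s‖) := by
          rw [pow_succ, abs_mul]
          ring
      _ ≤ |τ * s| ^ N * |τ| * (‖Aw (fun v => (v : ℂ) * w v) τ s‖ +
          |τ|⁻¹ * ‖Aw (deriv w) τ s‖) := by gcongr
      _ = |τ| * (|τ * s| ^ N * ‖Aw (fun v => (v : ℂ) * w v) τ s‖) +
          |τ * s| ^ N * ‖Aw (deriv w) τ s‖ := by
          field_simp
      _ ≤ 1 * C1 + C2 := by gcongr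
      _ = C1 + C2 := by ring

lemma Aw_small' {w : ℝ → ℂ} (h : Win w) (N : ℕ) : ∃ C : ℝ, 0 < C ∧ ∀ τ s : ℝ, τ ≠ 0 → |τ| ≤ 1 →
    (1 + |τ * s|) ^ N * ‖Aw w τ s‖ ≤ C := by
  obtain ⟨C1, h1, H1⟩ := Aw_small 0 h
  obtain ⟨C2, h2, H2⟩ := Aw_small N h
  refine ⟨2 ^ N * (C1 + C2) + 1, by positivity, fun τ s hτ hτ1 => ?_⟩
  have h3 := H1 τ s hτ hτ1
  have h4 := H2 τ s hτ hτ1
  rw [pow_zero, one_mul] at h3
  set x := |τ * s| with hx
  have hx0 : 0 ≤ x := abs_nonneg _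
  have h5 : (1 + x) ^ N ≤ 2 ^ N * (1 + x ^ N) := by
    rcases le_total x 1 with h | h
    · calc (1 + x) ^ N ≤ 2 ^ N := by gcongr; linarith
        _ ≤ 2 ^ N * (1 + x ^ N) := by
          have : 0 ≤ x ^ N := by positivity
          nlinarith [pow_pos (two_pos : (0 : ℝ) < 2) N]
    · calc (1 + x) ^ N ≤ (2 * x) ^ N := by gcongr; linarith
        _ = 2 ^ N * x ^ N := by rw [mul_pow]
        _ ≤ 2 ^ N * (1 + x ^ N) := by gcongr; linarith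
  calc (1 + x) ^ N * ‖Aw w τ s‖ ≤ 2 ^ N * (1 + x ^ N) * ‖Aw w τ s‖ := by gcongr
    _ = 2 ^ N * (‖Aw w τ s‖ + x ^ N * ‖Aw w τ s‖) := by ring
    _ ≤ 2 ^ N * (C1 + C2) := by gcongr
    _ ≤ _ := by linarith

lemma Aw_half {w : ℝ → ℂ} (h : Win w) (τ s : ℝ) (ht : τ ≠ 0) :
    ‖Aw w τ s‖ ≤ |τ| ^ (-(1 / 2) : ℝ) * ∫ η, ‖wh w η‖ := by
  rw [Aw_rep h τ ht s]
  refine (norm_integral_le_integral_norm _).trans ?_
  have h1 : ∀ η : ℝ, ‖ga τ * wh w η * ec (-(η ^ 2 / (4 * τ))) * ec (s * η)‖ =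
      ‖ga τ‖ * ‖wh w η‖ := by
    intro η
    rw [norm_mul, norm_mul, norm_mul, ec_norm, ec_norm, mul_one, mul_one]
  simp only [h1]
  rw [integral_const_mul]
  gcongr
  exact ga_norm τ ht

lemma Aw_large (N : ℕ) : ∀ {w : ℝ → ℂ}, Win w → ∃ C : ℝ, 0 ≤ C ∧ ∀ τ s : ℝ, 1 ≤ |τ| →
    |s| ^ N * ‖Aw w τ s‖ ≤ C * |τ| ^ (-(1 / 2) : ℝ) := by
  induction N with
  | zero =>
    intro w h
    refine ⟨∫ η, ‖wh w η‖, integral_nonneg fun v => norm_nonneg _, fun τ s h1 => ?_⟩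
    rw [pow_zero, one_mul, mul_comm]
    have : τ ≠ 0 := by
      intro hc
      rw [hc, abs_zero] at h1
      linarith
    exact Aw_half h τ s this
  | succ N ih =>
    intro w h
    obtain ⟨C1, h1, H1⟩ := ih h.mulX
    obtain ⟨C2, h2, H2⟩ := ih h.der
    refine ⟨C1 + C2, by positivity, fun τ s hτ1 => ?_⟩
    have hτ : τ ≠ 0 := by
      intro hc
      rw [hc, abs_zero] at hτ1
      linarith
    have h3 := rec_norm h τ s hτ
    have htp : 0 < |τ| := abs_pos.mpr hτ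
    have h4 := H1 τ s hτ1
    have h5 := H2 τ s hτ1
    have h6 : |τ|⁻¹ ≤ 1 := inv_le_one_of_one_le₀ hτ1
    calc |s| ^ (N + 1) * ‖Aw w τ s‖ = |s| ^ N * (|s| * ‖Aw w τ s‖) := by
          rw [pow_succ]
          ring
      _ ≤ |s| ^ N * (‖Aw (fun v => (v : ℂ) * w v) τ s‖ + |τ|⁻¹ * ‖Aw (deriv w) τ s‖) := by gcongr
      _ ≤ |s| ^ N * (‖Aw (fun v => (v : ℂ) * w v) τ s‖ + 1 * ‖Aw (deriv w) τ s‖) := by gcongr
      _ = |s| ^ N * ‖Aw (fun v => (v : ℂ) * w v) τ s‖ + |s| ^ N * ‖Aw (deriv w) τ s‖ := by ring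
      _ ≤ C1 * |τ| ^ (-(1 / 2) : ℝ) + C2 * |τ| ^ (-(1 / 2) : ℝ) := by gcongr
      _ = _ := by ring

lemma Aw_large' {w : ℝ → ℂ} (h : Win w) : ∃ C : ℝ, 0 < C ∧ ∀ τ s : ℝ, 1 ≤ |τ| →
    ‖Aw w τ s‖ ≤ C * |τ| ^ (-(1 / 2) : ℝ) * (1 + s ^ 2)⁻¹ := by
  obtain ⟨C1, h1, H1⟩ := Aw_large 0 h
  obtain ⟨C2, h2, H2⟩ := Aw_large 2 h
  refine ⟨C1 + C2 + 1, by positivity, fun τ s hτ1 => ?_⟩
  have h3 := H1 τ s hτ1
  have h4 := H2 τ s hτ1
  rw [pow_zero, one_mul] at h3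
  rw [sq_abs] at h4
  have hs : 0 < 1 + s ^ 2 := by positivity
  rw [← div_eq_mul_inv, le_div_iff₀ hs]
  have hp : 0 ≤ |τ| ^ (-(1 / 2) : ℝ) := by positivity
  nlinarith

lemma Aw_meas {w : ℝ → ℂ} (h : Win w) (τ : ℝ) : Measurable (Aw w τ) := by
  unfold Aw
  have h1 : StronglyMeasurable (fun p : ℝ × ℝ => w p.2 * ec (τ * (p.2 - p.1) ^ 2)) := by
    apply Measurable.stronglyMeasurable
    apply Measurable.mul
    · exact h.cont.measurable.comp measurable_snd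
    · exact (ec_cont.comp (by fun_prop)).measurable
  exact (h1.integral_prod_right (ν := volume)).measurable

/-- total mass of the kernel at large times -/
lemma Aw_mass {w : ℝ → ℂ} (h : Win w) : ∃ C : ℝ, 0 < C ∧ ∀ (R t : ℝ), 0 < R → R ^ 2 ≤ |t| →
    ∫⁻ v : ℝ, ‖Aw w (t / R ^ 2) (R * v)‖ₑ ≤ ENNReal.ofReal (C * |t| ^ (-(1 / 2) : ℝ)) := by
  obtain ⟨C, hC, H⟩ := Aw_large' h
  refine ⟨C * Real.pi, by positivity, fun R t hR ht => ?_⟩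
  have hR2 : 0 < R ^ 2 := by positivity
  have ht0 : 0 < |t| := lt_of_lt_of_le hR2 ht
  have hτ : 1 ≤ |t / R ^ 2| := by
    rw [abs_div, abs_of_pos hR2, le_div_iff₀ hR2]
    linarith
  have h1 : ∀ v : ℝ, ‖Aw w (t / R ^ 2) (R * v)‖ₑ ≤
      ENNReal.ofReal (C * |t / R ^ 2| ^ (-(1 / 2) : ℝ) * (1 + (R * v) ^ 2)⁻¹) := by
    intro v
    rw [← ofReal_norm]
    exact ENNReal.ofReal_le_ofReal (H _ _ hτ)
  refine (lintegral_mono h1).trans ?_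
  have h2 : Integrable (fun v : ℝ => C * |t / R ^ 2| ^ (-(1 / 2) : ℝ) * (1 + (R * v) ^ 2)⁻¹) := by
    apply Integrable.const_mul
    exact (integrable_inv_one_add_sq).comp_mul_left' hR.ne'
  rw [← ofReal_integral_eq_lintegral_ofReal h2 (ae_of_all _ fun v => by positivity)]
  apply ENNReal.ofReal_le_ofReal
  rw [integral_const_mul, Measure.integral_comp_mul_left (fun v : ℝ => (1 + v ^ 2)⁻¹),
    integral_univ_inv_one_add_sq, smul_eq_mul, abs_of_pos (inv_pos.mpr hR), abs_div,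
    abs_of_pos hR2, Real.div_rpow ht0.le hR2.le]
  have h3 : (R ^ 2) ^ (-(1 / 2) : ℝ) = R⁻¹ := by
    rw [← Real.rpow_natCast, ← Real.rpow_mul hR.le, ← Real.rpow_neg_one]
    congr 1
    norm_num
  rw [h3]
  apply le_of_eq
  field_simp

end Pool.Agent.Q89.SM
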