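import Pool.Agent.Q89.SM.F
set_option autoImplicit false

/-! Mollification. -/

namespace Pool.Agent.Q89.SM

open MeasureTheory Set Complex Filter Topology
open scoped ENNReal NNReal ComplexConjugate
open Pool.Agent.Y183.LS
open Pool.Agent.Q89.LF (Win wh Aw Aw_rep Aw_rec wh_int wh_cont ga ga_norm)

variable {m : ℕ}

/-- the bump -/
noncomputable def bmp : ContDiffBump (0 : ℝ) := ⟨1 / 2, 1, by norm_num, by norm_num⟩

/-- the window -/
noncomputable def wr (x : ℝ) : ℝ := bmp.normed volume x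

lemma wr_nonneg (x : ℝ) : 0 ≤ wr x := bmp.nonneg_normed x

lemma wr_int1 : ∫ x, wr x = 1 := bmp.integral_normed

lemma wr_cont : Continuous wr := bmp.continuous_normed

lemma wr_integrable : Integrable wr := bmp.integrable_normed

lemma wr_supp (x : ℝ) (hx : 1 ≤ |x|) : wr x = 0 := by
  have h1 : x ∉ Function.support (bmp.normed volume) := by
    rw [bmp.support_normed_eq]
    simp only [Metric.mem_ball, dist_zero_right, not_lt]
    exact hx
  exact Function.notMem_support.mp h1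

/-- the complex window -/
noncomputable def wc (x : ℝ) : ℂ := (wr x : ℂ)

lemma wc_win : Win wc := by
  refine ⟨?_, ?_⟩
  · have h1 : ContDiff ℝ (⊤ : ℕ∞) wr := bmp.contDiff_normed
    exact ofRealCLM.contDiff.comp h1
  · have h1 : HasCompactSupport wr := bmp.hasCompactSupport_normed
    exact h1.comp_left (g := fun x : ℝ => (x : ℂ)) (by simp)

/-- the kernel of the mollification -/
noncomputable def Wr (R : ℝ) (u : Fin m → ℝ) : ℝ := ∏ i, (R * wr (R * u i))

lemma Wr_nonneg (R : ℝ) (hR : 0 ≤ R) (u : Fin m → ℝ) : 0 ≤ Wr R u :=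
  Finset.prod_nonneg fun i _ => mul_nonneg hR (wr_nonneg _)

lemma Wr_cont (R : ℝ) : Continuous (Wr (m := m) R) := by
  unfold Wr
  exact continuous_finsetProd _ fun i _ => continuous_const.mul (wr_cont.comp (by fun_prop))

lemma Wr_supp (R : ℝ) (hR : 0 < R) (u : Fin m → ℝ) (h : Wr R u ≠ 0) (i : Fin m) : |u i| ≤ 1 / R := by
  by_contra hc
  push Not at hc
  apply h
  unfold Wr
  apply Finset.prod_eq_zero (Finset.mem_univ i)
  rw [wr_supp, mul_zero]
  rw [abs_mul, abs_of_pos hR]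
  rw [div_lt_iff₀ hR] at hc
  linarith

lemma wr_scaled (R : ℝ) (hR : 0 < R) : Integrable (fun x : ℝ => R * wr (R * x)) ∧
    ∫ x : ℝ, R * wr (R * x) = 1 := by
  refine ⟨(wr_integrable.comp_mul_left' hR.ne').const_mul _, ?_⟩
  rw [integral_const_mul, Measure.integral_comp_mul_left wr, wr_int1, smul_eq_mul, mul_one,
    abs_of_pos (inv_pos.mpr hR), mul_inv_cancel₀ hR.ne']

lemma Wr_lint (R : ℝ) (hR : 0 < R) : ∫⁻ u : Fin m → ℝ, ENNReal.ofReal (Wr R u) = 1 := by
  have h1 : ∀ u : Fin m → ℝ, ENNReal.ofReal (Wr R u) =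
      ∏ i, (fun x : ℝ => ENNReal.ofReal (R * wr (R * x))) (u i) := by
    intro u
    unfold Wr
    rw [ENNReal.ofReal_prod_of_nonneg (fun i _ => mul_nonneg hR.le (wr_nonneg _))]
  simp only [h1]
  have h2 := lint_prod m (fun _ : Fin m => fun x : ℝ => ENNReal.ofReal (R * wr (R * x)))
    (fun j => (continuous_const.mul (wr_cont.comp (by fun_prop))).measurable.ennreal_ofReal)
  rw [h2]
  apply Finset.prod_eq_one
  intro i _
  rw [← ofReal_integral_eq_lintegral_ofReal (wr_scaled R hR).1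
    (ae_of_all _ fun x => mul_nonneg hR.le (wr_nonneg _)), (wr_scaled R hR).2, ENNReal.ofReal_one]

lemma Wr_int (R : ℝ) (hR : 0 < R) : Integrable (Wr (m := m) R) := by
  refine ⟨(Wr_cont R).aestronglyMeasurable, ?_⟩
  unfold HasFiniteIntegral
  have h1 : ∀ u : Fin m → ℝ, ‖Wr R u‖ₑ = ENNReal.ofReal (Wr R u) := by
    intro u
    rw [← ofReal_norm, Real.norm_eq_abs, abs_of_nonneg (Wr_nonneg R hR.le u)]
  simp only [h1, Wr_lint R hR]
  exact ENNReal.one_lt_top

lemma Wr_int1 (R : ℝ) (hR : 0 < R) : ∫ u : Fin m → ℝ, Wr R u = 1 := by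
  have h1 := ofReal_integral_eq_lintegral_ofReal (Wr_int (m := m) R hR)
    (ae_of_all _ fun x => Wr_nonneg R hR.le x)
  rw [Wr_lint R hR] at h1
  have h2 : 0 ≤ ∫ u : Fin m → ℝ, Wr R u := integral_nonneg fun u => Wr_nonneg R hR.le u
  rw [← ENNReal.ofReal_one] at h1
  exact (ENNReal.ofReal_eq_ofReal_iff h2 zero_le_one).mp h1

/-- bounded functions supported in a cube -/
structure Bf (h : (Fin m → ℝ) → ℂ) (M b : ℝ) : Prop where
  ms : Measurable h
  bd : ∀ x, ‖h x‖ ≤ M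
  st : ∀ x, x ∉ BA b m → h x = 0

lemma Bf.int {h : (Fin m → ℝ) → ℂ} {M b : ℝ} (H : Bf h M b) : Integrable h := by
  have h1 : Integrable ((BA b m).indicator (fun _ => M)) := by
    rw [integrable_indicator_iff measurableSet_Icc]
    exact integrableOn_const (BA_fin b).ne (by simp)
  refine h1.mono' H.ms.aestronglyMeasurable (ae_of_all _ fun p => ?_)
  by_cases hp : p ∈ BA b m
  · rw [indicator_of_mem hp]
    exact H.bd p
  · rw [indicator_of_notMem hp, H.st p hp, norm_zero]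

/-- the mollification -/
noncomputable def Pm (R : ℝ) (h : (Fin m → ℝ) → ℂ) (x : Fin m → ℝ) : ℂ :=
  ∫ u, (Wr R u : ℂ) * h (x - u)

lemma Pm_int {h : (Fin m → ℝ) → ℂ} {M b : ℝ} (H : Bf h M b) (R : ℝ) (hR : 0 < R) (x : Fin m → ℝ) :
    Integrable (fun u => (Wr R u : ℂ) * h (x - u)) := by
  have h1 : Integrable (fun u : Fin m → ℝ => M * Wr R u) := (Wr_int R hR).const_mul M
  refine h1.mono' ?_ (ae_of_all _ fun u => ?_)
  · apply Measurable.aestronglyMeasurable
    exact (Complex.continuous_ofReal.comp (Wr_cont R)).measurable.mul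
      (H.ms.comp (measurable_const.sub measurable_id))
  · rw [norm_mul, norm_real, Real.norm_eq_abs, abs_of_nonneg (Wr_nonneg R hR.le u), mul_comm]
    gcongr
    · exact Wr_nonneg R hR.le u
    · exact H.bd _

lemma Pm_joint {h : (Fin m → ℝ) → ℂ} {M b : ℝ} (H : Bf h M b) (R : ℝ) :
    Measurable (fun p : (Fin m → ℝ) × (Fin m → ℝ) => (Wr R p.2 : ℂ) * h (p.1 - p.2)) :=
  ((Complex.continuous_ofReal.comp (Wr_cont R)).measurable.comp measurable_snd).mul
    (H.ms.comp (measurable_fst.sub measurable_snd))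

lemma Pm_Bf {h : (Fin m → ℝ) → ℂ} {M b : ℝ} (H : Bf h M b) (R : ℝ) (hR : 1 ≤ R) :
    Bf (Pm R h) M (b + 1) := by
  have hR0 : 0 < R := by linarith
  refine ⟨?_, fun x => ?_, fun x hx => ?_⟩
  · exact ((Pm_joint H R).stronglyMeasurable.integral_prod_right (ν := volume)).measurable
  · unfold Pm
    refine (norm_integral_le_integral_norm _).trans ?_
    calc ∫ u, ‖(Wr R u : ℂ) * h (x - u)‖ ≤ ∫ u : Fin m → ℝ, M * Wr R u := by
          apply integral_mono (Pm_int H R hR0 x).norm ((Wr_int R hR0).const_mul M)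
          intro u
          simp only
          rw [norm_mul, norm_real, Real.norm_eq_abs, abs_of_nonneg (Wr_nonneg R hR0.le u), mul_comm]
          gcongr
          · exact Wr_nonneg R hR0.le u
          · exact H.bd _
      _ = M := by rw [integral_const_mul, Wr_int1 R hR0, mul_one]
  · unfold Pm
    rw [← integral_zero (Fin m → ℝ) ℂ]
    congr 1
    ext u
    by_cases hu : Wr R u = 0
    · rw [hu]
      simp
    · rw [H.st, mul_zero]
      intro hc
      apply hx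
      have h1 := Wr_supp R hR0 u hu
      have h2 : 1 / R ≤ 1 := by
        rw [div_le_one hR0]
        exact hR
      constructor
      · intro i
        have h3 := hc.1 i
        have h4 := abs_le.mp ((h1 i).trans h2)
        simp only [Pi.sub_apply] at h3 ⊢
        linarith [h4.1]
      · intro i
        have h3 := hc.2 i
        have h4 := abs_le.mp ((h1 i).trans h2)
        simp only [Pi.sub_apply] at h3 ⊢
        linarith [h4.2]

lemma Pm_pt (R : ℝ) (hR : 0 < R) (h : (Fin m → ℝ) → ℂ) (x : Fin m → ℝ) :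
    ‖Pm R h x‖ₑ ≤ ∫⁻ u : Fin m → ℝ, ENNReal.ofReal (Wr R u) * ‖h (x - u)‖ₑ := by
  unfold Pm
  refine (enorm_integral_le_lintegral_enorm _).trans (le_of_eq ?_)
  congr 1
  ext u
  rw [enorm_mul, ← ofReal_norm (Wr R u : ℂ), norm_real, Real.norm_eq_abs,
    abs_of_nonneg (Wr_nonneg R hR.le u)]

lemma sub_lint (φ : (Fin m → ℝ) → ℝ≥0∞) (u : Fin m → ℝ) : ∫⁻ x, φ (x - u) = ∫⁻ x, φ x :=
  lintegral_sub_right_eq_self φ u

lemma Pm_L1 {h : (Fin m → ℝ) → ℂ} (hh : Measurable h) (R : ℝ) (hR : 0 < R) :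
    ∫⁻ x, ‖Pm R h x‖ₑ ≤ ∫⁻ x, ‖h x‖ₑ := by
  have hj : Measurable (fun p : (Fin m → ℝ) × (Fin m → ℝ) =>
      ENNReal.ofReal (Wr R p.2) * ‖h (p.1 - p.2)‖ₑ) :=
    ((Wr_cont R).measurable.ennreal_ofReal.comp measurable_snd).mul
      (hh.comp (measurable_fst.sub measurable_snd)).enorm
  calc ∫⁻ x, ‖Pm R h x‖ₑ ≤ ∫⁻ x, ∫⁻ u : Fin m → ℝ, ENNReal.ofReal (Wr R u) * ‖h (x - u)‖ₑ :=
        lintegral_mono fun x => Pm_pt R hR h x
    _ = ∫⁻ u : Fin m → ℝ, ∫⁻ x, ENNReal.ofReal (Wr R u) * ‖h (x - u)‖ₑ :=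
        lintegral_lintegral_swap hj.aemeasurable
    _ = ∫⁻ u : Fin m → ℝ, ENNReal.ofReal (Wr R u) * ∫⁻ x, ‖h x‖ₑ := by
        congr 1
        ext u
        rw [lintegral_const_mul]
        · rw [sub_lint (fun x => ‖h x‖ₑ) u]
        · exact (hh.comp (measurable_id.sub measurable_const)).enorm
    _ = ∫⁻ x, ‖h x‖ₑ := by
        rw [lintegral_mul_const _ (Wr_cont R).measurable.ennreal_ofReal, Wr_lint R hR, one_mul]

lemma Pm_L2 {h : (Fin m → ℝ) → ℂ} (hh : Measurable h) (R : ℝ) (hR : 0 < R) :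
    ∫⁻ x, ‖Pm R h x‖ₑ ^ 2 ≤ ∫⁻ x, ‖h x‖ₑ ^ 2 := by
  have hj : Measurable (fun p : (Fin m → ℝ) × (Fin m → ℝ) =>
      ENNReal.ofReal (Wr R p.2) * ‖h (p.1 - p.2)‖ₑ ^ 2) :=
    ((Wr_cont R).measurable.ennreal_ofReal.comp measurable_snd).mul
      ((hh.comp (measurable_fst.sub measurable_snd)).enorm.pow_const 2)
  have hcs : ∀ x, ‖Pm R h x‖ₑ ^ 2 ≤
      ∫⁻ u : Fin m → ℝ, ENNReal.ofReal (Wr R u) * ‖h (x - u)‖ₑ ^ 2 := by
    intro x
    have hμ : ∀ φ : (Fin m → ℝ) → ℝ≥0∞, Measurable φ →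
        ∫⁻ u : Fin m → ℝ, ENNReal.ofReal (Wr R u) * φ u =
        ∫⁻ u : Fin m → ℝ, φ u ∂(volume.withDensity fun u => ENNReal.ofReal (Wr R u)) := by
      intro φ hφ
      rw [lintegral_withDensity_eq_lintegral_mul _ (Wr_cont R).measurable.ennreal_ofReal hφ]
      rfl
    have h1 := Pm_pt R hR h x
    have hmx : Measurable (fun u => ‖h (x - u)‖ₑ) :=
      (hh.comp (measurable_const.sub measurable_id)).enorm
    rw [hμ _ hmx] at h1
    rw [hμ _ (hmx.pow_const 2)]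
    set ν : Measure (Fin m → ℝ) := volume.withDensity fun u => ENNReal.ofReal (Wr R u) with hν
    have hν1 : ν univ = 1 := by
      rw [hν, withDensity_apply _ MeasurableSet.univ, Measure.restrict_univ, Wr_lint R hR]
    have h3 := ENNReal.lintegral_mul_le_Lp_mul_Lq ν Real.HolderConjugate.two_two
      (f := fun u => ‖h (x - u)‖ₑ) (g := fun _ => 1) hmx.aemeasurable aemeasurable_const
    simp only [ENNReal.rpow_ofNat, Pi.mul_apply, mul_one, one_pow, lintegral_const, hν1, one_mul,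
      ENNReal.one_rpow] at h3
    calc ‖Pm R h x‖ₑ ^ 2 ≤ ((∫⁻ u, ‖h (x - u)‖ₑ ^ 2 ∂ν) ^ (1 / 2 : ℝ)) ^ 2 := by
          gcongr
          exact h1.trans h3
      _ = ∫⁻ u, ‖h (x - u)‖ₑ ^ 2 ∂ν := by
          rw [← ENNReal.rpow_natCast, ← ENNReal.rpow_mul]
          norm_num
  calc ∫⁻ x, ‖Pm R h x‖ₑ ^ 2 ≤ ∫⁻ x, ∫⁻ u : Fin m → ℝ, ENNReal.ofReal (Wr R u) * ‖h (x - u)‖ₑ ^ 2 :=
        lintegral_mono hcs
    _ = ∫⁻ u : Fin m → ℝ, ∫⁻ x, ENNReal.ofReal (Wr R u) * ‖h (x - u)‖ₑ ^ 2 :=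
        lintegral_lintegral_swap hj.aemeasurable
    _ = ∫⁻ u : Fin m → ℝ, ENNReal.ofReal (Wr R u) * ∫⁻ x, ‖h x‖ₑ ^ 2 := by
        congr 1
        ext u
        rw [lintegral_const_mul]
        · rw [sub_lint (fun x => ‖h x‖ₑ ^ 2) u]
        · exact (hh.comp (measurable_id.sub measurable_const)).enorm.pow_const 2
    _ = ∫⁻ x, ‖h x‖ₑ ^ 2 := by
        rw [lintegral_mul_const _ (Wr_cont R).measurable.ennreal_ofReal, Wr_lint R hR, one_mul]

lemma Pm_sub {h1 h2 : (Fin m → ℝ) → ℂ} {M1 b1 M2 b2 : ℝ} (H1 : Bf h1 M1 b1) (H2 : Bf h2 M2 b2)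
    (R : ℝ) (hR : 0 < R) (x : Fin m → ℝ) :
    Pm R (fun v => h1 v - h2 v) x = Pm R h1 x - Pm R h2 x := by
  unfold Pm
  rw [← integral_sub (Pm_int H1 R hR x) (Pm_int H2 R hR x)]
  congr 1
  ext u
  ring

/-- the error of the mollification -/
lemma Pm_err {f : (Fin m → ℝ) → ℂ} {M b : ℝ} (H : Bf f M b) (R : ℝ) (hR : 0 < R) (ε : ℝ≥0∞)
    (hε : ∀ u : Fin m → ℝ, (∀ i, |u i| ≤ 1 / R) → ∫⁻ x, ‖f (x - u) - f x‖ₑ ≤ ε) :
    ∫⁻ x, ‖Pm R f x - f x‖ₑ ≤ ε := by
  have hpt : ∀ x, ‖Pm R f x - f x‖ₑ ≤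
      ∫⁻ u : Fin m → ℝ, ENNReal.ofReal (Wr R u) * ‖f (x - u) - f x‖ₑ := by
    intro x
    have h1 : f x = ∫ u : Fin m → ℝ, (Wr R u : ℂ) * f x := by
      rw [integral_mul_const, integral_complex_ofReal, Wr_int1 R hR]
      simp
    have h2 : Pm R f x - f x = ∫ u, (Wr R u : ℂ) * (f (x - u) - f x) := by
      conv_lhs => rw [h1]
      unfold Pm
      rw [← integral_sub]
      · congr 1
        ext u
        ring
      · exact Pm_int H R hR x
      · exact ((Wr_int R hR).ofReal).mul_const _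
    rw [h2]
    refine (enorm_integral_le_lintegral_enorm _).trans (le_of_eq ?_)
    congr 1
    ext u
    rw [enorm_mul, ← ofReal_norm (Wr R u : ℂ), norm_real, Real.norm_eq_abs,
      abs_of_nonneg (Wr_nonneg R hR.le u)]
  have hj : Measurable (fun p : (Fin m → ℝ) × (Fin m → ℝ) =>
      ENNReal.ofReal (Wr R p.2) * ‖f (p.1 - p.2) - f p.1‖ₑ) :=
    ((Wr_cont R).measurable.ennreal_ofReal.comp measurable_snd).mul
      ((H.ms.comp (measurable_fst.sub measurable_snd)).sub (H.ms.comp measurable_fst)).enorm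
  calc ∫⁻ x, ‖Pm R f x - f x‖ₑ ≤
        ∫⁻ x, ∫⁻ u : Fin m → ℝ, ENNReal.ofReal (Wr R u) * ‖f (x - u) - f x‖ₑ := lintegral_mono hpt
    _ = ∫⁻ u : Fin m → ℝ, ∫⁻ x, ENNReal.ofReal (Wr R u) * ‖f (x - u) - f x‖ₑ :=
        lintegral_lintegral_swap hj.aemeasurable
    _ = ∫⁻ u : Fin m → ℝ, ENNReal.ofReal (Wr R u) * ∫⁻ x, ‖f (x - u) - f x‖ₑ := by
        congr 1
        ext u
        rw [lintegral_const_mul]
        exact ((H.ms.comp (measurable_id.sub measurable_const)).sub H.ms).enorm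
    _ ≤ ∫⁻ u : Fin m → ℝ, ENNReal.ofReal (Wr R u) * ε := by
        apply lintegral_mono
        intro u
        simp only
        by_cases hu : Wr R u = 0
        · rw [hu]
          simp
        · gcongr
          exact hε u (Wr_supp R hR u hu)
    _ = ε := by
        rw [lintegral_mul_const _ (Wr_cont R).measurable.ennreal_ofReal, Wr_lint R hR, one_mul]

/-- mollifications commute -/
lemma Pm_comm {f : (Fin m → ℝ) → ℂ} {M b : ℝ} (H : Bf f M b) (R S : ℝ) (hR : 0 < R) (hS : 0 < S)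
    (x : Fin m → ℝ) : Pm R (Pm S f) x = Pm S (Pm R f) x := by
  unfold Pm
  have h1 : ∀ u : Fin m → ℝ, (Wr R u : ℂ) * ∫ v, (Wr S v : ℂ) * f (x - u - v) =
      ∫ v, (Wr R u : ℂ) * ((Wr S v : ℂ) * f (x - u - v)) := fun u => (integral_const_mul _ _).symm
  have h2 : ∀ v : Fin m → ℝ, (Wr S v : ℂ) * ∫ u, (Wr R u : ℂ) * f (x - v - u) =
      ∫ u, (Wr R u : ℂ) * ((Wr S v : ℂ) * f (x - u - v)) := by
    intro v
    rw [← integral_const_mul]
    congr 1
    ext u
    rw [sub_right_comm]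
    ring
  simp only [h1, h2]
  rw [integral_integral_swap]
  have h3 : Integrable (fun p : (Fin m → ℝ) × (Fin m → ℝ) => M * (Wr R p.1 * Wr S p.2))
      (volume.prod volume) :=
    (Integrable.mul_prod (f := Wr R) (g := Wr S) (Wr_int R hR) (Wr_int S hS)).const_mul M
  refine h3.mono' ?_ (ae_of_all _ fun p => ?_)
  · apply Measurable.aestronglyMeasurable
    apply Measurable.mul
    · exact (Complex.continuous_ofReal.comp (Wr_cont R)).measurable.comp measurable_fst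
    · apply Measurable.mul
      · exact (Complex.continuous_ofReal.comp (Wr_cont S)).measurable.comp measurable_snd
      · exact H.ms.comp ((measurable_const.sub measurable_fst).sub measurable_snd)
  · simp only [Function.uncurry]
    rw [norm_mul, norm_mul, norm_real, norm_real, Real.norm_eq_abs, Real.norm_eq_abs,
      abs_of_nonneg (Wr_nonneg R hR.le _), abs_of_nonneg (Wr_nonneg S hS.le _)]
    have h4 := H.bd (x - p.1 - p.2)
    have h5 := Wr_nonneg R hR.le p.1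
    have h6 := Wr_nonneg S hS.le p.2
    calc Wr R p.1 * (Wr S p.2 * ‖f (x - p.1 - p.2)‖) ≤ Wr R p.1 * (Wr S p.2 * M) := by gcongr
      _ = M * (Wr R p.1 * Wr S p.2) := by ring

end Pool.Agent.Q89.SM
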