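import Pool.Agent.Q89.SM.G
set_option autoImplicit false

/-! The extension of a mollified function. -/

namespace Pool.Agent.Q89.SM

open MeasureTheory Set Complex Filter Topology
open scoped ENNReal NNReal ComplexConjugate
open Pool.Agent.Y183.LS
open Pool.Agent.Q89.LF (Win wh Aw Aw_rep Aw_rec wh_int wh_cont ga ga_norm)

variable {m : ℕ}

lemma one_rep (R t z a : ℝ) (hR : 0 < R) :
    ∫ v : ℝ, ((R * wr (R * (v - a)) : ℝ) : ℂ) * Pool.Agent.W771.MD.qe (-(2 * t * z)) t v =
      ec (-(t * z ^ 2)) * Aw wc (t / R ^ 2) (R * (z - a)) := by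
  set G : ℝ → ℂ := fun w => ((R : ℝ) : ℂ) * (ec (-(t * z ^ 2)) *
    (wc w * ec (t / R ^ 2 * (w - R * (z - a)) ^ 2))) with hG
  have h1 : ∀ v : ℝ, ((R * wr (R * (v - a)) : ℝ) : ℂ) * Pool.Agent.W771.MD.qe (-(2 * t * z)) t v =
      G (R * (v - a)) := by
    intro v
    have e1 : ec (v * -(2 * t * z) + v ^ 2 * t) =
        ec (-(t * z ^ 2)) * ec (t / R ^ 2 * (R * (v - a) - R * (z - a)) ^ 2) := by
      rw [← ec_add]
      congr 1
      field_simp
      ring
    rw [qe_ec, e1, hG]
    unfold wc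
    push_cast
    ring
  simp only [h1]
  rw [integral_sub_right_eq_self (fun v => G (R * v)) a, Measure.integral_comp_mul_left G, hG,
    integral_const_mul, integral_const_mul, abs_of_pos (inv_pos.mpr hR)]
  rw [Complex.real_smul, ← mul_assoc]
  have h2 : ((R⁻¹ : ℝ) : ℂ) * ((R : ℝ) : ℂ) = 1 := by
    rw [← ofReal_mul, inv_mul_cancel₀ hR.ne', ofReal_one]
  rw [h2, one_mul]
  rfl

/-- the absolute value of the kernel -/
noncomputable def Kn (R t : ℝ) (v : Fin m → ℝ) : ℝ≥0∞ := ∏ i, ‖Aw wc (t / R ^ 2) (R * v i)‖ₑ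

lemma Kn_meas (R t : ℝ) : Measurable (Kn (m := m) R t) :=
  Finset.measurable_fun_prod _ fun i _ => ((Aw_meas wc_win _).comp (by fun_prop)).enorm

lemma inner_rep (R t : ℝ) (hR : 0 < R) (z x : Fin m → ℝ) :
    ∫ v : Fin m → ℝ, (Wr R (v - x) : ℂ) * em (fun i => -(2 * t * z i)) t v =
      ∏ i, (ec (-(t * z i ^ 2)) * Aw wc (t / R ^ 2) (R * (z i - x i))) := by
  have h1 : ∀ v : Fin m → ℝ, (Wr R (v - x) : ℂ) * em (fun i => -(2 * t * z i)) t v =
      ∏ i, (fun s : ℝ => ((R * wr (R * (s - x i)) : ℝ) : ℂ) *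
        Pool.Agent.W771.MD.qe (-(2 * t * z i)) t s) (v i) := by
    intro v
    unfold Wr em Pool.Agent.W771.MD.em
    rw [ofReal_prod, ← Finset.prod_mul_distrib]
    rfl
  simp only [h1]
  rw [integral_fintype_prod_volume_eq_prod
    (fun i => fun s : ℝ => ((R * wr (R * (s - x i)) : ℝ) : ℂ) *
        Pool.Agent.W771.MD.qe (-(2 * t * z i)) t s)]
  apply Finset.prod_congr rfl
  intro i _
  exact one_rep R t (z i) (x i) hR

lemma X_rep {h : (Fin m → ℝ) → ℂ} {M b : ℝ} (H : Bf h M b) (R t : ℝ) (hR : 0 < R)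
    (z : Fin m → ℝ) : X (Pm R h) t (fun i => -(2 * t * z i)) =
      ∫ x, h x * ∏ i, (ec (-(t * z i ^ 2)) * Aw wc (t / R ^ 2) (R * (z i - x i))) := by
  unfold X
  have h1 : ∀ v, Pm R h v * em (fun i => -(2 * t * z i)) t v =
      ∫ x, h x * ((Wr R (v - x) : ℂ) * em (fun i => -(2 * t * z i)) t v) := by
    intro v
    have e1 : Pm R h v = ∫ x, (Wr R (v - x) : ℂ) * h x := by
      unfold Pm
      rw [← integral_sub_left_eq_self (fun x => (Wr R (v - x) : ℂ) * h x) volume v]
      congr 1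
      ext u
      rw [sub_sub_cancel]
    rw [e1, ← integral_mul_const]
    congr 1
    ext x
    ring
  simp only [h1]
  rw [integral_integral_swap]
  · congr 1
    ext x
    rw [integral_const_mul, inner_rep R t hR z x]
  · have h2 : Integrable (fun p : (Fin m → ℝ) × (Fin m → ℝ) => Wr R (p.1 - p.2) * ‖h p.2‖)
        (volume.prod volume) := by
      have h3 : Integrable (fun p : (Fin m → ℝ) × (Fin m → ℝ) => Wr R p.1 * ‖h p.2‖)
          (volume.prod volume) := Integrable.mul_prod (f := Wr R) (g := fun x => ‖h x‖)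
            (Wr_int R hR) H.int.norm
      have h4 : MeasurePreserving (fun p : (Fin m → ℝ) × (Fin m → ℝ) => (p.1 - p.2, p.2))
          (volume.prod volume) (volume.prod volume) := measurePreserving_sub_prod _ _
      exact h4.integrable_comp_of_integrable h3
    refine h2.mono' ?_ (ae_of_all _ fun p => ?_)
    · apply Measurable.aestronglyMeasurable
      apply Measurable.mul
      · exact H.ms.comp measurable_snd
      · apply Measurable.mul
        · exact (Complex.continuous_ofReal.comp (Wr_cont R)).measurable.comp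
            (measurable_fst.sub measurable_snd)
        · exact (emc.comp (by fun_prop : Continuous fun p : (Fin m → ℝ) × (Fin m → ℝ) =>
            (((t, fun i => -(2 * t * z i)), p.1) : (ℝ × (Fin m → ℝ)) × (Fin m → ℝ)))).measurable
    · simp only [Function.uncurry]
      rw [norm_mul, norm_mul, em_nrm, mul_one, norm_real, Real.norm_eq_abs,
        abs_of_nonneg (Wr_nonneg R hR.le _), mul_comm]

lemma X_le {h : (Fin m → ℝ) → ℂ} {M b : ℝ} (H : Bf h M b) (R t : ℝ) (hR : 0 < R)
    (z : Fin m → ℝ) : ‖X (Pm R h) t (fun i => -(2 * t * z i))‖ₑ ≤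
      ∫⁻ x, ‖h x‖ₑ * Kn R t (fun i => z i - x i) := by
  rw [X_rep H R t hR z]
  refine (enorm_integral_le_lintegral_enorm _).trans (le_of_eq ?_)
  congr 1
  ext x
  rw [enorm_mul, enorm_prd]
  unfold Kn
  congr 1
  apply Finset.prod_congr rfl
  intro i _
  rw [enorm_mul, ec_enorm, one_mul]

end Pool.Agent.Q89.SM
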