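import Pool.Agent.Q89.SM.H
set_option autoImplicit false

/-! Small and large times. -/

namespace Pool.Agent.Q89.SM

open MeasureTheory Set Complex Filter Topology
open scoped ENNReal NNReal ComplexConjugate
open Pool.Agent.Y183.LS
open Pool.Agent.Q89.LF (Win wh Aw Aw_rep Aw_rec wh_int wh_cont ga ga_norm)

variable {m : ℕ}

/-- **the estimate on a dyadic block**, homogeneous form -/
theorem block' (hm : 1 ≤ m) (q : ℝ) (hq : 2 < q) (hq0 : q < 2 + 4 / (m : ℝ))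
    (g : (Fin m → ℝ) → ℂ) (hg : Measurable g) (b : ℝ) (hb : 0 ≤ b)
    (hs : ∀ v, v ∉ BA b m → g v = 0) (h2 : ∫⁻ v, ‖g v‖ₑ ^ 2 ≠ ∞) (T : ℝ) (hT : 0 < T) :
    ∫⁻ t in JT T, ∫⁻ y, ‖X g t y‖ₑ ^ q ≤
      ENNReal.ofReal (Cb m q * T ^ (1 - m * (q - 2) / 4)) * (∫⁻ v, ‖g v‖ₑ ^ 2) ^ (q / 2) := by
  set N : ℝ := (∫⁻ v, ‖g v‖ₑ ^ 2).toReal with hN
  have hNe : ∫⁻ v, ‖g v‖ₑ ^ 2 = ENNReal.ofReal N := (ENNReal.ofReal_toReal h2).symm
  have hN0 : 0 ≤ N := ENNReal.toReal_nonneg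
  rcases hN0.eq_or_lt with h0 | h0
  · have h3 : ∫⁻ v, ‖g v‖ₑ ^ 2 = 0 := by rw [hNe, ← h0, ENNReal.ofReal_zero]
    have h4 : ∀ᵐ v, g v = 0 := by
      rw [lintegral_eq_zero_iff (hg.enorm.pow_const 2)] at h3
      filter_upwards [h3] with v hv
      simpa using hv
    have h5 : ∀ t y, X g t y = 0 := by
      intro t y
      unfold X
      apply integral_eq_zero_of_ae
      filter_upwards [h4] with v hv
      rw [hv, zero_mul]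
      rfl
    simp only [h5, enorm_zero]
    rw [ENNReal.zero_rpow_of_pos (by linarith)]
    simp
  · refine (block hm q hq hq0 g hg b hb hs N h0 hNe.le T hT).trans (le_of_eq ?_)
    have hK := Kc_pos q (2 + 4 / (m : ℝ)) hq0
    have hC := Cw_pos m
    have hCb : 0 < Cb m q := by unfold Cb; positivity
    rw [hNe, ENNReal.ofReal_rpow_of_pos h0, ← ENNReal.ofReal_mul (by positivity), mul_assoc]

lemma supL2 (q : ℝ) (hq : 2 ≤ q) (g : (Fin m → ℝ) → ℂ) (hg : Measurable g) (b : ℝ)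
    (hs : ∀ v, v ∉ BA b m → g v = 0) (h2 : ∫⁻ v, ‖g v‖ₑ ^ 2 ≠ ∞) (t : ℝ) (L : ℝ≥0∞)
    (hL : ∀ y, ‖X g t y‖ₑ ≤ L) :
    ∫⁻ y, ‖X g t y‖ₑ ^ q ≤ L ^ (q - 2) * ∫⁻ v, ‖g v‖ₑ ^ 2 := by
  have h1 : ∀ y, ‖X g t y‖ₑ ^ q ≤ L ^ (q - 2) * ‖X g t y‖ₑ ^ 2 := by
    intro y
    have h3 : ‖X g t y‖ₑ ^ q = ‖X g t y‖ₑ ^ (q - 2) * ‖X g t y‖ₑ ^ 2 := by
      rw [← ENNReal.rpow_natCast, ← ENNReal.rpow_add_of_nonneg _ _ (by linarith) (by norm_num)]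
      congr 1
      push_cast
      ring
    rw [h3]
    gcongr ?_ * _
    exact ENNReal.rpow_le_rpow (hL y) (by linarith)
  refine (lintegral_mono h1).trans ?_
  have hm1 : Measurable (fun y => ‖X g t y‖ₑ ^ 2) :=
    ((X_meas g hg).comp (measurable_const.prodMk measurable_id)).enorm.pow_const 2
  rw [lintegral_const_mul _ hm1, X_planch g hg b hs h2 t]

lemma X_sup (g : (Fin m → ℝ) → ℂ) (t : ℝ) (y : Fin m → ℝ) : ‖X g t y‖ₑ ≤ ∫⁻ v, ‖g v‖ₑ := by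
  unfold X
  refine (enorm_integral_le_lintegral_enorm _).trans (le_of_eq ?_)
  congr 1
  ext v
  rw [enorm_mul, em_enrm, mul_one]

lemma smallT (q : ℝ) (hq : 2 ≤ q) (g : (Fin m → ℝ) → ℂ) (hg : Measurable g) (b : ℝ)
    (hs : ∀ v, v ∉ BA b m → g v = 0) (h2 : ∫⁻ v, ‖g v‖ₑ ^ 2 ≠ ∞) :
    ∫⁻ t in {t : ℝ | |t| < 1}, ∫⁻ y, ‖X g t y‖ₑ ^ q ≤
      2 * ((∫⁻ v, ‖g v‖ₑ) ^ (q - 2) * ∫⁻ v, ‖g v‖ₑ ^ 2) := by
  calc ∫⁻ t in {t : ℝ | |t| < 1}, ∫⁻ y, ‖X g t y‖ₑ ^ q ≤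
      ∫⁻ t in {t : ℝ | |t| < 1}, (∫⁻ v, ‖g v‖ₑ) ^ (q - 2) * ∫⁻ v, ‖g v‖ₑ ^ 2 :=
        lintegral_mono fun t => supL2 q hq g hg b hs h2 t _ (X_sup g t)
    _ = _ := by
        rw [lintegral_const, Measure.restrict_apply_univ, mul_comm]
        congr 1
        have h1 : {t : ℝ | |t| < 1} = Ioo (-1) 1 := by
          ext t
          simp [abs_lt]
        rw [h1, Real.volume_Ioo]
        norm_num

lemma Kn_mass : ∃ C : ℝ, 0 < C ∧ ∀ (R t : ℝ), 0 < R → R ^ 2 ≤ |t| →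
    ∫⁻ v : Fin m → ℝ, Kn R t v ≤ ENNReal.ofReal (C * |t| ^ (-(1 / 2) : ℝ)) ^ m := by
  obtain ⟨C, hC, H⟩ := Aw_mass wc_win
  refine ⟨C, hC, fun R t hR ht => ?_⟩
  have h1 := lint_prod m (fun _ : Fin m => fun x : ℝ => ‖Aw wc (t / R ^ 2) (R * x)‖ₑ)
    (fun j => ((Aw_meas wc_win _).comp (by fun_prop)).enorm)
  have h2 : ∫⁻ v : Fin m → ℝ, Kn R t v =
      ∏ _j : Fin m, ∫⁻ x : ℝ, ‖Aw wc (t / R ^ 2) (R * x)‖ₑ := h1
  rw [h2, Finset.prod_const, Finset.card_univ, Fintype.card_fin]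
  gcongr
  exact H R t hR ht

lemma large_sup : ∃ C : ℝ, 0 < C ∧ ∀ (R t : ℝ), 0 < R → R ^ 2 ≤ |t| → ∀ (h : (Fin m → ℝ) → ℂ) (b : ℝ),
    Bf h 1 b → ∀ y, ‖X (Pm R h) t y‖ₑ ≤ ENNReal.ofReal (C * |t| ^ (-(1 / 2) : ℝ)) ^ m := by
  obtain ⟨C, hC, H⟩ := Kn_mass (m := m)
  refine ⟨C, hC, fun R t hR ht h b hB y => ?_⟩
  have ht0 : t ≠ 0 := by
    intro hc
    rw [hc, abs_zero] at ht
    nlinarith
  set z : Fin m → ℝ := fun i => -(y i / (2 * t)) with hz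
  have hy : y = fun i => -(2 * t * z i) := by
    ext i
    rw [hz]
    field_simp
  rw [hy]
  refine (X_le hB R t hR z).trans ?_
  calc ∫⁻ x, ‖h x‖ₑ * Kn R t (fun i => z i - x i) ≤ ∫⁻ x, Kn R t (z - x) := by
        apply lintegral_mono
        intro x
        simp only
        have h1 : ‖h x‖ₑ ≤ 1 := by
          rw [← ofReal_norm, ← ENNReal.ofReal_one]
          exact ENNReal.ofReal_le_ofReal (hB.bd x)
        calc ‖h x‖ₑ * Kn R t (fun i => z i - x i) ≤ 1 * Kn R t (fun i => z i - x i) := by gcongr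
          _ = Kn R t (z - x) := by rw [one_mul]; rfl
    _ = ∫⁻ v, Kn R t v := lintegral_sub_left_eq_self (fun v => Kn R t v) z
    _ ≤ _ := H R t hR ht

lemma largeT (hm : 1 ≤ m) (q : ℝ) (hq : 2 + 2 / (m : ℝ) < q) : ∃ C : ℝ≥0, ∀ (R : ℝ), 1 ≤ R →
    ∀ (h : (Fin m → ℝ) → ℂ) (b : ℝ), Bf h 1 b → ∫⁻ v, ‖h v‖ₑ ^ 2 ≠ ∞ →
    ∫⁻ t in {t : ℝ | R ^ 2 ≤ |t|}, ∫⁻ y, ‖X (Pm R h) t y‖ₑ ^ q ≤ C * ∫⁻ v, ‖h v‖ₑ ^ 2 := by
  obtain ⟨C, hC, H⟩ := large_sup (m := m)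
  have hm0 : (0 : ℝ) < m := by exact_mod_cast hm
  have hq2 : 2 < q := by
    have : 0 < 2 / (m : ℝ) := by positivity
    linarith
  set p : ℝ := m * (q - 2) / 2 with hp
  have hp1 : 1 < p := by
    rw [hp, lt_div_iff₀ two_pos]
    have h1 : 2 / (m : ℝ) < q - 2 := by linarith
    rw [div_lt_iff₀ hm0] at h1
    linarith
  set I0 : ℝ≥0∞ := ∫⁻ t : ℝ, ENNReal.ofReal ((1 + ‖t‖) ^ (-p)) with hI0
  have hI : I0 ≠ ∞ := by
    have := finite_integral_one_add_norm (μ := (volume : Measure ℝ)) (r := p) (by simpa using hp1)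
    exact this.ne
  set c0 : ℝ≥0∞ := ENNReal.ofReal (C ^ ((m : ℝ) * (q - 2)) * 2 ^ p) with hc0
  have hfin : c0 * I0 ≠ ∞ := ENNReal.mul_ne_top ENNReal.ofReal_ne_top hI
  refine ⟨(c0 * I0).toNNReal, fun R hR h b hB h2 => ?_⟩
  rw [ENNReal.coe_toNNReal hfin]
  have hR0 : 0 < R := by linarith
  have hP := Pm_Bf hB R hR
  have hP2 := Pm_L2 hB.ms R hR0
  have hP2f : ∫⁻ v, ‖Pm R h v‖ₑ ^ 2 ≠ ∞ := ne_top_of_le_ne_top h2 hP2
  have hSm : MeasurableSet {t : ℝ | R ^ 2 ≤ |t|} := measurableSet_le measurable_const measurable_norm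
  calc ∫⁻ t in {t : ℝ | R ^ 2 ≤ |t|}, ∫⁻ y, ‖X (Pm R h) t y‖ₑ ^ q ≤
      ∫⁻ t in {t : ℝ | R ^ 2 ≤ |t|}, c0 * ENNReal.ofReal ((1 + ‖t‖) ^ (-p)) * ∫⁻ v, ‖h v‖ₑ ^ 2 := by
        apply setLIntegral_mono' hSm
        intro t ht
        have ht1 : 1 ≤ |t| := by
          have : R ^ 2 ≤ |t| := ht
          nlinarith
        have ht0 : 0 < |t| := by linarith
        refine (supL2 q hq2.le _ hP.ms (b + 1) hP.st hP2f t _ (H R t hR0 ht h b hB)).trans ?_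
        gcongr
        rw [← ENNReal.ofReal_pow (by positivity), ENNReal.ofReal_rpow_of_nonneg (by positivity)
          (by linarith), hc0, ← ENNReal.ofReal_mul (by positivity)]
        apply ENNReal.ofReal_le_ofReal
        rw [← Real.rpow_natCast, ← Real.rpow_mul (by positivity), Real.mul_rpow hC.le (by positivity),
          mul_assoc]
        gcongr
        rw [← Real.rpow_mul ht0.le, Real.norm_eq_abs]
        have e1 : -(1 / 2) * ((m : ℝ) * (q - 2)) = -p := by rw [hp]; ring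
        rw [e1, Real.rpow_neg ht0.le, Real.rpow_neg (by positivity), ← div_eq_mul_inv,
          inv_eq_one_div, div_le_div_iff₀ (by positivity) (by positivity), one_mul,
          ← Real.mul_rpow (by norm_num) ht0.le]
        apply Real.rpow_le_rpow (by positivity) (by linarith) (by linarith)
    _ ≤ ∫⁻ t : ℝ, c0 * ENNReal.ofReal ((1 + ‖t‖) ^ (-p)) * ∫⁻ v, ‖h v‖ₑ ^ 2 :=
        setLIntegral_le_lintegral _ _
    _ = c0 * I0 * ∫⁻ v, ‖h v‖ₑ ^ 2 := by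
        have hmm : Measurable (fun t : ℝ => ENNReal.ofReal ((1 + ‖t‖) ^ (-p))) := by fun_prop
        rw [lintegral_mul_const _ (hmm.const_mul _), lintegral_const_mul _ hmm]

end Pool.Agent.Q89.SM
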