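import Pool.Agent.Q89.SM.I
set_option autoImplicit false

/-! Localization: the far part of the kernel. -/

namespace Pool.Agent.Q89.SM

open MeasureTheory Set Complex Filter Topology
open scoped ENNReal NNReal ComplexConjugate
open Pool.Agent.Y183.LS
open Pool.Agent.Q89.LF (Win wh Aw Aw_rep Aw_rec wh_int wh_cont ga ga_norm)

variable {m : ℕ}

/-- cubes -/
def Cu (a : Fin m → ℝ) (l : ℝ) : Set (Fin m → ℝ) := {x | ∀ i, |x i - a i| ≤ l}

lemma Cu_comm (a x : Fin m → ℝ) (l : ℝ) : x ∈ Cu a l ↔ a ∈ Cu x l := by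
  unfold Cu
  simp only [mem_ofPred_eq]
  constructor
  · intro h i
    rw [abs_sub_comm]
    exact h i
  · intro h i
    rw [abs_sub_comm]
    exact h i

lemma Cu_joint (l : ℝ) : MeasurableSet {w : (Fin m → ℝ) × (Fin m → ℝ) | w.2 ∈ Cu w.1 l} := by
  have h1 : {w : (Fin m → ℝ) × (Fin m → ℝ) | w.2 ∈ Cu w.1 l} = ⋂ i, {w | |w.2 i - w.1 i| ≤ l} := by
    ext w
    simp [Cu]
  rw [h1]
  apply MeasurableSet.iInter
  intro i
  apply measurableSet_le _ measurable_const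
  have : Continuous (fun w : (Fin m → ℝ) × (Fin m → ℝ) => |w.2 i - w.1 i|) := by fun_prop
  exact this.measurable

lemma Cu_meas (a : Fin m → ℝ) (l : ℝ) : MeasurableSet (Cu a l) :=
  (measurable_const.prodMk measurable_id : Measurable fun x : Fin m → ℝ => (a, x)) (Cu_joint l)

lemma Cu_vol (a : Fin m → ℝ) (l : ℝ) : volume (Cu a l) = ENNReal.ofReal (2 * l) ^ m := by
  have h1 : Cu a l = Icc (fun i => a i - l) (fun i => a i + l) := by
    ext x
    unfold Cu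
    simp only [mem_ofPred_eq, mem_Icc, Pi.le_def]
    constructor
    · intro h
      exact ⟨fun i => by linarith [(abs_le.mp (h i)).1], fun i => by linarith [(abs_le.mp (h i)).2]⟩
    · intro h i
      exact abs_le.mpr ⟨by linarith [h.1 i], by linarith [h.2 i]⟩
  rw [h1, Real.volume_Icc_pi]
  have h2 : ∀ i, ENNReal.ofReal (a i + l - (a i - l)) = ENNReal.ofReal (2 * l) := by
    intro i
    congr 1
    ring
  simp only [h2]
  rw [Finset.prod_const, Finset.card_univ, Fintype.card_fin]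

/-- the tail -/
noncomputable def Ps (ρ : ℝ) (v : Fin m → ℝ) : ℝ≥0∞ := ∏ i, ENNReal.ofReal ((1 + (v i / ρ) ^ 2)⁻¹)

lemma Ps_meas (ρ : ℝ) : Measurable (Ps (m := m) ρ) := by
  unfold Ps
  fun_prop

lemma Ps_mass (ρ : ℝ) (hρ : 0 < ρ) : ∫⁻ v : Fin m → ℝ, Ps ρ v = ENNReal.ofReal (Real.pi * ρ) ^ m := by
  have h1 := lint_prod m (fun _ : Fin m => fun x : ℝ => ENNReal.ofReal ((1 + (x / ρ) ^ 2)⁻¹))
    (fun j => by fun_prop)
  have h2 : ∫⁻ v : Fin m → ℝ, Ps ρ v =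
      ∏ _j : Fin m, ∫⁻ x : ℝ, ENNReal.ofReal ((1 + (x / ρ) ^ 2)⁻¹) := h1
  rw [h2, Finset.prod_const, Finset.card_univ, Fintype.card_fin]
  congr 1
  have h3 : Integrable (fun x : ℝ => (1 + (x / ρ) ^ 2)⁻¹) := by
    have := integrable_inv_one_add_sq.comp_mul_left' (R := ρ⁻¹) (inv_ne_zero hρ.ne')
    refine this.congr (ae_of_all _ fun x => ?_)
    simp only
    rw [div_eq_inv_mul]
  rw [← ofReal_integral_eq_lintegral_ofReal h3 (ae_of_all _ fun x => by positivity)]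
  congr 1
  have h4 : ∀ x : ℝ, (1 + (x / ρ) ^ 2)⁻¹ = (fun y : ℝ => (1 + y ^ 2)⁻¹) (ρ⁻¹ * x) := by
    intro x
    simp only
    rw [div_eq_inv_mul]
  simp only [h4]
  rw [Measure.integral_comp_mul_left (fun y : ℝ => (1 + y ^ 2)⁻¹), integral_univ_inv_one_add_sq,
    inv_inv, abs_of_pos hρ, smul_eq_mul, mul_comm]

lemma Kn_far (N : ℕ) : ∃ C : ℝ, 1 ≤ C ∧ ∀ (R T t l : ℝ), 0 < R → 0 < T → T ≤ |t| → |t| ≤ R ^ 2 →
    0 < l → ∀ v : Fin m → ℝ, (∃ i, l < |v i|) →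
    Kn R t v ≤ ENNReal.ofReal (C ^ m * ((l * T / R) ^ N)⁻¹) * Ps (R / T) v := by
  obtain ⟨C0, hC0, H⟩ := Aw_small' wc_win (N + 2)
  refine ⟨C0 + 1, by linarith, fun R T t l hR hT hTt htR hl v ⟨i0, hi0⟩ => ?_⟩
  have ht0 : 0 < |t| := lt_of_lt_of_le hT hTt
  have htne : t ≠ 0 := abs_pos.mp ht0
  have hR2 : 0 < R ^ 2 := by positivity
  have hone : ∀ s : ℝ, ‖Aw wc (t / R ^ 2) (R * s)‖ ≤
      (C0 + 1) * ((1 + |s| * T / R) ^ N)⁻¹ * (1 + (s / (R / T)) ^ 2)⁻¹ := by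
    intro s
    have h1 := H (t / R ^ 2) (R * s) (div_ne_zero htne hR2.ne') (by
      rw [abs_div, abs_of_pos hR2, div_le_one hR2]
      exact htR)
    have h2 : |s| * T / R ≤ |t / R ^ 2 * (R * s)| := by
      have e1 : t / R ^ 2 * (R * s) = t * s / R := by field_simp
      rw [e1, abs_div, abs_mul, abs_of_pos hR]
      have : |s| * T ≤ |t| * |s| := by
        rw [mul_comm]
        gcongr
      gcongr
    set x := |s| * T / R with hx
    have hx0 : 0 ≤ x := by positivity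
    have h3 : (1 + x) ^ (N + 2) * ‖Aw wc (t / R ^ 2) (R * s)‖ ≤ C0 := by
      refine le_trans ?_ h1
      gcongr
    have h4 : (s / (R / T)) ^ 2 = x ^ 2 := by
      rw [hx, div_div_eq_mul_div, div_pow, div_pow, mul_pow, mul_pow, sq_abs]
    rw [h4]
    have h5 : 1 + x ^ 2 ≤ (1 + x) ^ 2 := by nlinarith
    have h6 : 0 < (1 + x) ^ N := by positivity
    have h7 : 0 < 1 + x ^ 2 := by positivity
    rw [← div_eq_mul_inv, ← div_eq_mul_inv, le_div_iff₀ h7, le_div_iff₀ h6]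
    calc ‖Aw wc (t / R ^ 2) (R * s)‖ * (1 + x ^ 2) * (1 + x) ^ N ≤
          ‖Aw wc (t / R ^ 2) (R * s)‖ * (1 + x) ^ 2 * (1 + x) ^ N := by gcongr
      _ = (1 + x) ^ (N + 2) * ‖Aw wc (t / R ^ 2) (R * s)‖ := by ring
      _ ≤ C0 + 1 := by linarith
  have hdec : ∀ i, ‖Aw wc (t / R ^ 2) (R * v i)‖ₑ ≤ ENNReal.ofReal ((C0 + 1) *
      (if i = i0 then ((l * T / R) ^ N)⁻¹ else 1)) * ENNReal.ofReal ((1 + (v i / (R / T)) ^ 2)⁻¹) := by
    intro i
    rw [← ofReal_norm, ← ENNReal.ofReal_mul (by split_ifs <;> positivity)]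
    apply ENNReal.ofReal_le_ofReal
    refine (hone (v i)).trans ?_
    gcongr
    split_ifs with hi
    · rw [hi]
      gcongr
      have : l * T / R ≤ |v i0| * T / R := by gcongr
      linarith
    · apply inv_le_one_of_one_le₀
      apply one_le_pow₀
      have : 0 ≤ |v i| * T / R := by positivity
      linarith
  unfold Kn
  calc ∏ i, ‖Aw wc (t / R ^ 2) (R * v i)‖ₑ ≤ ∏ i, (ENNReal.ofReal ((C0 + 1) *
      (if i = i0 then ((l * T / R) ^ N)⁻¹ else 1)) *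
        ENNReal.ofReal ((1 + (v i / (R / T)) ^ 2)⁻¹)) := Finset.prod_le_prod' fun i _ => hdec i
    _ = _ := by
      rw [Finset.prod_mul_distrib]
      unfold Ps
      congr 1
      rw [← ENNReal.ofReal_prod_of_nonneg (fun i _ => by split_ifs <;> positivity),
        Finset.prod_mul_distrib, Finset.prod_const, Finset.card_univ, Fintype.card_fin,
        Finset.prod_ite_eq' Finset.univ i0 (fun _ => ((l * T / R) ^ N)⁻¹)]
      simp

end Pool.Agent.Q89.SM
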