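import Pool.Agent.Q89.SM.J
set_option autoImplicit false

/-! Localization: near and far. -/

namespace Pool.Agent.Q89.SM

open MeasureTheory Set Complex Filter Topology
open scoped ENNReal NNReal ComplexConjugate
open Pool.Agent.Y183.LS
open Pool.Agent.Q89.LF (Win wh Aw Aw_rep Aw_rec wh_int wh_cont ga ga_norm)

variable {m : ℕ}

lemma Bf.enorm_le {h : (Fin m → ℝ) → ℂ} {b : ℝ} (H : Bf h 1 b) (x : Fin m → ℝ) : ‖h x‖ₑ ≤ 1 := by
  rw [← ofReal_norm, ← ENNReal.ofReal_one]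
  exact ENNReal.ofReal_le_ofReal (H.bd x)

/-- the far function -/
noncomputable def Fr (ρ : ℝ) (h : (Fin m → ℝ) → ℂ) (z : Fin m → ℝ) : ℝ≥0∞ :=
  ∫⁻ x, ‖h x‖ₑ * Ps ρ (z - x)

lemma Fr_joint {h : (Fin m → ℝ) → ℂ} (hh : Measurable h) (ρ : ℝ) :
    Measurable (fun p : (Fin m → ℝ) × (Fin m → ℝ) => ‖h p.2‖ₑ * Ps ρ (p.1 - p.2)) :=
  (hh.comp measurable_snd).enorm.mul ((Ps_meas ρ).comp (measurable_fst.sub measurable_snd))

lemma Fr_meas {h : (Fin m → ℝ) → ℂ} (hh : Measurable h) (ρ : ℝ) : Measurable (Fr ρ h) :=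
  Measurable.lintegral_prod_right' (Fr_joint hh ρ)

lemma Fr_Lq {h : (Fin m → ℝ) → ℂ} {b : ℝ} (H : Bf h 1 b) (ρ : ℝ) (hρ : 0 < ρ) (q : ℝ) (hq : 1 ≤ q) :
    ∫⁻ z, Fr ρ h z ^ q ≤ (ENNReal.ofReal (Real.pi * ρ) ^ m) ^ q * ∫⁻ x, ‖h x‖ₑ := by
  set P : ℝ≥0∞ := ENNReal.ofReal (Real.pi * ρ) ^ m with hP
  have h1 : ∀ z, Fr ρ h z ≤ P := by
    intro z
    unfold Fr
    calc ∫⁻ x, ‖h x‖ₑ * Ps ρ (z - x) ≤ ∫⁻ x, Ps ρ (z - x) := by
          apply lintegral_mono
          intro x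
          calc ‖h x‖ₑ * Ps ρ (z - x) ≤ 1 * Ps ρ (z - x) := by gcongr; exact H.enorm_le x
            _ = _ := one_mul _
      _ = ∫⁻ v, Ps ρ v := lintegral_sub_left_eq_self (fun v => Ps ρ v) z
      _ = P := Ps_mass ρ hρ
  have h2 : ∫⁻ z, Fr ρ h z = P * ∫⁻ x, ‖h x‖ₑ := by
    unfold Fr
    rw [lintegral_lintegral_swap (Fr_joint H.ms ρ).aemeasurable]
    have h3 : ∀ x, ∫⁻ z, ‖h x‖ₑ * Ps ρ (z - x) = P * ‖h x‖ₑ := by
      intro x
      rw [lintegral_const_mul, sub_lint (Ps ρ) x, Ps_mass ρ hρ, mul_comm]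
      exact (Ps_meas ρ).comp (measurable_id.sub measurable_const)
    simp only [h3]
    rw [lintegral_const_mul _ H.ms.enorm]
  calc ∫⁻ z, Fr ρ h z ^ q ≤ ∫⁻ z, P ^ (q - 1) * Fr ρ h z := by
        apply lintegral_mono
        intro z
        have h3 : Fr ρ h z ^ q = Fr ρ h z ^ (q - 1) * Fr ρ h z := by
          have h4 : q = (q - 1) + 1 := by ring
          conv_lhs => rw [h4]
          rw [ENNReal.rpow_add_of_nonneg _ _ (by linarith) zero_le_one, ENNReal.rpow_one]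
        simp only
        rw [h3]
        gcongr ?_ * _
        exact ENNReal.rpow_le_rpow (h1 z) (by linarith)
    _ = P ^ (q - 1) * (P * ∫⁻ x, ‖h x‖ₑ) := by
        rw [lintegral_const_mul _ (Fr_meas H.ms ρ), h2]
    _ = P ^ q * ∫⁻ x, ‖h x‖ₑ := by
        rw [← mul_assoc]
        congr 1
        have h4 : q = (q - 1) + 1 := by ring
        conv_rhs => rw [h4]
        rw [ENNReal.rpow_add_of_nonneg _ _ (by linarith) zero_le_one, ENNReal.rpow_one]

lemma Bf.Xint {g : (Fin m → ℝ) → ℂ} {M b : ℝ} (H : Bf g M b) (t : ℝ) (y : Fin m → ℝ) :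
    Integrable (fun v => g v * em y t v) := by
  refine H.int.norm.mono' ?_ (ae_of_all _ fun v => ?_)
  · exact (H.ms.mul (Pool.Agent.W771.MD.em_meas y t)).aestronglyMeasurable
  · rw [norm_mul, em_nrm, mul_one]

lemma X_sub {g1 g2 : (Fin m → ℝ) → ℂ} {M1 b1 M2 b2 : ℝ} (H1 : Bf g1 M1 b1) (H2 : Bf g2 M2 b2)
    (t : ℝ) (y : Fin m → ℝ) : X (fun v => g1 v - g2 v) t y = X g1 t y - X g2 t y := by
  unfold X
  rw [← integral_sub (H1.Xint t y) (H2.Xint t y)]
  congr 1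
  ext v
  ring

lemma Bf.cut {h : (Fin m → ℝ) → ℂ} {M b : ℝ} (H : Bf h M b) (hM : 0 ≤ M) (Q : Set (Fin m → ℝ))
    (hQ : MeasurableSet Q) : Bf (Q.indicator h) M b := by
  refine ⟨H.ms.indicator hQ, fun x => ?_, fun x hx => ?_⟩
  · by_cases h1 : x ∈ Q
    · rw [indicator_of_mem h1]
      exact H.bd x
    · rw [indicator_of_notMem h1, norm_zero]
      exact hM
  · by_cases h1 : x ∈ Q
    · rw [indicator_of_mem h1]
      exact H.st x hx
    · rw [indicator_of_notMem h1]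

/-- near and far -/
lemma near_far (R T t l B : ℝ) (hR : 1 ≤ R) (hB0 : 0 ≤ B)
    (hB : ∀ v : Fin m → ℝ, (∃ i, l < |v i|) → Kn R t v ≤ ENNReal.ofReal B * Ps (R / T) v)
    {h : (Fin m → ℝ) → ℂ} {b : ℝ} (H : Bf h 1 b) (a z : Fin m → ℝ) (hz : z ∈ Cu a l) :
    ‖X (Pm R h) t (fun i => -(2 * t * z i))‖ₑ ≤
      ‖X (Pm R ((Cu a (2 * l)).indicator h)) t (fun i => -(2 * t * z i))‖ₑ +
      ENNReal.ofReal B * Fr (R / T) h z := by
  have hR0 : 0 < R := by linarith
  set ha := (Cu a (2 * l)).indicator h with hha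
  have Ha : Bf ha 1 b := H.cut zero_le_one _ (Cu_meas _ _)
  have Hr : Bf (fun x => h x - ha x) 1 b := by
    refine ⟨H.ms.sub Ha.ms, fun x => ?_, fun x hx => by rw [H.st x hx, Ha.st x hx, sub_zero]⟩
    by_cases h1 : x ∈ Cu a (2 * l)
    · rw [hha, indicator_of_mem h1, sub_self, norm_zero]
      exact zero_le_one
    · rw [hha, indicator_of_notMem h1, sub_zero]
      exact H.bd x
  have e1 : Pm R (fun x => h x - ha x) = fun x => Pm R h x - Pm R ha x := by
    ext x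
    exact Pm_sub H Ha R hR0 x
  have e2 : X (Pm R (fun x => h x - ha x)) t (fun i => -(2 * t * z i)) =
      X (Pm R h) t (fun i => -(2 * t * z i)) - X (Pm R ha) t (fun i => -(2 * t * z i)) := by
    rw [e1]
    exact X_sub (Pm_Bf H R hR) (Pm_Bf Ha R hR) t _
  have e3 : X (Pm R h) t (fun i => -(2 * t * z i)) = X (Pm R ha) t (fun i => -(2 * t * z i)) +
      X (Pm R (fun x => h x - ha x)) t (fun i => -(2 * t * z i)) := by
    rw [e2]
    ring
  rw [e3]
  refine (enorm_add_le _ _).trans ?_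
  gcongr
  refine (X_le Hr R t hR0 z).trans ?_
  unfold Fr
  have hmz : Measurable (fun x => ‖h x‖ₑ * Ps (R / T) (z - x)) := (Fr_joint H.ms (R / T)).comp
    (measurable_const.prodMk measurable_id : Measurable fun x : Fin m → ℝ => (z, x))
  rw [← lintegral_const_mul _ hmz]
  apply lintegral_mono
  intro x
  simp only
  by_cases h1 : x ∈ Cu a (2 * l)
  · rw [hha, indicator_of_mem h1, sub_self, enorm_zero, zero_mul]
    exact zero_le
  · rw [hha, indicator_of_notMem h1, sub_zero]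
    have h2 : ∃ i, l < |(fun i => z i - x i) i| := by
      unfold Cu at h1 hz
      simp only [mem_ofPred_eq, not_forall, not_le] at h1 hz
      obtain ⟨i, hi⟩ := h1
      refine ⟨i, ?_⟩
      simp only
      have h3 := hz i
      have h4 : |x i - a i| ≤ |z i - x i| + |z i - a i| := by
        have e5 : x i - a i = (z i - a i) - (z i - x i) := by ring
        rw [e5, add_comm]
        exact abs_sub _ _
      linarith
    calc ‖h x‖ₑ * Kn R t (fun i => z i - x i) ≤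
        ‖h x‖ₑ * (ENNReal.ofReal B * Ps (R / T) (fun i => z i - x i)) := by
          gcongr
          exact hB _ h2
      _ = ENNReal.ofReal B * (‖h x‖ₑ * Ps (R / T) (z - x)) := by
          rw [mul_left_comm]
          rfl

end Pool.Agent.Q89.SM
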