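import Pool.Agent.Q89.SM.K
set_option autoImplicit false

/-! Localization: the estimate of a block by cells. -/

namespace Pool.Agent.Q89.SM

open MeasureTheory Set Complex Filter Topology
open scoped ENNReal NNReal ComplexConjugate
open Pool.Agent.Y183.LS
open Pool.Agent.Q89.LF (Win wh Aw Aw_rep Aw_rec wh_int wh_cont ga ga_norm)

variable {m : ℕ}

/-- the rescaled point -/
noncomputable def zf (p : ℝ × (Fin m → ℝ)) : Fin m → ℝ := fun i => -(p.2 i / (2 * p.1))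

lemma zf_meas : Measurable (zf (m := m)) := by
  unfold zf
  fun_prop

lemma zf_back (t : ℝ) (ht : t ≠ 0) (y : Fin m → ℝ) : y = fun i => -(2 * t * zf (t, y) i) := by
  ext i
  unfold zf
  field_simp

lemma zf_smul (t : ℝ) (ht : t ≠ 0) (z : Fin m → ℝ) : zf (t, (-(2 * t)) • z) = z := by
  ext i
  unfold zf
  simp only [Pi.smul_apply, smul_eq_mul]
  field_simp

/-- the indicator of the cells -/
noncomputable def cI (l : ℝ) (w : (Fin m → ℝ) × (ℝ × (Fin m → ℝ))) : ℝ≥0∞ :=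
  {w : (Fin m → ℝ) × (ℝ × (Fin m → ℝ)) | zf w.2 ∈ Cu w.1 l}.indicator (fun _ => 1) w

lemma cI_set (l : ℝ) : MeasurableSet {w : (Fin m → ℝ) × (ℝ × (Fin m → ℝ)) | zf w.2 ∈ Cu w.1 l} :=
  (measurable_fst.prodMk (zf_meas.comp measurable_snd) :
    Measurable fun w : (Fin m → ℝ) × (ℝ × (Fin m → ℝ)) => (w.1, zf w.2)) (Cu_joint l)

lemma cI_meas (l : ℝ) : Measurable (cI (m := m) l) := measurable_const.indicator (cI_set l)

lemma cI_int (l : ℝ) (p : ℝ × (Fin m → ℝ)) :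
    ∫⁻ a : Fin m → ℝ, cI l (a, p) = ENNReal.ofReal (2 * l) ^ m := by
  have h1 : ∀ a : Fin m → ℝ, cI l (a, p) = (Cu (zf p) l).indicator (fun _ => 1) a := by
    intro a
    unfold cI
    by_cases h : zf p ∈ Cu a l
    · rw [indicator_of_mem (by exact h), indicator_of_mem ((Cu_comm _ _ _).mp h)]
    · rw [indicator_of_notMem (by exact h),
        indicator_of_notMem (fun h2 => h ((Cu_comm _ _ _).mp h2))]
  simp only [h1]
  rw [lintegral_indicator (Cu_meas _ _), lintegral_one, Measure.restrict_apply_univ, Cu_vol]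

lemma cut_joint (l : ℝ) {h : (Fin m → ℝ) → ℂ} (hh : Measurable h) :
    Measurable (fun w : (Fin m → ℝ) × (Fin m → ℝ) => ‖(Cu w.1 l).indicator h w.2‖ₑ ^ 2) := by
  have h2 : (fun w : (Fin m → ℝ) × (Fin m → ℝ) => ‖(Cu w.1 l).indicator h w.2‖ₑ ^ 2) =
      {w : (Fin m → ℝ) × (Fin m → ℝ) | w.2 ∈ Cu w.1 l}.indicator (fun w => ‖h w.2‖ₑ ^ 2) := by
    ext w
    by_cases h3 : w.2 ∈ Cu w.1 l
    · rw [indicator_of_mem h3, indicator_of_mem (by exact h3)]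
    · rw [indicator_of_notMem h3, indicator_of_notMem (by exact h3), enorm_zero]
      simp
  rw [h2]
  exact ((hh.comp measurable_snd).enorm.pow_const 2).indicator (Cu_joint l)

lemma cut_int (l : ℝ) {h : (Fin m → ℝ) → ℂ} (hh : Measurable h) :
    ∫⁻ a : Fin m → ℝ, ∫⁻ x, ‖(Cu a l).indicator h x‖ₑ ^ 2 =
      ENNReal.ofReal (2 * l) ^ m * ∫⁻ x, ‖h x‖ₑ ^ 2 := by
  have h1 : ∀ a x : Fin m → ℝ, ‖(Cu a l).indicator h x‖ₑ ^ 2 =
      (Cu x l).indicator (fun _ => ‖h x‖ₑ ^ 2) a := by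
    intro a x
    by_cases h2 : x ∈ Cu a l
    · rw [indicator_of_mem h2, indicator_of_mem ((Cu_comm _ _ _).mp h2)]
    · rw [indicator_of_notMem h2, indicator_of_notMem (fun h3 => h2 ((Cu_comm _ _ _).mp h3)),
        enorm_zero]
      simp
  rw [lintegral_lintegral_swap (cut_joint l hh).aemeasurable]
  simp only [h1]
  have h3 : ∀ x : Fin m → ℝ, ∫⁻ a, (Cu x l).indicator (fun _ => ‖h x‖ₑ ^ 2) a =
      ENNReal.ofReal (2 * l) ^ m * ‖h x‖ₑ ^ 2 := by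
    intro x
    rw [lintegral_indicator (Cu_meas _ _), lintegral_const, Measure.restrict_apply_univ, Cu_vol,
      mul_comm]
  simp only [h3]
  rw [lintegral_const_mul _ (hh.enorm.pow_const 2)]

lemma near_part (hm : 1 ≤ m) (q : ℝ) (hq : 2 < q) (hq0 : q < 2 + 4 / (m : ℝ)) (R T l : ℝ)
    (hR : 1 ≤ R) (hT : 0 < T) (hl : 0 < l) {h : (Fin m → ℝ) → ℂ} {b : ℝ} (hb : 0 ≤ b)
    (H : Bf h 1 b) (a : Fin m → ℝ) :
    ∫⁻ t in JT T, ∫⁻ y, ‖X (Pm R ((Cu a (2 * l)).indicator h)) t y‖ₑ ^ q ≤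
      ENNReal.ofReal (Cb m q * T ^ (1 - m * (q - 2) / 4)) * ((ENNReal.ofReal (4 * l) ^ m) ^ (q / 2 - 1)
        * ∫⁻ x, ‖(Cu a (2 * l)).indicator h x‖ₑ ^ 2) := by
  have hR0 : 0 < R := by linarith
  set ha := (Cu a (2 * l)).indicator h with hha
  have Ha : Bf ha 1 b := H.cut zero_le_one _ (Cu_meas _ _)
  have Hp := Pm_Bf Ha R hR
  have h1 : ∫⁻ x, ‖ha x‖ₑ ^ 2 ≤ ENNReal.ofReal (4 * l) ^ m := by
    calc ∫⁻ x, ‖ha x‖ₑ ^ 2 ≤ ∫⁻ x, (Cu a (2 * l)).indicator (fun _ => 1) x := by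
          apply lintegral_mono
          intro x
          by_cases h2 : x ∈ Cu a (2 * l)
          · simp only
            rw [indicator_of_mem h2]
            exact pow_le_one' (Ha.enorm_le x) 2
          · simp only
            rw [hha, indicator_of_notMem h2, indicator_of_notMem h2, enorm_zero]
            simp
      _ = ENNReal.ofReal (4 * l) ^ m := by
          rw [lintegral_indicator (Cu_meas _ _), lintegral_one, Measure.restrict_apply_univ, Cu_vol]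
          congr 2
          ring
  have h2 : ∫⁻ x, ‖Pm R ha x‖ₑ ^ 2 ≤ ∫⁻ x, ‖ha x‖ₑ ^ 2 := Pm_L2 Ha.ms R hR0
  have hfin : ∫⁻ x, ‖ha x‖ₑ ^ 2 ≠ ∞ := ne_top_of_le_ne_top (ENNReal.pow_ne_top ENNReal.ofReal_ne_top) h1
  refine (block' hm q hq hq0 _ Hp.ms (b + 1) (by linarith) Hp.st
    (ne_top_of_le_ne_top hfin h2) T hT).trans ?_
  gcongr
  calc (∫⁻ v, ‖Pm R ha v‖ₑ ^ 2) ^ (q / 2) ≤ (∫⁻ x, ‖ha x‖ₑ ^ 2) ^ (q / 2) :=
        ENNReal.rpow_le_rpow h2 (by linarith)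
    _ = (∫⁻ x, ‖ha x‖ₑ ^ 2) ^ (q / 2 - 1) * ∫⁻ x, ‖ha x‖ₑ ^ 2 := by
        have h4 : q / 2 = (q / 2 - 1) + 1 := by ring
        conv_lhs => rw [h4]
        rw [ENNReal.rpow_add_of_nonneg _ _ (by linarith) zero_le_one, ENNReal.rpow_one]
    _ ≤ _ := by
        gcongr ?_ * _
        exact ENNReal.rpow_le_rpow h1 (by linarith)

lemma far_part (q : ℝ) (hq : 1 ≤ q) (R T : ℝ) (hR : 1 ≤ R) (hT : 0 < T) (B : ℝ≥0∞)
    {h : (Fin m → ℝ) → ℂ} {b : ℝ} (H : Bf h 1 b) :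
    ∫⁻ t in JT T, ∫⁻ y, (B * Fr (R / T) h (zf (t, y))) ^ q ≤
      ENNReal.ofReal (4 * T) * (ENNReal.ofReal (4 * T) ^ m * (B ^ q *
        ((ENNReal.ofReal (Real.pi * (R / T)) ^ m) ^ q * ∫⁻ x, ‖h x‖ₑ))) := by
  have hR0 : 0 < R := by linarith
  have hG : Measurable (fun z : Fin m → ℝ => (B * Fr (R / T) h z) ^ q) :=
    ((Fr_meas H.ms _).const_mul _).pow_const q
  have h1 : ∀ t ∈ JT T, ∫⁻ y, (B * Fr (R / T) h (zf (t, y))) ^ q ≤
      ENNReal.ofReal (4 * T) ^ m * (B ^ q *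
        ((ENNReal.ofReal (Real.pi * (R / T)) ^ m) ^ q * ∫⁻ x, ‖h x‖ₑ)) := by
    intro t ht
    have ht0 : t ≠ 0 := by
      intro hc
      have := ht.1
      rw [hc, abs_zero] at this
      linarith
    have h2 := lint_smul (-(2 * t)) (by simpa using ht0)
      (fun y => (B * Fr (R / T) h (zf (t, y))) ^ q)
      (hG.comp (zf_meas.comp (measurable_const.prodMk measurable_id)))
    simp only [zf_smul t ht0] at h2
    rw [← h2]
    gcongr ?_ * ?_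
    · rw [← ENNReal.ofReal_pow (by positivity)]
      apply ENNReal.ofReal_le_ofReal
      gcongr
      rw [abs_neg, abs_mul, abs_two]
      linarith [ht.2]
    · calc ∫⁻ z, (B * Fr (R / T) h z) ^ q = ∫⁻ z, B ^ q * Fr (R / T) h z ^ q := by
            congr 1
            ext z
            rw [ENNReal.mul_rpow_of_nonneg _ _ (by linarith)]
        _ = B ^ q * ∫⁻ z, Fr (R / T) h z ^ q := by
            rw [lintegral_const_mul _ ((Fr_meas H.ms _).pow_const q)]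
        _ ≤ _ := by
            gcongr
            exact Fr_Lq H (R / T) (by positivity) q hq
  refine (setLIntegral_mono' (JT_meas T) h1).trans ?_
  rw [lintegral_const, Measure.restrict_apply_univ, mul_comm]
  gcongr
  exact JT_vol T hT

/-- **the estimate by cells** -/
theorem cells (hm : 1 ≤ m) (q : ℝ) (hq : 2 < q) (hq0 : q < 2 + 4 / (m : ℝ)) (R T l B : ℝ)
    (hR : 1 ≤ R) (hT : 0 < T) (hl : 0 < l) (hB0 : 0 ≤ B)
    (hB : ∀ t, T ≤ |t| → |t| < 2 * T → ∀ v : Fin m → ℝ, (∃ i, l < |v i|) →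
      Kn R t v ≤ ENNReal.ofReal B * Ps (R / T) v)
    {h : (Fin m → ℝ) → ℂ} {b : ℝ} (hb : 0 ≤ b) (H : Bf h 1 b) :
    ∫⁻ t in JT T, ∫⁻ y, ‖X (Pm R h) t y‖ₑ ^ q ≤
      2 ^ (q - 1) * (ENNReal.ofReal (Cb m q * T ^ (1 - m * (q - 2) / 4)) *
        ((ENNReal.ofReal (4 * l) ^ m) ^ (q / 2 - 1) * (2 ^ m * ∫⁻ x, ‖h x‖ₑ ^ 2)) +
      ENNReal.ofReal (4 * T) * (ENNReal.ofReal (4 * T) ^ m * (ENNReal.ofReal B ^ q *
        ((ENNReal.ofReal (Real.pi * (R / T)) ^ m) ^ q * ∫⁻ x, ‖h x‖ₑ)))) := by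
  have hR0 : 0 < R := by linarith
  have hPb := Pm_Bf H R hR
  set S : ℝ≥0∞ := ∫⁻ x, ‖h x‖ₑ with hS
  set S2 : ℝ≥0∞ := ∫⁻ x, ‖h x‖ₑ ^ 2 with hS2
  set c2 : ℝ≥0∞ := ENNReal.ofReal (2 * l) ^ m with hc2
  have hc20 : c2 ≠ 0 := by
    rw [hc2]
    apply pow_ne_zero
    rw [Ne, ENNReal.ofReal_eq_zero]
    linarith
  have hc2t : c2 ≠ ∞ := ENNReal.pow_ne_top ENNReal.ofReal_ne_top
  set K1 : ℝ≥0∞ := ENNReal.ofReal (Cb m q * T ^ (1 - m * (q - 2) / 4)) with hK1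
  set K2 : ℝ≥0∞ := (ENNReal.ofReal (4 * l) ^ m) ^ (q / 2 - 1) with hK2
  set Fa : ℝ≥0∞ := ENNReal.ofReal (4 * T) * (ENNReal.ofReal (4 * T) ^ m * (ENNReal.ofReal B ^ q *
        ((ENNReal.ofReal (Real.pi * (R / T)) ^ m) ^ q * S))) with hFa
  set μ : Measure (ℝ × (Fin m → ℝ)) := (volume.restrict (JT T)).prod volume with hμ
  have hμe : μ = (volume : Measure (ℝ × (Fin m → ℝ))).restrict (JT T ×ˢ univ) := by
    rw [Measure.volume_eq_prod, ← Measure.prod_restrict, Measure.restrict_univ]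
  set Φ : ℝ × (Fin m → ℝ) → ℝ≥0∞ := fun p => ‖X (Pm R h) p.1 p.2‖ₑ ^ q with hΦ
  have hΦm : Measurable Φ := (X_meas _ hPb.ms).enorm.pow_const q
  have e0 : ∫⁻ t in JT T, ∫⁻ y, ‖X (Pm R h) t y‖ₑ ^ q = ∫⁻ p, Φ p ∂μ := by
    rw [hμ, lintegral_prod _ hΦm.aemeasurable]
  have hcm : ∀ a : Fin m → ℝ, Measurable (fun p : ℝ × (Fin m → ℝ) => cI l (a, p)) := fun a =>
    (cI_meas l).comp (measurable_const.prodMk measurable_id)
  have hcm' : ∀ p : ℝ × (Fin m → ℝ), Measurable (fun a : Fin m → ℝ => cI l (a, p)) := fun p =>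
    (cI_meas l).comp (measurable_id.prodMk measurable_const)
  have hswap : ∀ G : ℝ × (Fin m → ℝ) → ℝ≥0∞, Measurable G →
      c2 * ∫⁻ p, G p ∂μ = ∫⁻ a : Fin m → ℝ, ∫⁻ p, cI l (a, p) * G p ∂μ := by
    intro G hG
    rw [lintegral_lintegral_swap]
    · rw [← lintegral_const_mul _ hG]
      congr 1
      ext p
      rw [lintegral_mul_const _ (hcm' p), cI_int]
    · exact ((cI_meas l).mul (hG.comp measurable_snd)).aemeasurable
  set G2 : ℝ × (Fin m → ℝ) → ℝ≥0∞ := fun p => (ENNReal.ofReal B * Fr (R / T) h (zf p)) ^ q with hG2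
  have hG2m : Measurable G2 :=
    (((Fr_meas H.ms _).comp zf_meas).const_mul _).pow_const q
  have hstep : ∀ a : Fin m → ℝ, ∫⁻ p, cI l (a, p) * Φ p ∂μ ≤
      2 ^ (q - 1) * (K1 * (K2 * ∫⁻ x, ‖(Cu a (2 * l)).indicator h x‖ₑ ^ 2) +
        ∫⁻ p, cI l (a, p) * G2 p ∂μ) := by
    intro a
    have Ha : Bf ((Cu a (2 * l)).indicator h) 1 b := H.cut zero_le_one _ (Cu_meas _ _)
    have Hpa := Pm_Bf Ha R hR
    set U : ℝ × (Fin m → ℝ) → ℝ≥0∞ :=
      fun p => ‖X (Pm R ((Cu a (2 * l)).indicator h)) p.1 p.2‖ₑ ^ q with hU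
    have hUm : Measurable U := (X_meas _ Hpa.ms).enorm.pow_const q
    have hUi : ∫⁻ p, U p ∂μ ≤ K1 * (K2 * ∫⁻ x, ‖(Cu a (2 * l)).indicator h x‖ₑ ^ 2) := by
      rw [hμ, lintegral_prod _ hUm.aemeasurable]
      exact near_part hm q hq hq0 R T l hR hT hl hb H a
    have hpt : ∀ p ∈ JT T ×ˢ (univ : Set (Fin m → ℝ)), cI l (a, p) * Φ p ≤
        2 ^ (q - 1) * (U p + cI l (a, p) * G2 p) := by
      intro p hp
      have ht : p.1 ∈ JT T := hp.1
      have ht0 : p.1 ≠ 0 := by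
        intro hc
        have := ht.1
        rw [hc, abs_zero] at this
        linarith
      unfold cI
      by_cases hz : zf p ∈ Cu a l
      · rw [indicator_of_mem (by exact hz), one_mul, one_mul]
        have h1 := near_far R T p.1 l B hR hB0 (hB p.1 ht.1 ht.2) H a (zf p) hz
        have h2 := zf_back p.1 ht0 p.2
        rw [← h2] at h1
        calc Φ p ≤ (‖X (Pm R ((Cu a (2 * l)).indicator h)) p.1 p.2‖ₑ +
              ENNReal.ofReal B * Fr (R / T) h (zf p)) ^ q := ENNReal.rpow_le_rpow h1 (by linarith)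
          _ ≤ 2 ^ (q - 1) * (U p + G2 p) :=
              ENNReal.rpow_add_le_mul_rpow_add_rpow _ _ (by linarith)
      · rw [indicator_of_notMem (by exact hz), zero_mul]
        exact zero_le
    calc ∫⁻ p, cI l (a, p) * Φ p ∂μ ≤ ∫⁻ p, 2 ^ (q - 1) * (U p + cI l (a, p) * G2 p) ∂μ := by
          rw [hμe]
          exact setLIntegral_mono' ((JT_meas T).prod MeasurableSet.univ) hpt
      _ = 2 ^ (q - 1) * (∫⁻ p, U p ∂μ + ∫⁻ p, cI l (a, p) * G2 p ∂μ) := by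
          rw [lintegral_const_mul, lintegral_add_left hUm]
          exact hUm.add ((hcm a).mul hG2m)
      _ ≤ _ := by gcongr
  have hmain : c2 * ∫⁻ p, Φ p ∂μ ≤ c2 * (2 ^ (q - 1) * (K1 * (K2 * (2 ^ m * S2)) + Fa)) := by
    rw [hswap Φ hΦm]
    refine (lintegral_mono hstep).trans ?_
    have hmc : Measurable (fun a : Fin m → ℝ => ∫⁻ x, ‖(Cu a (2 * l)).indicator h x‖ₑ ^ 2) :=
      Measurable.lintegral_prod_right' (cut_joint (2 * l) H.ms)
    have hmg : Measurable (fun a : Fin m → ℝ => ∫⁻ p, cI l (a, p) * G2 p ∂μ) :=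
      Measurable.lintegral_prod_right' (f := fun w : (Fin m → ℝ) × (ℝ × (Fin m → ℝ)) =>
        cI l w * G2 w.2) ((cI_meas l).mul (hG2m.comp measurable_snd))
    have hms : Measurable (fun a : Fin m → ℝ =>
        K1 * (K2 * ∫⁻ x, ‖(Cu a (2 * l)).indicator h x‖ₑ ^ 2) + ∫⁻ p, cI l (a, p) * G2 p ∂μ) :=
      ((hmc.const_mul _).const_mul _).add hmg
    rw [lintegral_const_mul _ hms, lintegral_add_right _ hmg, lintegral_const_mul _ (hmc.const_mul _),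
      lintegral_const_mul _ hmc, cut_int _ H.ms, ← hswap G2 hG2m]
    have hfar : ∫⁻ p, G2 p ∂μ ≤ Fa := by
      rw [hμ, lintegral_prod _ hG2m.aemeasurable]
      exact far_part q (by linarith) R T hR hT (ENNReal.ofReal B) H
    have h4l : ENNReal.ofReal (2 * (2 * l)) ^ m = c2 * 2 ^ m := by
      rw [ENNReal.ofReal_mul (by norm_num), mul_pow, mul_comm, hc2]
      congr 2
      norm_num
    rw [h4l]
    calc 2 ^ (q - 1) * (K1 * (K2 * (c2 * 2 ^ m * S2)) + c2 * ∫⁻ p, G2 p ∂μ) ≤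
        2 ^ (q - 1) * (K1 * (K2 * (c2 * 2 ^ m * S2)) + c2 * Fa) := by gcongr
      _ = _ := by ring
  rw [e0]
  exact (ENNReal.mul_le_mul_iff_right hc20 hc2t).mp hmain

end Pool.Agent.Q89.SM
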