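import Pool.Agent.Q89.SM.L
set_option autoImplicit false

/-! One scale: the blocks of times. -/

namespace Pool.Agent.Q89.SM

open MeasureTheory Set Complex Filter Topology
open scoped ENNReal NNReal ComplexConjugate
open Pool.Agent.Y183.LS
open Pool.Agent.Q89.LF (Win wh Aw Aw_rep Aw_rec wh_int wh_cont ga ga_norm)

variable {m : ℕ}

lemma Bf.L2 {h : (Fin m → ℝ) → ℂ} {b : ℝ} (H : Bf h 1 b) : ∫⁻ x, ‖h x‖ₑ ^ 2 ≤ ∫⁻ x, ‖h x‖ₑ := by
  apply lintegral_mono
  intro x
  calc ‖h x‖ₑ ^ 2 = ‖h x‖ₑ * ‖h x‖ₑ := sq _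
    _ ≤ 1 * ‖h x‖ₑ := by gcongr; exact H.enorm_le x
    _ = _ := one_mul _

/-- first range of times -/
lemma caseA (hm : 1 ≤ m) (q : ℝ) (hq : 2 + 2 / (m : ℝ) < q) (hq0 : q < 2 + 4 / (m : ℝ)) (s : ℝ)
    (hs0 : 0 < s) (R T : ℝ) (hR : 1 ≤ R) (hT : 1 ≤ T) (hTR : T ≤ R ^ (1 + s / m))
    {h : (Fin m → ℝ) → ℂ} {b : ℝ} (hb : 0 ≤ b) (H : Bf h 1 b)
    (hS : ∫⁻ x, ‖h x‖ₑ ^ 2 ≤ ENNReal.ofReal (R ^ (-s))) :
    ∫⁻ t in JT T, ∫⁻ y, ‖X (Pm R h) t y‖ₑ ^ q ≤
      ENNReal.ofReal (Cb m q * R ^ (-(s + s / (2 * m) - 1 / 2))) := by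
  have hR0 : 0 < R := by linarith
  have hT0 : 0 < T := by linarith
  have hm0 : (0 : ℝ) < m := by exact_mod_cast hm
  have hm2 : 0 < 2 / (m : ℝ) := by positivity
  have Hp := Pm_Bf H R hR
  have h2 : ∫⁻ x, ‖Pm R h x‖ₑ ^ 2 ≤ ENNReal.ofReal (R ^ (-s)) :=
    (Pm_L2 H.ms R hR0).trans hS
  have hC : 0 < Cb m q := by
    have hK := Kc_pos q (2 + 4 / (m : ℝ)) hq0
    have hC := Cw_pos m
    unfold Cb
    positivity
  refine (block' hm q (by linarith) hq0 _ Hp.ms (b + 1) (by linarith) Hp.st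
    (ne_top_of_le_ne_top ENNReal.ofReal_ne_top h2) T hT0).trans ?_
  calc ENNReal.ofReal (Cb m q * T ^ (1 - m * (q - 2) / 4)) * (∫⁻ v, ‖Pm R h v‖ₑ ^ 2) ^ (q / 2) ≤
      ENNReal.ofReal (Cb m q * T ^ (1 - m * (q - 2) / 4)) *
        (ENNReal.ofReal (R ^ (-s))) ^ (q / 2) := by
        gcongr _ * ?_
        exact ENNReal.rpow_le_rpow h2 (by linarith)
    _ ≤ _ := by
        rw [ENNReal.ofReal_rpow_of_pos (by positivity), ← ENNReal.ofReal_mul (by positivity)]
        apply ENNReal.ofReal_le_ofReal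
        rw [mul_assoc]
        gcongr
        have h3 : m * (q - 2) / 4 > 1 / 2 := by
          have : 2 / (m : ℝ) < q - 2 := by linarith
          rw [div_lt_iff₀ hm0] at this
          linarith
        have h4 : T ^ (1 - m * (q - 2) / 4) ≤ R ^ ((1 + s / m) / 2) := by
          calc T ^ (1 - m * (q - 2) / 4) ≤ T ^ (1 / 2 : ℝ) :=
                Real.rpow_le_rpow_of_exponent_le hT (by linarith)
            _ ≤ (R ^ (1 + s / m)) ^ (1 / 2 : ℝ) := Real.rpow_le_rpow hT0.le hTR (by norm_num)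
            _ = R ^ ((1 + s / m) / 2) := by
                rw [← Real.rpow_mul hR0.le]
                congr 1
                ring
        have h5 : (R ^ (-s)) ^ (q / 2) ≤ R ^ (-(s * (1 + 1 / m))) := by
          rw [← Real.rpow_mul hR0.le]
          apply Real.rpow_le_rpow_of_exponent_le hR
          have h6 : 1 + 1 / (m : ℝ) ≤ q / 2 := by
            have : 2 / (m : ℝ) = 2 * (1 / m) := by ring
            linarith
          nlinarith
        calc T ^ (1 - m * (q - 2) / 4) * (R ^ (-s)) ^ (q / 2) ≤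
            R ^ ((1 + s / m) / 2) * R ^ (-(s * (1 + 1 / m))) := by gcongr
          _ = R ^ (-(s + s / (2 * m) - 1 / 2)) := by
              rw [← Real.rpow_add hR0]
              congr 1
              field_simp
              ring

/-- second range of times -/
lemma caseB (hm : 1 ≤ m) (q : ℝ) (hq : 2 + 2 / (m : ℝ) < q) (hq0 : q < 2 + 4 / (m : ℝ)) (s : ℝ)
    (hs0 : 0 < s) (ε : ℝ) (hε : 0 < ε) (hεs : ε ≤ s / m) (D0 : ℝ) (hD0 : 0 < D0) : ∃ C : ℝ, 0 < C ∧
    ∀ (R T : ℝ), 1 ≤ R → 1 ≤ T → R ^ (1 + s / m) ≤ T → 2 * T ≤ R ^ 2 →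
    ∀ {h : (Fin m → ℝ) → ℂ} {b : ℝ}, 0 ≤ b → Bf h 1 b →
    ∫⁻ x, ‖h x‖ₑ ^ 2 ≤ ENNReal.ofReal (R ^ (-s)) → ∫⁻ x, ‖h x‖ₑ ≤ ENNReal.ofReal D0 →
    ∫⁻ t in JT T, ∫⁻ y, ‖X (Pm R h) t y‖ₑ ^ q ≤
      ENNReal.ofReal (C * (R ^ (-(s + s / (2 * m) - 1 / 2) + ε) + R⁻¹)) := by
  have hm0 : (0 : ℝ) < m := by exact_mod_cast hm
  have hm2 : 0 < 2 / (m : ℝ) := by positivity
  have hq2 : 2 < q := by linarith
  obtain ⟨N, hN⟩ := exists_nat_ge ((2 * (m : ℝ) + 3) / (ε * q))
  have hN' : 2 * (m : ℝ) + 3 ≤ ε * N * q := by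
    rw [div_le_iff₀ (by positivity)] at hN
    linarith
  obtain ⟨C1, hC1, HK⟩ := Kn_far (m := m) N
  have hC1' : 0 < C1 := by linarith
  have hCb : 0 < Cb m q := by
    have hK := Kc_pos q (2 + 4 / (m : ℝ)) hq0
    have hC := Cw_pos m
    unfold Cb
    positivity
  set θ : ℝ := m * (q - 2) / 4 with hθ
  have hθ1 : 1 / 2 < θ := by
    have : 2 / (m : ℝ) < q - 2 := by linarith
    rw [div_lt_iff₀ hm0] at this
    rw [hθ]
    linarith
  set A1 : ℝ := 2 ^ (q - 1) * (Cb m q * (4 ^ (2 * θ) * 2 ^ m)) with hA1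
  set A2 : ℝ := 2 ^ (q - 1) * (4 * 4 ^ m * (C1 ^ m) ^ q * (Real.pi ^ m) ^ q) * D0 with hA2
  have hA10 : 0 < A1 := by positivity
  have hA20 : 0 < A2 := by positivity
  refine ⟨A1 + A2, by positivity, ?_⟩
  intro R T hR hT hRT hTR h b hb H hS hS1
  have hR0 : 0 < R := by linarith
  have hT0 : 0 < T := by linarith
  set l : ℝ := R ^ (1 + ε) / T with hl
  have hl0 : 0 < l := by positivity
  have hlTR : l * T / R = R ^ ε := by
    rw [hl, div_mul_cancel₀ _ hT0.ne', Real.rpow_add hR0, Real.rpow_one]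
    field_simp
  have hl1 : l ≤ 1 := by
    rw [hl, div_le_one hT0]
    refine le_trans ?_ hRT
    exact Real.rpow_le_rpow_of_exponent_le hR (by linarith)
  have hRT' : R ≤ T := by
    refine le_trans ?_ hRT
    calc R = R ^ (1 : ℝ) := (Real.rpow_one R).symm
      _ ≤ R ^ (1 + s / m) := Real.rpow_le_rpow_of_exponent_le hR (by
          have : 0 < s / m := by positivity
          linarith)
  set B : ℝ := C1 ^ m * ((R ^ ε) ^ N)⁻¹ with hB
  have hB0 : 0 < B := by positivity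
  have hc := cells hm q hq2 hq0 R T l B hR hT0 hl0 hB0.le (by
    intro t ht1 ht2 v hv
    have := HK R T t l hR0 hT0 ht1 (by linarith) hl0 v hv
    rwa [hlTR] at this) hb H
  refine hc.trans ?_
  set S : ℝ≥0∞ := ∫⁻ x, ‖h x‖ₑ with hSd
  set S2 : ℝ≥0∞ := ∫⁻ x, ‖h x‖ₑ ^ 2 with hS2d
  have e2 : (2 : ℝ≥0∞) ^ (q - 1) = ENNReal.ofReal (2 ^ (q - 1)) := by
    rw [← ENNReal.ofReal_rpow_of_pos two_pos]
    norm_num
  have e3 : (2 : ℝ≥0∞) ^ m = ENNReal.ofReal (2 ^ m) := by
    rw [ENNReal.ofReal_pow (by norm_num)]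
    norm_num
  have hnear : 2 ^ (q - 1) * (ENNReal.ofReal (Cb m q * T ^ (1 - θ)) *
      ((ENNReal.ofReal (4 * l) ^ m) ^ (q / 2 - 1) * (2 ^ m * S2))) ≤
      ENNReal.ofReal (A1 * R ^ (-(s + s / (2 * m) - 1 / 2) + ε)) := by
    calc 2 ^ (q - 1) * (ENNReal.ofReal (Cb m q * T ^ (1 - θ)) *
      ((ENNReal.ofReal (4 * l) ^ m) ^ (q / 2 - 1) * (2 ^ m * S2))) ≤
        2 ^ (q - 1) * (ENNReal.ofReal (Cb m q * T ^ (1 - θ)) *
      ((ENNReal.ofReal (4 * l) ^ m) ^ (q / 2 - 1) * (2 ^ m * ENNReal.ofReal (R ^ (-s))))) := by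
          gcongr
      _ = ENNReal.ofReal (2 ^ (q - 1) * (Cb m q * T ^ (1 - θ) *
          ((4 * l) ^ (2 * θ) * (2 ^ m * R ^ (-s))))) := by
          rw [e2, e3, ← ENNReal.ofReal_pow (by positivity), ENNReal.ofReal_rpow_of_pos (by positivity),
            ← ENNReal.ofReal_mul (by positivity), ← ENNReal.ofReal_mul (by positivity),
            ← ENNReal.ofReal_mul (by positivity), ← ENNReal.ofReal_mul (by positivity)]
          have e6 : ((4 * l) ^ m) ^ (q / 2 - 1) = (4 * l) ^ (2 * θ) := by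
            rw [← Real.rpow_natCast, ← Real.rpow_mul (by positivity)]
            congr 1
            rw [hθ]
            ring
          rw [e6]
      _ ≤ _ := by
          apply ENNReal.ofReal_le_ofReal
          have h1 : (4 * l) ^ (2 * θ) ≤ 4 ^ (2 * θ) * l := by
            rw [Real.mul_rpow (by norm_num) hl0.le]
            gcongr
            calc l ^ (2 * θ) ≤ l ^ (1 : ℝ) :=
                  Real.rpow_le_rpow_of_exponent_ge hl0 hl1 (by linarith)
              _ = l := Real.rpow_one l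
          have h2 : T ^ (1 - θ) ≤ T ^ (1 / 2 : ℝ) :=
            Real.rpow_le_rpow_of_exponent_le hT (by linarith)
          have h3 : T ^ (1 / 2 : ℝ) * l ≤ R ^ (1 + ε - (1 + s / m) / 2) := by
            have e4 : T ^ (1 / 2 : ℝ) * l = R ^ (1 + ε) * T ^ (-(1 / 2) : ℝ) := by
              have e5 : T ^ (1 / 2 : ℝ) / T = T ^ (-(1 / 2) : ℝ) := by
                conv_lhs => rw [← Real.rpow_one T]
                rw [Real.rpow_one, ← Real.rpow_sub_one hT0.ne']
                norm_num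
              rw [hl, mul_div_assoc', mul_comm (T ^ (1 / 2 : ℝ)), mul_div_assoc, e5]
            have e7 : R ^ (1 + ε - (1 + s / m) / 2) =
                R ^ (1 + ε) * R ^ (-((1 + s / m) / 2)) := by
              rw [← Real.rpow_add hR0]
              congr 1
            rw [e4, e7]
            gcongr
            calc T ^ (-(1 / 2) : ℝ) ≤ (R ^ (1 + s / m)) ^ (-(1 / 2) : ℝ) :=
                  Real.rpow_le_rpow_of_nonpos (by positivity) hRT (by norm_num)
              _ = R ^ (-((1 + s / m) / 2)) := by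
                  rw [← Real.rpow_mul hR0.le]
                  congr 1
                  ring
          calc 2 ^ (q - 1) * (Cb m q * T ^ (1 - θ) * ((4 * l) ^ (2 * θ) * (2 ^ m * R ^ (-s)))) ≤
              2 ^ (q - 1) * (Cb m q * T ^ (1 / 2 : ℝ) * (4 ^ (2 * θ) * l * (2 ^ m * R ^ (-s)))) := by
                gcongr
            _ = A1 * ((T ^ (1 / 2 : ℝ) * l) * R ^ (-s)) := by
                rw [hA1]
                ring
            _ ≤ A1 * (R ^ (1 + ε - (1 + s / m) / 2) * R ^ (-s)) := by gcongr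
            _ = A1 * R ^ (-(s + s / (2 * m) - 1 / 2) + ε) := by
                rw [← Real.rpow_add hR0]
                congr 2
                field_simp
                ring
  have hfar : 2 ^ (q - 1) * (ENNReal.ofReal (4 * T) * (ENNReal.ofReal (4 * T) ^ m *
      (ENNReal.ofReal B ^ q * ((ENNReal.ofReal (Real.pi * (R / T)) ^ m) ^ q * S)))) ≤
      ENNReal.ofReal (A2 * R⁻¹) := by
    calc 2 ^ (q - 1) * (ENNReal.ofReal (4 * T) * (ENNReal.ofReal (4 * T) ^ m *
      (ENNReal.ofReal B ^ q * ((ENNReal.ofReal (Real.pi * (R / T)) ^ m) ^ q * S)))) ≤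
        2 ^ (q - 1) * (ENNReal.ofReal (4 * T) * (ENNReal.ofReal (4 * T) ^ m *
      (ENNReal.ofReal B ^ q * ((ENNReal.ofReal (Real.pi * (R / T)) ^ m) ^ q *
        ENNReal.ofReal D0)))) := by gcongr
      _ = ENNReal.ofReal (2 ^ (q - 1) * (4 * T * ((4 * T) ^ m * (B ^ q *
          (((Real.pi * (R / T)) ^ m) ^ q * D0))))) := by
          rw [e2, ← ENNReal.ofReal_pow (by positivity), ← ENNReal.ofReal_pow (by positivity),
            ENNReal.ofReal_rpow_of_pos (by positivity), ENNReal.ofReal_rpow_of_pos (by positivity),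
            ← ENNReal.ofReal_mul (by positivity), ← ENNReal.ofReal_mul (by positivity),
            ← ENNReal.ofReal_mul (by positivity), ← ENNReal.ofReal_mul (by positivity),
            ← ENNReal.ofReal_mul (by positivity)]
      _ ≤ _ := by
          apply ENNReal.ofReal_le_ofReal
          have h1 : (Real.pi * (R / T)) ^ m ≤ Real.pi ^ m := by
            gcongr
            have : R / T ≤ 1 := by rwa [div_le_one hT0]
            nlinarith [Real.pi_pos]
          have h2 : T ≤ R ^ 2 := by linarith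
          have h3 : B ^ q ≤ (C1 ^ m) ^ q * R ^ (-(2 * (m : ℝ) + 3)) := by
            rw [hB, Real.mul_rpow (by positivity) (by positivity)]
            gcongr
            rw [← Real.rpow_natCast, ← Real.rpow_mul hR0.le, ← Real.rpow_neg hR0.le,
              ← Real.rpow_mul hR0.le]
            apply Real.rpow_le_rpow_of_exponent_le hR
            linarith
          have h4 : T * T ^ m ≤ R ^ (2 * (m : ℝ) + 2) := by
            calc T * T ^ m = T ^ (m + 1) := by rw [pow_succ]; ring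
              _ ≤ (R ^ 2) ^ (m + 1) := by gcongr
              _ = R ^ (2 * (m : ℝ) + 2) := by
                  rw [← pow_mul, ← Real.rpow_natCast]
                  congr 1
                  push_cast
                  ring
          calc 2 ^ (q - 1) * (4 * T * ((4 * T) ^ m * (B ^ q * (((Real.pi * (R / T)) ^ m) ^ q * D0)))) ≤
              2 ^ (q - 1) * (4 * T * ((4 * T) ^ m * (((C1 ^ m) ^ q * R ^ (-(2 * (m : ℝ) + 3))) *
                ((Real.pi ^ m) ^ q * D0)))) := by gcongr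
            _ = A2 * ((T * T ^ m) * R ^ (-(2 * (m : ℝ) + 3))) := by
                rw [hA2, mul_pow]
                ring
            _ ≤ A2 * (R ^ (2 * (m : ℝ) + 2) * R ^ (-(2 * (m : ℝ) + 3))) := by gcongr
            _ = A2 * R⁻¹ := by
                rw [← Real.rpow_add hR0, ← Real.rpow_neg_one]
                congr 2
                ring
  rw [mul_add]
  refine (add_le_add hnear hfar).trans ?_
  rw [← ENNReal.ofReal_add (by positivity) (by positivity)]
  apply ENNReal.ofReal_le_ofReal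
  have h1 : 0 < R ^ (-(s + s / (2 * m) - 1 / 2) + ε) := by positivity
  have h2 : 0 < R⁻¹ := by positivity
  nlinarith

end Pool.Agent.Q89.SM
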