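import Pool.Agent.Q89.SM.M
set_option autoImplicit false

/-! One scale: all times. -/

namespace Pool.Agent.Q89.SM

open MeasureTheory Set Complex Filter Topology
open scoped ENNReal NNReal ComplexConjugate
open Pool.Agent.Y183.LS
open Pool.Agent.Q89.LF (Win wh Aw Aw_rep Aw_rec wh_int wh_cont ga ga_norm)

variable {m : ℕ}

lemma cover (f : ℝ → ℝ≥0∞) (n : ℕ) : ∫⁻ t, f t ≤ (∫⁻ t in {t : ℝ | |t| < 1}, f t) +
    (∑ i ∈ Finset.range n, ∫⁻ t in JT (2 ^ i), f t) + ∫⁻ t in {t : ℝ | 2 ^ n ≤ |t|}, f t := by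
  induction n with
  | zero =>
    rw [Finset.range_zero, Finset.sum_empty, add_zero, pow_zero]
    refine le_trans ?_ (lintegral_union_le f _ _)
    rw [← setLIntegral_univ]
    apply lintegral_mono_set
    intro t _
    rcases lt_or_ge |t| 1 with h | h
    · exact Or.inl h
    · exact Or.inr h
  | succ n ih =>
    refine ih.trans ?_
    rw [Finset.sum_range_succ]
    have h1 : ∫⁻ t in {t : ℝ | 2 ^ n ≤ |t|}, f t ≤
        (∫⁻ t in JT (2 ^ n), f t) + ∫⁻ t in {t : ℝ | 2 ^ (n + 1) ≤ |t|}, f t := by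
      refine le_trans ?_ (lintegral_union_le f _ _)
      apply lintegral_mono_set
      intro t ht
      rcases lt_or_ge |t| (2 ^ (n + 1)) with h | h
      · refine Or.inl ⟨ht, ?_⟩
        rw [pow_succ] at h
        linarith
      · exact Or.inr h
    rw [← add_assoc, add_assoc (_ + _)]
    gcongr

lemma lin_exp (j : ℕ) (c : ℝ) (hc : 0 < c) :
    (j : ℝ) ≤ (c * Real.log 2)⁻¹ * ((2 : ℝ) ^ j) ^ c := by
  have hl : 0 < Real.log 2 := Real.log_pos one_lt_two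
  have h1 := Real.add_one_le_exp (j * (c * Real.log 2))
  have h2 : Real.exp (j * (c * Real.log 2)) = ((2 : ℝ) ^ j) ^ c := by
    rw [← Real.rpow_natCast, ← Real.rpow_mul (by norm_num), Real.rpow_def_of_pos two_pos]
    congr 1
    ring
  rw [h2] at h1
  rw [inv_mul_eq_div, le_div_iff₀ (by positivity)]
  linarith

/-- **one scale** -/
theorem scale (hm : 1 ≤ m) (q : ℝ) (hq : 2 + 2 / (m : ℝ) < q) (hq0 : q < 2 + 4 / (m : ℝ)) (s : ℝ)
    (hs : (m : ℝ) / (2 * m + 1) < s) (hs1 : s ≤ 1) (D0 : ℝ) (hD0' : 0 < D0) :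
    ∃ C δ : ℝ, 0 < C ∧ 0 < δ ∧ ∀ (j : ℕ)
    {h : (Fin m → ℝ) → ℂ} {b : ℝ}, 0 ≤ b → Bf h 1 b →
    ∫⁻ x, ‖h x‖ₑ ^ 2 ≤ ENNReal.ofReal (((2 : ℝ) ^ j) ^ (-s)) → ∫⁻ x, ‖h x‖ₑ ≤ ENNReal.ofReal D0 →
    ∫⁻ t, ∫⁻ y, ‖X (Pm (2 ^ j) h) t y‖ₑ ^ q ≤ ENNReal.ofReal (C * ((2 : ℝ) ^ j) ^ (-δ)) := by
  have hm0 : (0 : ℝ) < m := by exact_mod_cast hm
  have hm1 : (1 : ℝ) ≤ m := by exact_mod_cast hm
  have hm2 : 0 < 2 / (m : ℝ) := by positivity
  have hq2 : 2 < q := by linarith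
  have hs0 : 0 < s := lt_trans (by positivity) hs
  set δ1 : ℝ := s + s / (2 * m) - 1 / 2 with hδ1
  have hδ10 : 0 < δ1 := by
    rw [div_lt_iff₀ (by positivity)] at hs
    have e1 : δ1 = (s * (2 * m + 1) - m) / (2 * m) := by
      rw [hδ1]
      field_simp
    rw [e1]
    apply div_pos (by linarith) (by positivity)
  have hsm : s / (2 * m) ≤ 1 / 2 := by
    rw [div_le_iff₀ (by positivity)]
    nlinarith
  have hδs : δ1 ≤ s := by linarith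
  set ε : ℝ := min (δ1 / 2) (s / m) with hε
  have hε0 : 0 < ε := lt_min (by positivity) (by positivity)
  have hε1 : ε ≤ δ1 / 2 := min_le_left _ _
  obtain ⟨CB, hCB, HB⟩ := caseB hm q hq hq0 s hs0 ε hε0 (min_le_right _ _) D0 hD0'
  obtain ⟨CL, HL⟩ := largeT hm q hq
  have hCb : 0 < Cb m q := by
    have hK := Kc_pos q (2 + 4 / (m : ℝ)) hq0
    have hC := Cw_pos m
    unfold Cb
    positivity
  set D : ℝ := Cb m q + 2 * CB with hD
  have hD0 : 0 < D := by positivity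
  set δ : ℝ := δ1 / 4 with hδ
  set E : ℝ := 2 * D * (δ * Real.log 2)⁻¹ + 2 * D0 ^ (q - 2) + CL with hE
  have hδ0 : 0 < δ := by positivity
  have hl2 : 0 < Real.log 2 := Real.log_pos one_lt_two
  refine ⟨E, δ, by positivity, hδ0, ?_⟩
  intro j h b hb H hS hS1
  set R : ℝ := 2 ^ j with hR
  have hR1 : 1 ≤ R := one_le_pow₀ one_le_two
  have hR0 : 0 < R := by linarith
  have Hp := Pm_Bf H R hR1
  have hfin2 : ∫⁻ x, ‖h x‖ₑ ^ 2 ≠ ∞ := ne_top_of_le_ne_top ENNReal.ofReal_ne_top hS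
  have hP2 := Pm_L2 H.ms R hR0
  have hblock : ∀ i ∈ Finset.range (2 * j), ∫⁻ t in JT (2 ^ i), ∫⁻ y, ‖X (Pm R h) t y‖ₑ ^ q ≤
      ENNReal.ofReal (D * R ^ (-(δ1 / 2))) := by
    intro i hi
    rw [Finset.mem_range] at hi
    set T : ℝ := 2 ^ i with hT
    have hT1 : 1 ≤ T := one_le_pow₀ one_le_two
    have h2T : 2 * T ≤ R ^ 2 := by
      rw [hT, hR, ← pow_mul, ← pow_succ']
      exact pow_le_pow_right₀ one_le_two (by omega)
    rcases le_total T (R ^ (1 + s / m)) with hc | hc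
    · refine (caseA hm q hq hq0 s hs0 R T hR1 hT1 hc hb H hS).trans ?_
      apply ENNReal.ofReal_le_ofReal
      have h1 : R ^ (-δ1) ≤ R ^ (-(δ1 / 2)) := Real.rpow_le_rpow_of_exponent_le hR1 (by linarith)
      gcongr
      linarith
    · refine (HB R T hR1 hT1 hc h2T hb H hS hS1).trans ?_
      apply ENNReal.ofReal_le_ofReal
      have h1 : R ^ (-δ1 + ε) ≤ R ^ (-(δ1 / 2)) :=
        Real.rpow_le_rpow_of_exponent_le hR1 (by linarith)
      have h2 : R⁻¹ ≤ R ^ (-(δ1 / 2)) := by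
        rw [← Real.rpow_neg_one]
        exact Real.rpow_le_rpow_of_exponent_le hR1 (by linarith)
      have h3 : 0 < R ^ (-(δ1 / 2)) := by positivity
      calc CB * (R ^ (-δ1 + ε) + R⁻¹) ≤ CB * (R ^ (-(δ1 / 2)) + R ^ (-(δ1 / 2))) := by gcongr
        _ ≤ D * R ^ (-(δ1 / 2)) := by nlinarith
  have hsmall : ∫⁻ t in {t : ℝ | |t| < 1}, ∫⁻ y, ‖X (Pm R h) t y‖ₑ ^ q ≤
      ENNReal.ofReal (2 * D0 ^ (q - 2) * R ^ (-δ)) := by
    refine (smallT q hq2.le _ Hp.ms (b + 1) Hp.st (ne_top_of_le_ne_top hfin2 hP2)).trans ?_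
    have h1 : ∫⁻ v, ‖Pm R h v‖ₑ ≤ ENNReal.ofReal D0 := (Pm_L1 H.ms R hR0).trans hS1
    have h2 : (∫⁻ v, ‖Pm R h v‖ₑ) ^ (q - 2) ≤ ENNReal.ofReal (D0 ^ (q - 2)) := by
      rw [← ENNReal.ofReal_rpow_of_pos hD0']
      exact ENNReal.rpow_le_rpow h1 (by linarith)
    calc 2 * ((∫⁻ v, ‖Pm R h v‖ₑ) ^ (q - 2) * ∫⁻ v, ‖Pm R h v‖ₑ ^ 2) ≤
        2 * (ENNReal.ofReal (D0 ^ (q - 2)) * ENNReal.ofReal (R ^ (-δ))) := by
          gcongr
          refine hP2.trans (hS.trans (ENNReal.ofReal_le_ofReal ?_))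
          exact Real.rpow_le_rpow_of_exponent_le hR1 (by linarith)
      _ = _ := by
          rw [ENNReal.ofReal_mul (by positivity), ENNReal.ofReal_mul (by norm_num), mul_assoc]
          norm_num
  have hlarge : ∫⁻ t in {t : ℝ | 2 ^ (2 * j) ≤ |t|}, ∫⁻ y, ‖X (Pm R h) t y‖ₑ ^ q ≤
      ENNReal.ofReal (CL * R ^ (-δ)) := by
    have e1 : (2 : ℝ) ^ (2 * j) = R ^ 2 := by
      rw [hR, ← pow_mul, mul_comm]
    rw [e1]
    refine (HL R hR1 h b H hfin2).trans ?_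
    rw [ENNReal.ofReal_mul CL.coe_nonneg, ENNReal.ofReal_coe_nnreal]
    gcongr
    refine hS.trans (ENNReal.ofReal_le_ofReal ?_)
    exact Real.rpow_le_rpow_of_exponent_le hR1 (by linarith)
  refine (cover _ (2 * j)).trans ?_
  have hsum : ∑ i ∈ Finset.range (2 * j), ∫⁻ t in JT (2 ^ i), ∫⁻ y, ‖X (Pm R h) t y‖ₑ ^ q ≤
      ENNReal.ofReal (2 * D * (δ * Real.log 2)⁻¹ * R ^ (-δ)) := by
    refine (Finset.sum_le_sum hblock).trans ?_
    rw [Finset.sum_const, Finset.card_range, nsmul_eq_mul, ← ENNReal.ofReal_natCast,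
      ← ENNReal.ofReal_mul (by positivity)]
    apply ENNReal.ofReal_le_ofReal
    have h1 := lin_exp j δ hδ0
    rw [← hR] at h1
    push_cast
    calc 2 * (j : ℝ) * (D * R ^ (-(δ1 / 2))) ≤
        2 * ((δ * Real.log 2)⁻¹ * R ^ δ) * (D * R ^ (-(δ1 / 2))) := by gcongr
      _ = 2 * D * (δ * Real.log 2)⁻¹ * (R ^ δ * R ^ (-(δ1 / 2))) := by ring
      _ = _ := by
          rw [← Real.rpow_add hR0]
          congr 2
          rw [hδ]
          ring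
  calc (∫⁻ t in {t : ℝ | |t| < 1}, ∫⁻ y, ‖X (Pm R h) t y‖ₑ ^ q) +
      (∑ i ∈ Finset.range (2 * j), ∫⁻ t in JT (2 ^ i), ∫⁻ y, ‖X (Pm R h) t y‖ₑ ^ q) +
      ∫⁻ t in {t : ℝ | 2 ^ (2 * j) ≤ |t|}, ∫⁻ y, ‖X (Pm R h) t y‖ₑ ^ q ≤
      ENNReal.ofReal (2 * D0 ^ (q - 2) * R ^ (-δ)) +
      ENNReal.ofReal (2 * D * (δ * Real.log 2)⁻¹ * R ^ (-δ)) +
      ENNReal.ofReal (CL * R ^ (-δ)) := by gcongr
    _ = _ := by
      rw [← ENNReal.ofReal_add (by positivity) (by positivity),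
        ← ENNReal.ofReal_add (by positivity) (by positivity)]
      congr 1
      rw [hE]
      ring

end Pool.Agent.Q89.SM
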