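import Pool.Agent.Q89.SM.N
set_option autoImplicit false

/-! Telescoping over the scales: the pieces. -/

namespace Pool.Agent.Q89.SM

open MeasureTheory Set Complex Filter Topology
open scoped ENNReal NNReal ComplexConjugate
open Pool.Agent.Y183.LS
open Pool.Agent.Q89.LF (Win wh Aw Aw_rep Aw_rec wh_int wh_cont ga ga_norm)

variable {m : ℕ}

lemma Bf.mono {h : (Fin m → ℝ) → ℂ} {M b M' : ℝ} (H : Bf h M b) (hM : M ≤ M') : Bf h M' b :=
  ⟨H.ms, fun x => (H.bd x).trans hM, H.st⟩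

/-- infinite convexity -/
lemma conv_inf (w : ℕ → ℝ≥0∞) (q η : ℝ) (hq : 1 < q) (hη : 0 < η) (n : ℕ) :
    (∑ j ∈ Finset.range n, w j) ^ q ≤
      (ENNReal.ofReal (1 - 2 ^ (-η))⁻¹) ^ (q - 1) *
        ∑' j : ℕ, ENNReal.ofReal (((2 : ℝ) ^ j) ^ (η * (q - 1))) * w j ^ q := by
  set a : ℕ → ℝ≥0∞ := fun j => ENNReal.ofReal (((2 : ℝ) ^ j) ^ (-η)) with ha
  have ha0 : ∀ j, a j ≠ 0 := by
    intro j
    rw [ha, Ne, ENNReal.ofReal_eq_zero, not_le]
    positivity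
  have hat : ∀ j, a j ≠ ∞ := fun j => ENNReal.ofReal_ne_top
  have h1 := convex_sum (Finset.range n) a (fun j => w j / a j) q hq.le (fun i _ => hat i)
  have e1 : ∀ j, a j * (w j / a j) = w j := fun j => ENNReal.mul_div_cancel (ha0 j) (hat j)
  simp only [e1] at h1
  refine h1.trans ?_
  have h2 : (2 : ℝ) ^ (-η) < 1 := Real.rpow_lt_one_of_one_lt_of_neg one_lt_two (by linarith)
  have h20 : 0 < (2 : ℝ) ^ (-η) := by positivity
  have e2 : ∀ j, a j = ENNReal.ofReal (((2 : ℝ) ^ (-η)) ^ j) := by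
    intro j
    have e3 : ((2 : ℝ) ^ j) ^ (-η) = ((2 : ℝ) ^ (-η)) ^ j := by
      rw [← Real.rpow_natCast 2 j, ← Real.rpow_natCast _ j, ← Real.rpow_mul (by norm_num),
        ← Real.rpow_mul (by norm_num)]
      congr 1
      ring
    simp only [ha]
    rw [e3]
  have h3 : ∑ j ∈ Finset.range n, a j ≤ ENNReal.ofReal (1 - 2 ^ (-η))⁻¹ := by
    refine (ENNReal.sum_le_tsum _).trans (le_of_eq ?_)
    simp only [e2]
    rw [← ENNReal.ofReal_tsum_of_nonneg (fun k => by positivity)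
      (summable_geometric_of_lt_one h20.le h2), tsum_geometric_of_lt_one h20.le h2]
  have h4 : ∀ j, a j * (w j / a j) ^ q = ENNReal.ofReal (((2 : ℝ) ^ j) ^ (η * (q - 1))) * w j ^ q := by
    intro j
    have hp : (0 : ℝ) < ((2 : ℝ) ^ j) ^ (-η) := by positivity
    rw [div_eq_mul_inv, ENNReal.mul_rpow_of_nonneg _ _ (by linarith), mul_left_comm, mul_comm]
    congr 1
    simp only [ha]
    rw [← ENNReal.ofReal_inv_of_pos hp, ENNReal.ofReal_rpow_of_pos (by positivity),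
      ← ENNReal.ofReal_mul (by positivity)]
    congr 1
    rw [← Real.rpow_neg (by positivity), ← Real.rpow_mul (by positivity),
      ← Real.rpow_add (by positivity)]
    congr 1
    ring
  simp only [h4]
  gcongr ?_ * ?_
  · exact ENNReal.rpow_le_rpow h3 (by linarith)
  · exact ENNReal.sum_le_tsum _

lemma X_add {g1 g2 : (Fin m → ℝ) → ℂ} {M1 b1 M2 b2 : ℝ} (H1 : Bf g1 M1 b1) (H2 : Bf g2 M2 b2)
    (t : ℝ) (y : Fin m → ℝ) : X (fun v => g1 v + g2 v) t y = X g1 t y + X g2 t y := by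
  unfold X
  rw [← integral_add (H1.Xint t y) (H2.Xint t y)]
  congr 1
  ext v
  ring

/-- the normalized functions -/
structure Nm (s : ℝ) (f : (Fin m → ℝ) → ℂ) : Prop where
  bf : Bf f ((2 ^ m)⁻¹) 1
  md : ∀ u : Fin m → ℝ, ‖u‖ ≤ 1 →
    ∫⁻ x, ‖f (x - u) - f x‖ₑ ^ 2 ≤ ENNReal.ofReal (1 / 16 * ‖u‖ ^ s)

/-- Jensen -/
lemma jens (R : ℝ) (hR : 0 < R) (φ : (Fin m → ℝ) → ℝ≥0∞) (hφ : Measurable φ) :
    (∫⁻ u : Fin m → ℝ, ENNReal.ofReal (Wr R u) * φ u) ^ 2 ≤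
      ∫⁻ u : Fin m → ℝ, ENNReal.ofReal (Wr R u) * φ u ^ 2 := by
  have hμ : ∀ φ : (Fin m → ℝ) → ℝ≥0∞, Measurable φ →
      ∫⁻ u : Fin m → ℝ, ENNReal.ofReal (Wr R u) * φ u =
      ∫⁻ u : Fin m → ℝ, φ u ∂(volume.withDensity fun u => ENNReal.ofReal (Wr R u)) := by
    intro φ hφ
    rw [lintegral_withDensity_eq_lintegral_mul _ (Wr_cont R).measurable.ennreal_ofReal hφ]
    rfl
  rw [hμ _ hφ, hμ _ (hφ.pow_const 2)]
  set ν : Measure (Fin m → ℝ) := volume.withDensity fun u => ENNReal.ofReal (Wr R u) with hν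
  have hν1 : ν univ = 1 := by
    rw [hν, withDensity_apply _ MeasurableSet.univ, Measure.restrict_univ, Wr_lint R hR]
  have h3 := ENNReal.lintegral_mul_le_Lp_mul_Lq ν Real.HolderConjugate.two_two
    (f := φ) (g := fun _ => 1) hφ.aemeasurable aemeasurable_const
  simp only [ENNReal.rpow_ofNat, Pi.mul_apply, mul_one, one_pow, lintegral_const, hν1,
    ENNReal.one_rpow] at h3
  calc (∫⁻ u, φ u ∂ν) ^ 2 ≤ ((∫⁻ u, φ u ^ 2 ∂ν) ^ (1 / 2 : ℝ)) ^ 2 := by gcongr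
    _ = ∫⁻ u, φ u ^ 2 ∂ν := by
        rw [← ENNReal.rpow_natCast, ← ENNReal.rpow_mul]
        norm_num

/-- the error of the mollification, in the mean square -/
lemma Pm_err2 {f : (Fin m → ℝ) → ℂ} {M b : ℝ} (H : Bf f M b) (R : ℝ) (hR : 0 < R) (ε : ℝ≥0∞)
    (hε : ∀ u : Fin m → ℝ, (∀ i, |u i| ≤ 1 / R) → ∫⁻ x, ‖f (x - u) - f x‖ₑ ^ 2 ≤ ε) :
    ∫⁻ x, ‖Pm R f x - f x‖ₑ ^ 2 ≤ ε := by
  have hpt : ∀ x, ‖Pm R f x - f x‖ₑ ≤
      ∫⁻ u : Fin m → ℝ, ENNReal.ofReal (Wr R u) * ‖f (x - u) - f x‖ₑ := by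
    intro x
    have h1 : f x = ∫ u : Fin m → ℝ, (Wr R u : ℂ) * f x := by
      rw [integral_mul_const, integral_complex_ofReal, Wr_int1 R hR]
      simp
    have h2 : Pm R f x - f x = ∫ u, (Wr R u : ℂ) * (f (x - u) - f x) := by
      conv_lhs => rw [h1]
      unfold Pm
      rw [← integral_sub]
      · congr 1
        ext u
        ring
      · exact Pm_int H R hR x
      · exact ((Wr_int R hR).ofReal).mul_const _
    rw [h2]
    refine (enorm_integral_le_lintegral_enorm _).trans (le_of_eq ?_)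
    congr 1
    ext u
    rw [enorm_mul, ← ofReal_norm (Wr R u : ℂ), norm_real, Real.norm_eq_abs,
      abs_of_nonneg (Wr_nonneg R hR.le u)]
  have hj : Measurable (fun p : (Fin m → ℝ) × (Fin m → ℝ) =>
      ENNReal.ofReal (Wr R p.2) * ‖f (p.1 - p.2) - f p.1‖ₑ ^ 2) :=
    ((Wr_cont R).measurable.ennreal_ofReal.comp measurable_snd).mul
      (((H.ms.comp (measurable_fst.sub measurable_snd)).sub
        (H.ms.comp measurable_fst)).enorm.pow_const 2)
  calc ∫⁻ x, ‖Pm R f x - f x‖ₑ ^ 2 ≤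
        ∫⁻ x, ∫⁻ u : Fin m → ℝ, ENNReal.ofReal (Wr R u) * ‖f (x - u) - f x‖ₑ ^ 2 := by
        apply lintegral_mono
        intro x
        calc ‖Pm R f x - f x‖ₑ ^ 2 ≤
            (∫⁻ u : Fin m → ℝ, ENNReal.ofReal (Wr R u) * ‖f (x - u) - f x‖ₑ) ^ 2 := by
              gcongr
              exact hpt x
          _ ≤ _ := jens R hR _
              ((H.ms.comp (measurable_const.sub measurable_id)).sub measurable_const).enorm
    _ = ∫⁻ u : Fin m → ℝ, ∫⁻ x, ENNReal.ofReal (Wr R u) * ‖f (x - u) - f x‖ₑ ^ 2 :=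
        lintegral_lintegral_swap hj.aemeasurable
    _ = ∫⁻ u : Fin m → ℝ, ENNReal.ofReal (Wr R u) * ∫⁻ x, ‖f (x - u) - f x‖ₑ ^ 2 := by
        congr 1
        ext u
        rw [lintegral_const_mul]
        exact ((H.ms.comp (measurable_id.sub measurable_const)).sub H.ms).enorm.pow_const 2
    _ ≤ ∫⁻ u : Fin m → ℝ, ENNReal.ofReal (Wr R u) * ε := by
        apply lintegral_mono
        intro u
        simp only
        by_cases hu : Wr R u = 0
        · rw [hu]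
          simp
        · gcongr
          exact hε u (Wr_supp R hR u hu)
    _ = ε := by
        rw [lintegral_mul_const _ (Wr_cont R).measurable.ennreal_ofReal, Wr_lint R hR, one_mul]

lemma sq_add_le' (a b : ℝ≥0∞) : (a + b) ^ 2 ≤ 2 * (a ^ 2 + b ^ 2) := by
  have h1 := ENNReal.rpow_add_le_mul_rpow_add_rpow a b one_le_two
  have e1 : (2 : ℝ) - 1 = 1 := by norm_num
  rw [e1, ENNReal.rpow_one] at h1
  simpa only [ENNReal.rpow_ofNat] using h1

lemma BA2_vol : volume (BA 2 m) = 4 ^ m := by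
  rw [Real.volume_Icc_pi]
  norm_num

lemma Bf.S1 {h : (Fin m → ℝ) → ℂ} (H : Bf h 1 2) : ∫⁻ x, ‖h x‖ₑ ≤ ENNReal.ofReal (4 ^ m) := by
  calc ∫⁻ x, ‖h x‖ₑ ≤ ∫⁻ x, (BA 2 m).indicator (fun _ => 1) x := by
        apply lintegral_mono
        intro x
        by_cases hx : x ∈ BA 2 m
        · simp only
          rw [indicator_of_mem hx]
          exact H.enorm_le x
        · simp only
          rw [indicator_of_notMem hx, H.st x hx, enorm_zero]
    _ = _ := by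
        rw [lintegral_indicator measurableSet_Icc, lintegral_one, Measure.restrict_apply_univ,
          BA2_vol, ENNReal.ofReal_pow (by norm_num)]
        norm_num

/-- the scales -/
noncomputable def Rj (j : ℕ) : ℝ := 2 ^ j

lemma Rj1 (j : ℕ) : 1 ≤ Rj j := one_le_pow₀ one_le_two

lemma Rj0 (j : ℕ) : 0 < Rj j := lt_of_lt_of_le one_pos (Rj1 j)

lemma Rj_mono (j : ℕ) : Rj j ≤ Rj (j + 1) := pow_le_pow_right₀ one_le_two (by omega)

lemma Rj_neg (j : ℕ) (s : ℝ) (hs : 0 ≤ s) : (Rj (j + 1)) ^ (-s) ≤ (Rj j) ^ (-s) :=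
  Real.rpow_le_rpow_of_nonpos (Rj0 j) (Rj_mono j) (by linarith)

lemma Rj_neg2 (j : ℕ) (s : ℝ) (hs1 : s ≤ 1) : 1 / 2 * (Rj j) ^ (-s) ≤ (Rj (j + 1)) ^ (-s) := by
  have e1 : Rj (j + 1) = 2 * Rj j := by
    unfold Rj
    ring
  rw [e1, Real.mul_rpow (by norm_num) (Rj0 j).le]
  have h1 : (1 : ℝ) / 2 ≤ 2 ^ (-s) := by
    calc (1 : ℝ) / 2 = 2 ^ (-1 : ℝ) := by rw [Real.rpow_neg_one]; norm_num
      _ ≤ 2 ^ (-s) := Real.rpow_le_rpow_of_exponent_le one_le_two (by linarith)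
  have := Rj0 j
  gcongr

lemma Nm.err {s : ℝ} {f : (Fin m → ℝ) → ℂ} (hf : Nm s f) (hs0 : 0 ≤ s) (j : ℕ) :
    ∫⁻ x, ‖Pm (Rj j) f x - f x‖ₑ ^ 2 ≤ ENNReal.ofReal (1 / 16 * (Rj j) ^ (-s)) := by
  have hR0 := Rj0 j
  apply Pm_err2 hf.bf (Rj j) hR0
  intro u hu
  have h1 : ‖u‖ ≤ 1 / Rj j := by
    rw [pi_norm_le_iff_of_nonneg (by positivity)]
    exact hu
  have h2 : 1 / Rj j ≤ 1 := by
    rw [div_le_one hR0]
    exact Rj1 j
  refine (hf.md u (h1.trans h2)).trans ?_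
  apply ENNReal.ofReal_le_ofReal
  gcongr
  calc ‖u‖ ^ s ≤ (1 / Rj j) ^ s := Real.rpow_le_rpow (norm_nonneg _) h1 hs0
    _ = (Rj j) ^ (-s) := by
        rw [one_div, Real.inv_rpow hR0.le, ← Real.rpow_neg hR0.le]

lemma Nm.P1 {s : ℝ} {f : (Fin m → ℝ) → ℂ} (hf : Nm s f) (j : ℕ) :
    Bf (Pm (Rj j) f) ((2 ^ m)⁻¹) 2 := by
  have := Pm_Bf hf.bf (Rj j) (Rj1 j)
  norm_num at this ⊢
  exact this

lemma Nm.P2 {s : ℝ} {f : (Fin m → ℝ) → ℂ} (hf : Nm s f) (i j : ℕ) :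
    Bf (Pm (Rj i) (Pm (Rj j) f)) ((2 ^ m)⁻¹) (2 + 1) :=
  Pm_Bf (hf.P1 j) (Rj i) (Rj1 i)

/-- the differences -/
noncomputable def hj (f : (Fin m → ℝ) → ℂ) (j : ℕ) (x : Fin m → ℝ) : ℂ :=
  Pm (Rj (j + 1)) f x - Pm (Rj j) f x

lemma two_m_le (hm : 1 ≤ m) : ((2 : ℝ) ^ m)⁻¹ ≤ 1 / 2 := by
  rw [one_div]
  apply inv_anti₀ two_pos
  calc (2 : ℝ) = 2 ^ 1 := (pow_one 2).symm
    _ ≤ 2 ^ m := pow_le_pow_right₀ one_le_two hm

lemma Nm.hB (hm : 1 ≤ m) {s : ℝ} {f : (Fin m → ℝ) → ℂ} (hf : Nm s f) (j : ℕ) : Bf (hj f j) 1 2 := by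
  have h0 := two_m_le hm
  refine ⟨(hf.P1 (j + 1)).ms.sub (hf.P1 j).ms, fun x => ?_, fun x hx => ?_⟩
  · refine (norm_sub_le _ _).trans ?_
    have := (hf.P1 (j + 1)).bd x
    have := (hf.P1 j).bd x
    linarith
  · unfold hj
    rw [(hf.P1 (j + 1)).st x hx, (hf.P1 j).st x hx, sub_zero]

lemma Nm.hL {s : ℝ} {f : (Fin m → ℝ) → ℂ} (hf : Nm s f) (hs0 : 0 ≤ s) (hs1 : s ≤ 1) (j : ℕ) :
    ∫⁻ x, ‖hj f j x‖ₑ ^ 2 ≤ ENNReal.ofReal ((Rj (j + 1)) ^ (-s)) := by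
  have h1 : ∀ x, ‖hj f j x‖ₑ ^ 2 ≤
      2 * (‖Pm (Rj (j + 1)) f x - f x‖ₑ ^ 2 + ‖Pm (Rj j) f x - f x‖ₑ ^ 2) := by
    intro x
    have e1 : hj f j x = (Pm (Rj (j + 1)) f x - f x) - (Pm (Rj j) f x - f x) := by
      unfold hj
      ring
    rw [e1]
    refine le_trans ?_ (sq_add_le' _ _)
    gcongr
    exact enorm_sub_le
  have hmm : ∀ i, Measurable (fun x => ‖Pm (Rj i) f x - f x‖ₑ ^ 2) := fun i =>
    ((hf.P1 i).ms.sub hf.bf.ms).enorm.pow_const 2
  have hms : Measurable (fun x => ‖Pm (Rj (j + 1)) f x - f x‖ₑ ^ 2 + ‖Pm (Rj j) f x - f x‖ₑ ^ 2) :=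
    (hmm _).add (hmm _)
  refine (lintegral_mono h1).trans ?_
  rw [lintegral_const_mul _ hms, lintegral_add_left (hmm _)]
  have := Rj0 j
  have := Rj0 (j + 1)
  calc 2 * ((∫⁻ x, ‖Pm (Rj (j + 1)) f x - f x‖ₑ ^ 2) + ∫⁻ x, ‖Pm (Rj j) f x - f x‖ₑ ^ 2) ≤
      2 * (ENNReal.ofReal (1 / 16 * (Rj (j + 1)) ^ (-s)) +
        ENNReal.ofReal (1 / 16 * (Rj j) ^ (-s))) := by
        gcongr
        · exact hf.err hs0 (j + 1)
        · exact hf.err hs0 j
    _ ≤ _ := by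
        have e2 : (2 : ℝ≥0∞) = ENNReal.ofReal 2 := by norm_num
        rw [e2, ← ENNReal.ofReal_add (by positivity) (by positivity),
          ← ENNReal.ofReal_mul (by norm_num)]
        apply ENNReal.ofReal_le_ofReal
        have h2 := Rj_neg j s hs0
        have h3 := Rj_neg2 j s hs1
        have h4 : 0 < (Rj j) ^ (-s) := by positivity
        linarith

/-- the pieces -/
noncomputable def Uj (f : (Fin m → ℝ) → ℂ) (j : ℕ) (t : ℝ) (y : Fin m → ℝ) : ℂ :=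
  X (Pm (Rj (j + 1)) (hj f j)) t y + X (Pm (Rj j) (hj f j)) t y

lemma Nm.tel {s : ℝ} {f : (Fin m → ℝ) → ℂ} (hf : Nm s f) (n : ℕ) (t : ℝ) (y : Fin m → ℝ) :
    X (Pm (Rj n) (Pm (Rj n) f)) t y = X (Pm (Rj 0) (Pm (Rj 0) f)) t y +
      ∑ j ∈ Finset.range n, Uj f j t y := by
  induction n with
  | zero => simp
  | succ n ih =>
    rw [Finset.sum_range_succ, ← add_assoc, ← ih]
    have e1 : Pm (Rj (n + 1)) (hj f n) = fun x => Pm (Rj (n + 1)) (Pm (Rj (n + 1)) f) x -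
        Pm (Rj (n + 1)) (Pm (Rj n) f) x := by
      ext x
      exact Pm_sub (hf.P1 (n + 1)) (hf.P1 n) _ (Rj0 _) x
    have e2 : Pm (Rj n) (hj f n) = fun x => Pm (Rj n) (Pm (Rj (n + 1)) f) x -
        Pm (Rj n) (Pm (Rj n) f) x := by
      ext x
      exact Pm_sub (hf.P1 (n + 1)) (hf.P1 n) _ (Rj0 _) x
    have e3 : Pm (Rj (n + 1)) (Pm (Rj n) f) = Pm (Rj n) (Pm (Rj (n + 1)) f) := by
      ext x
      exact Pm_comm hf.bf _ _ (Rj0 _) (Rj0 _) x
    unfold Uj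
    rw [e1, e2, X_sub (hf.P2 _ _) (hf.P2 _ _), X_sub (hf.P2 _ _) (hf.P2 _ _), e3]
    ring

lemma Nm.mass (hm : 1 ≤ m) {s : ℝ} {f : (Fin m → ℝ) → ℂ} (hf : Nm s f) : ∫⁻ x, ‖f x‖ₑ ≤ 1 := by
  have _ := hm
  calc ∫⁻ x, ‖f x‖ₑ ≤ ∫⁻ x, (BA 1 m).indicator (fun _ => ENNReal.ofReal ((2 ^ m)⁻¹)) x := by
        apply lintegral_mono
        intro x
        by_cases hx : x ∈ BA 1 m
        · simp only
          rw [indicator_of_mem hx, ← ofReal_norm]
          exact ENNReal.ofReal_le_ofReal (hf.bf.bd x)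
        · simp only
          rw [indicator_of_notMem hx, hf.bf.st x hx, enorm_zero]
    _ = 1 := by
        rw [lintegral_indicator measurableSet_Icc, lintegral_const, Measure.restrict_apply_univ,
          BA1_vol, ENNReal.ofReal_inv_of_pos (by positivity), ENNReal.ofReal_pow (by norm_num),
          ENNReal.ofReal_ofNat, ENNReal.inv_mul_cancel]
        · exact pow_ne_zero _ two_ne_zero
        · exact ENNReal.pow_ne_top (by norm_num)

lemma Nm.conv {s : ℝ} {f : (Fin m → ℝ) → ℂ} (hf : Nm s f) (hs0 : 0 < s) (t : ℝ) (y : Fin m → ℝ) :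
    Tendsto (fun n => X (Pm (Rj n) (Pm (Rj n) f)) t y) atTop (𝓝 (X f t y)) := by
  rw [tendsto_iff_edist_tendsto_0]
  have hb : ∀ n, edist (X (Pm (Rj n) (Pm (Rj n) f)) t y) (X f t y) ≤
      ENNReal.ofReal (2 * 2 ^ m * (Rj n) ^ (-(s / 2))) := by
    intro n
    rw [edist_eq_enorm_sub, ← X_sub (hf.P2 n n) hf.bf]
    refine (X_sup _ t y).trans ?_
    have h1 : ∀ x, ‖Pm (Rj n) (Pm (Rj n) f) x - f x‖ₑ ≤
        ‖Pm (Rj n) (fun z => Pm (Rj n) f z - f z) x‖ₑ + ‖Pm (Rj n) f x - f x‖ₑ := by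
      intro x
      rw [Pm_sub (hf.P1 n) hf.bf _ (Rj0 n) x]
      have e1 : Pm (Rj n) (Pm (Rj n) f) x - f x =
        (Pm (Rj n) (Pm (Rj n) f) x - Pm (Rj n) f x) + (Pm (Rj n) f x - f x) := by ring
      rw [e1]
      exact enorm_add_le _ _
    have hmm : Measurable (fun x => ‖Pm (Rj n) f x - f x‖ₑ) := ((hf.P1 n).ms.sub hf.bf.ms).enorm
    refine (lintegral_mono h1).trans ?_
    rw [lintegral_add_right _ hmm]
    have hcs : ∫⁻ x, ‖Pm (Rj n) f x - f x‖ₑ ≤ ENNReal.ofReal (2 ^ m * (Rj n) ^ (-(s / 2))) := by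
      have e3 : ∫⁻ x, ‖Pm (Rj n) f x - f x‖ₑ = ∫⁻ x in BA 2 m, ‖Pm (Rj n) f x - f x‖ₑ := by
        rw [← lintegral_indicator measurableSet_Icc]
        congr 1
        ext x
        by_cases hx : x ∈ BA 2 m
        · rw [indicator_of_mem hx]
        · rw [indicator_of_notMem hx, (hf.P1 n).st x hx, hf.bf.st, sub_zero, enorm_zero]
          intro hc
          apply hx
          exact ⟨fun i => by have := hc.1 i; simp only at this ⊢; linarith,
            fun i => by have := hc.2 i; simp only at this ⊢; linarith⟩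
      rw [e3]
      have e4 := ENNReal.lintegral_mul_le_Lp_mul_Lq (volume.restrict (BA 2 m))
        Real.HolderConjugate.two_two (f := fun x => ‖Pm (Rj n) f x - f x‖ₑ)
        (g := fun _ => (1 : ℝ≥0∞)) hmm.aemeasurable aemeasurable_const
      simp only [ENNReal.rpow_ofNat, Pi.mul_apply, one_pow, mul_one, lintegral_const, one_mul,
        Measure.restrict_apply_univ, BA2_vol] at e4
      refine e4.trans ?_
      have hR0 := Rj0 n
      calc (∫⁻ x in BA 2 m, ‖Pm (Rj n) f x - f x‖ₑ ^ 2) ^ (1 / 2 : ℝ) * (4 ^ m) ^ (1 / 2 : ℝ) ≤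
          (ENNReal.ofReal (1 / 16 * (Rj n) ^ (-s))) ^ (1 / 2 : ℝ) * (4 ^ m) ^ (1 / 2 : ℝ) := by
            gcongr ?_ * _
            exact ENNReal.rpow_le_rpow ((setLIntegral_le_lintegral _ _).trans (hf.err hs0.le n))
              (by norm_num)
        _ ≤ (ENNReal.ofReal ((Rj n) ^ (-s))) ^ (1 / 2 : ℝ) * (ENNReal.ofReal (4 ^ m)) ^ (1 / 2 : ℝ) := by
            have e5 : (4 : ℝ≥0∞) ^ m = ENNReal.ofReal (4 ^ m) := by
              rw [ENNReal.ofReal_pow (by norm_num)]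
              norm_num
            rw [e5]
            gcongr ?_ * _
            apply ENNReal.rpow_le_rpow _ (by norm_num)
            apply ENNReal.ofReal_le_ofReal
            have : 0 < (Rj n) ^ (-s) := by positivity
            linarith
        _ = _ := by
            rw [ENNReal.ofReal_rpow_of_pos (by positivity), ENNReal.ofReal_rpow_of_pos (by positivity),
              ← ENNReal.ofReal_mul (by positivity), mul_comm]
            congr 2
            · have e6 : (4 : ℝ) ^ m = (2 ^ m) ^ (2 : ℝ) := by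
                rw [Real.rpow_ofNat, ← pow_mul, mul_comm, pow_mul]
                norm_num
              rw [e6, ← Real.rpow_mul (by positivity)]
              norm_num
            · rw [← Real.rpow_mul hR0.le]
              congr 1
              ring
    have h2 := (Pm_L1 ((hf.P1 n).ms.sub hf.bf.ms) (Rj n) (Rj0 n)).trans hcs
    refine (add_le_add h2 hcs).trans ?_
    have := Rj0 n
    rw [← ENNReal.ofReal_add (by positivity) (by positivity)]
    apply ENNReal.ofReal_le_ofReal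
    linarith
  refine tendsto_of_tendsto_of_tendsto_of_le_of_le tendsto_const_nhds ?_
    (fun n => zero_le) hb
  have h3 : Tendsto (fun n : ℕ => 2 * 2 ^ m * (Rj n) ^ (-(s / 2))) atTop (𝓝 0) := by
    have h4 : Tendsto (fun n : ℕ => ((2 : ℝ) ^ (-(s / 2))) ^ n) atTop (𝓝 0) :=
      tendsto_pow_atTop_nhds_zero_of_lt_one (by positivity)
        (Real.rpow_lt_one_of_one_lt_of_neg one_lt_two (by linarith))
    have h5 : (fun n : ℕ => 2 * 2 ^ m * (Rj n) ^ (-(s / 2))) =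
        fun n : ℕ => 2 * 2 ^ m * ((2 : ℝ) ^ (-(s / 2))) ^ n := by
      ext n
      unfold Rj
      congr 1
      rw [← Real.rpow_natCast 2 n, ← Real.rpow_natCast _ n, ← Real.rpow_mul (by norm_num),
        ← Real.rpow_mul (by norm_num), mul_comm (n : ℝ)]
    have h6 := h4.const_mul (2 * 2 ^ m : ℝ)
    rw [mul_zero] at h6
    rw [h5]
    exact h6
  simpa using ENNReal.tendsto_ofReal h3

end Pool.Agent.Q89.SM
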