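import Pool.Agent.Q89.SM.O
set_option autoImplicit false

/-! Telescoping over the scales: the sum. -/

namespace Pool.Agent.Q89.SM

open MeasureTheory Set Complex Filter Topology
open scoped ENNReal NNReal ComplexConjugate
open Pool.Agent.Y183.LS
open Pool.Agent.Q89.LF (Win wh Aw Aw_rep Aw_rec wh_int wh_cont ga ga_norm)

variable {m : ℕ}

/-- the conclusion for one scale -/
def Sc (m : ℕ) (q s C δ : ℝ) : Prop := ∀ (j : ℕ) {h : (Fin m → ℝ) → ℂ} {b : ℝ}, 0 ≤ b → Bf h 1 b →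
    ∫⁻ x, ‖h x‖ₑ ^ 2 ≤ ENNReal.ofReal (((2 : ℝ) ^ j) ^ (-s)) →
    ∫⁻ x, ‖h x‖ₑ ≤ ENNReal.ofReal (4 ^ m) →
    ∫⁻ t, ∫⁻ y, ‖X (Pm (2 ^ j) h) t y‖ₑ ^ q ≤ ENNReal.ofReal (C * ((2 : ℝ) ^ j) ^ (-δ))

lemma two_rpow (q : ℝ) : (2 : ℝ≥0∞) ^ (q - 1) = ENNReal.ofReal (2 ^ (q - 1)) := by
  rw [← ENNReal.ofReal_rpow_of_pos two_pos]
  norm_num

lemma sum_int (q : ℝ) (hq : 1 ≤ q) (g1 g2 : ℝ → (Fin m → ℝ) → ℂ)
    (h1 : Measurable (fun p : ℝ × (Fin m → ℝ) => g1 p.1 p.2))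
    (h2 : Measurable (fun p : ℝ × (Fin m → ℝ) => g2 p.1 p.2)) :
    ∫⁻ t, ∫⁻ y, ‖g1 t y + g2 t y‖ₑ ^ q ≤
      2 ^ (q - 1) * ((∫⁻ t, ∫⁻ y, ‖g1 t y‖ₑ ^ q) + ∫⁻ t, ∫⁻ y, ‖g2 t y‖ₑ ^ q) := by
  have hm1 : Measurable (fun p : ℝ × (Fin m → ℝ) => ‖g1 p.1 p.2‖ₑ ^ q) := h1.enorm.pow_const q
  have hm2 : Measurable (fun p : ℝ × (Fin m → ℝ) => ‖g2 p.1 p.2‖ₑ ^ q) := h2.enorm.pow_const q
  have hm1y : ∀ t, Measurable (fun y => ‖g1 t y‖ₑ ^ q) := fun t =>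
    hm1.comp (measurable_const.prodMk measurable_id)
  have hm1t : Measurable (fun t => ∫⁻ y, ‖g1 t y‖ₑ ^ q) := Measurable.lintegral_prod_right' hm1
  have hm2y : ∀ t, Measurable (fun y => ‖g2 t y‖ₑ ^ q) := fun t =>
    hm2.comp (measurable_const.prodMk measurable_id)
  have hm2t : Measurable (fun t => ∫⁻ y, ‖g2 t y‖ₑ ^ q) := Measurable.lintegral_prod_right' hm2
  have hst : Measurable (fun t => (∫⁻ y, ‖g1 t y‖ₑ ^ q) + ∫⁻ y, ‖g2 t y‖ₑ ^ q) := hm1t.add hm2t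
  have hsy : ∀ t, Measurable (fun y => ‖g1 t y‖ₑ ^ q + ‖g2 t y‖ₑ ^ q) := fun t =>
    (hm1y t).add (hm2y t)
  calc ∫⁻ t, ∫⁻ y, ‖g1 t y + g2 t y‖ₑ ^ q ≤
      ∫⁻ t, ∫⁻ y, 2 ^ (q - 1) * (‖g1 t y‖ₑ ^ q + ‖g2 t y‖ₑ ^ q) := by
        apply lintegral_mono
        intro t
        apply lintegral_mono
        intro y
        refine (ENNReal.rpow_le_rpow (enorm_add_le _ _) (by linarith)).trans ?_
        exact ENNReal.rpow_add_le_mul_rpow_add_rpow _ _ hq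
    _ = ∫⁻ t, 2 ^ (q - 1) * ((∫⁻ y, ‖g1 t y‖ₑ ^ q) + ∫⁻ y, ‖g2 t y‖ₑ ^ q) := by
        congr 1
        ext t
        rw [lintegral_const_mul _ (hsy t), lintegral_add_left (hm1y t)]
    _ = _ := by
        rw [lintegral_const_mul _ hst, lintegral_add_left hm1t]

lemma Uj_int (hm : 1 ≤ m) {q s C δ : ℝ} (hq : 2 < q) (hs0 : 0 < s) (hs1 : s ≤ 1) (hC : 0 < C)
    (hδ : 0 < δ) (HC : Sc m q s C δ) {f : (Fin m → ℝ) → ℂ} (hf : Nm s f) (j : ℕ) :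
    ∫⁻ t, ∫⁻ y, ‖Uj f j t y‖ₑ ^ q ≤ ENNReal.ofReal (2 ^ q * C * (Rj j) ^ (-δ)) := by
  have H1 : ∫⁻ t, ∫⁻ y, ‖X (Pm (Rj (j + 1)) (hj f j)) t y‖ₑ ^ q ≤
      ENNReal.ofReal (C * (Rj (j + 1)) ^ (-δ)) :=
    HC (j + 1) (b := 2) (by norm_num) (hf.hB hm j) (hf.hL hs0.le hs1 j) (hf.hB hm j).S1
  have H2 : ∫⁻ t, ∫⁻ y, ‖X (Pm (Rj j) (hj f j)) t y‖ₑ ^ q ≤ ENNReal.ofReal (C * (Rj j) ^ (-δ)) :=
    HC j (b := 2) (by norm_num) (hf.hB hm j)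
      ((hf.hL hs0.le hs1 j).trans (ENNReal.ofReal_le_ofReal (Rj_neg j s hs0.le)))
      (hf.hB hm j).S1
  have h3 := sum_int (m := m) q (by linarith) (X (Pm (Rj (j + 1)) (hj f j)))
    (X (Pm (Rj j) (hj f j))) (X_meas _ (Pm_Bf (hf.hB hm j) _ (Rj1 _)).ms)
    (X_meas _ (Pm_Bf (hf.hB hm j) _ (Rj1 _)).ms)
  have hδR := Rj_neg j δ hδ.le
  have hR0 := Rj0 j
  have hR0' := Rj0 (j + 1)
  calc ∫⁻ t, ∫⁻ y, ‖Uj f j t y‖ₑ ^ q ≤ 2 ^ (q - 1) *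
        ((∫⁻ t, ∫⁻ y, ‖X (Pm (Rj (j + 1)) (hj f j)) t y‖ₑ ^ q) +
          ∫⁻ t, ∫⁻ y, ‖X (Pm (Rj j) (hj f j)) t y‖ₑ ^ q) := h3
    _ ≤ 2 ^ (q - 1) * (ENNReal.ofReal (C * (Rj (j + 1)) ^ (-δ)) +
          ENNReal.ofReal (C * (Rj j) ^ (-δ))) := by gcongr
    _ ≤ _ := by
        rw [two_rpow, ← ENNReal.ofReal_add (by positivity) (by positivity),
          ← ENNReal.ofReal_mul (by positivity)]
        apply ENNReal.ofReal_le_ofReal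
        have e3 : (2 : ℝ) ^ q = 2 ^ (q - 1) * 2 := by
          rw [← Real.rpow_add_one two_ne_zero]
          congr 1
          ring
        rw [e3]
        have h5 : 0 < (2 : ℝ) ^ (q - 1) := by positivity
        calc 2 ^ (q - 1) * (C * (Rj (j + 1)) ^ (-δ) + C * (Rj j) ^ (-δ)) ≤
            2 ^ (q - 1) * (C * (Rj j) ^ (-δ) + C * (Rj j) ^ (-δ)) := by gcongr
          _ = _ := by ring

lemma V0_int (hm : 1 ≤ m) {q s C δ : ℝ} (HC : Sc m q s C δ) {f : (Fin m → ℝ) → ℂ}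
    (hf : Nm s f) : ∫⁻ t, ∫⁻ y, ‖X (Pm (Rj 0) (Pm (Rj 0) f)) t y‖ₑ ^ q ≤ ENNReal.ofReal C := by
  have h0 := two_m_le hm
  have hB1 : Bf (Pm (Rj 0) f) 1 2 := (hf.P1 0).mono (by linarith)
  have H1 := HC 0 (b := 2) (by norm_num) hB1 (by
    rw [pow_zero, Real.one_rpow, ENNReal.ofReal_one]
    exact hB1.L2.trans ((Pm_L1 hf.bf.ms _ (Rj0 0)).trans (hf.mass hm))) hB1.S1
  have e1 : C * ((2 : ℝ) ^ 0) ^ (-δ) = C := by
    rw [pow_zero, Real.one_rpow, mul_one]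
  rw [e1] at H1
  exact H1

/-- the sequence of pieces -/
noncomputable def Wj (f : (Fin m → ℝ) → ℂ) : ℕ → ℝ → (Fin m → ℝ) → ℝ≥0∞
  | 0, t, y => ‖X (Pm (Rj 0) (Pm (Rj 0) f)) t y‖ₑ
  | k + 1, t, y => ‖Uj f k t y‖ₑ

lemma Wj_meas (hm : 1 ≤ m) {s : ℝ} {f : (Fin m → ℝ) → ℂ} (hf : Nm s f) (j : ℕ) :
    Measurable (fun p : ℝ × (Fin m → ℝ) => Wj f j p.1 p.2) := by
  cases j with
  | zero => exact (X_meas _ (hf.P2 0 0).ms).enorm
  | succ k =>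
    exact ((X_meas _ (Pm_Bf (hf.hB hm k) _ (Rj1 _)).ms).add
      (X_meas _ (Pm_Bf (hf.hB hm k) _ (Rj1 _)).ms)).enorm

lemma W_part {s : ℝ} {f : (Fin m → ℝ) → ℂ} (hf : Nm s f) (q η : ℝ) (hq : 1 < q) (hη : 0 < η)
    (n : ℕ) (t : ℝ) (y : Fin m → ℝ) : ‖X (Pm (Rj n) (Pm (Rj n) f)) t y‖ₑ ^ q ≤
      (ENNReal.ofReal (1 - 2 ^ (-η))⁻¹) ^ (q - 1) *
      ∑' j : ℕ, ENNReal.ofReal (((2 : ℝ) ^ j) ^ (η * (q - 1))) * Wj f j t y ^ q := by
  have h1 : ‖X (Pm (Rj n) (Pm (Rj n) f)) t y‖ₑ ≤ ∑ j ∈ Finset.range (n + 1), Wj f j t y := by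
    rw [hf.tel n t y, Finset.sum_range_succ']
    refine (enorm_add_le _ _).trans ?_
    rw [add_comm]
    gcongr
    · exact enorm_sum_le _ _
    · exact le_rfl
  refine (ENNReal.rpow_le_rpow h1 (by linarith)).trans ?_
  exact conv_inf (fun j => Wj f j t y) q η hq hη (n + 1)

lemma W_lim {s : ℝ} {f : (Fin m → ℝ) → ℂ} (hf : Nm s f) (hs0 : 0 < s) (q η : ℝ) (hq : 1 < q)
    (hη : 0 < η) (t : ℝ) (y : Fin m → ℝ) : ‖X f t y‖ₑ ^ q ≤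
      (ENNReal.ofReal (1 - 2 ^ (-η))⁻¹) ^ (q - 1) *
      ∑' j : ℕ, ENNReal.ofReal (((2 : ℝ) ^ j) ^ (η * (q - 1))) * Wj f j t y ^ q := by
  have h1 : Tendsto (fun n => ‖X (Pm (Rj n) (Pm (Rj n) f)) t y‖ₑ ^ q) atTop
      (𝓝 (‖X f t y‖ₑ ^ q)) :=
    (ENNReal.continuous_rpow_const.tendsto _).comp
      ((continuous_enorm.tendsto _).comp (hf.conv hs0 t y))
  exact le_of_tendsto' h1 (fun n => W_part hf q η hq hη n t y)

lemma tsum_int (c : ℕ → ℝ≥0∞) (K0 : ℝ≥0∞) (w : ℕ → ℝ → (Fin m → ℝ) → ℝ≥0∞) (q : ℝ)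
    (hw : ∀ j, Measurable (fun p : ℝ × (Fin m → ℝ) => w j p.1 p.2)) :
    ∫⁻ t, ∫⁻ y, K0 * ∑' j : ℕ, c j * w j t y ^ q = K0 * ∑' j : ℕ, c j * ∫⁻ t, ∫⁻ y, w j t y ^ q := by
  have hmj : ∀ j, Measurable (fun p : ℝ × (Fin m → ℝ) => c j * w j p.1 p.2 ^ q) := fun j =>
    ((hw j).pow_const q).const_mul _
  have hmjy : ∀ j t, Measurable (fun y : Fin m → ℝ => c j * w j t y ^ q) := fun j t =>
    (hmj j).comp (measurable_const.prodMk measurable_id)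
  have hmy : ∀ j t, Measurable (fun y : Fin m → ℝ => w j t y ^ q) := fun j t =>
    ((hw j).pow_const q).comp (measurable_const.prodMk measurable_id)
  have hmt : ∀ j, Measurable (fun t => ∫⁻ y, w j t y ^ q) := fun j =>
    Measurable.lintegral_prod_right' ((hw j).pow_const q)
  have e1 : ∀ t, ∫⁻ y, K0 * ∑' j : ℕ, c j * w j t y ^ q =
      K0 * ∑' j : ℕ, c j * ∫⁻ y, w j t y ^ q := by
    intro t
    rw [lintegral_const_mul _ (Measurable.ennreal_tsum fun j => hmjy j t),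
      lintegral_tsum fun j => (hmjy j t).aemeasurable]
    congr 2
    ext j
    rw [lintegral_const_mul _ (hmy j t)]
  simp only [e1]
  rw [lintegral_const_mul _ (Measurable.ennreal_tsum fun j => (hmt j).const_mul _),
    lintegral_tsum fun j => ((hmt j).const_mul _).aemeasurable]
  congr 2
  ext j
  rw [lintegral_const_mul _ (hmt j)]

/-- **the normalized theorem** -/
theorem main0 (hm : 1 ≤ m) (q : ℝ) (hq : 2 + 2 / (m : ℝ) < q) (hq0 : q < 2 + 4 / (m : ℝ)) (s : ℝ)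
    (hs : (m : ℝ) / (2 * m + 1) < s) (hs1 : s ≤ 1) : ∃ C : ℝ≥0, ∀ (f : (Fin m → ℝ) → ℂ),
    Nm s f → ∫⁻ t, ∫⁻ y, ‖X f t y‖ₑ ^ q ≤ C := by
  have hm0 : (0 : ℝ) < m := by exact_mod_cast hm
  have hm2 : 0 < 2 / (m : ℝ) := by positivity
  have hq2 : 2 < q := by linarith
  have hs0 : 0 < s := lt_trans (by positivity) hs
  obtain ⟨C, δ, hC, hδ, HC⟩ := scale hm q hq hq0 s hs hs1 (4 ^ m) (by positivity)
  have HC' : Sc m q s C δ := HC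
  set η : ℝ := δ / 2 / (q - 1) with hη
  have hη0 : 0 < η := by
    rw [hη]
    apply div_pos (by positivity) (by linarith)
  have hηq : η * (q - 1) = δ / 2 := by
    rw [hη]
    have : q - 1 ≠ 0 := by linarith
    field_simp
  set K0 : ℝ≥0∞ := (ENNReal.ofReal (1 - 2 ^ (-η))⁻¹) ^ (q - 1) with hK0
  have hK0t : K0 ≠ ∞ := ENNReal.rpow_ne_top_of_nonneg (by linarith) ENNReal.ofReal_ne_top
  set D : ℝ := 2 ^ q * C with hD
  have hr1 : (2 : ℝ) ^ (-(δ / 2)) < 1 := Real.rpow_lt_one_of_one_lt_of_neg one_lt_two (by linarith)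
  have hr0 : (0 : ℝ) < 2 ^ (-(δ / 2)) := by positivity
  set K1 : ℝ≥0∞ := ENNReal.ofReal (C + 2 ^ (δ / 2) * D * (1 - 2 ^ (-(δ / 2)))⁻¹) with hK1
  have hfin : K0 * K1 ≠ ∞ := ENNReal.mul_ne_top hK0t ENNReal.ofReal_ne_top
  refine ⟨(K0 * K1).toNNReal, fun f hf => ?_⟩
  rw [ENNReal.coe_toNNReal hfin]
  have hlim := fun t y => W_lim hf hs0 q η (by linarith) hη0 t y
  rw [hηq] at hlim
  calc ∫⁻ t, ∫⁻ y, ‖X f t y‖ₑ ^ q ≤ ∫⁻ t, ∫⁻ y, K0 *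
        ∑' j : ℕ, ENNReal.ofReal (((2 : ℝ) ^ j) ^ (δ / 2)) * Wj f j t y ^ q :=
        lintegral_mono fun t => lintegral_mono fun y => hlim t y
    _ = K0 * ∑' j : ℕ, ENNReal.ofReal (((2 : ℝ) ^ j) ^ (δ / 2)) * ∫⁻ t, ∫⁻ y, Wj f j t y ^ q :=
        tsum_int _ K0 (Wj f) q (Wj_meas hm hf)
    _ ≤ K0 * K1 := by
        gcongr
        rw [tsum_eq_zero_add' ENNReal.summable]
        rw [pow_zero, Real.one_rpow, ENNReal.ofReal_one, one_mul]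
        have h5 : ∀ k : ℕ, ENNReal.ofReal (((2 : ℝ) ^ (k + 1)) ^ (δ / 2)) *
            ∫⁻ t, ∫⁻ y, Wj f (k + 1) t y ^ q ≤
            ENNReal.ofReal (2 ^ (δ / 2) * D * (2 ^ (-(δ / 2))) ^ k) := by
          intro k
          calc ENNReal.ofReal (((2 : ℝ) ^ (k + 1)) ^ (δ / 2)) * ∫⁻ t, ∫⁻ y, Wj f (k + 1) t y ^ q ≤
              ENNReal.ofReal (((2 : ℝ) ^ (k + 1)) ^ (δ / 2)) *
                ENNReal.ofReal (2 ^ q * C * (Rj k) ^ (-δ)) := by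
                gcongr
                exact Uj_int hm hq2 hs0 hs1 hC hδ HC' hf k
            _ = _ := by
                rw [← ENNReal.ofReal_mul (by positivity), ← hD]
                congr 1
                unfold Rj
                rw [pow_succ, Real.mul_rpow (by positivity) (by norm_num), ← Real.rpow_natCast 2 k,
                  ← Real.rpow_mul (by norm_num), ← Real.rpow_mul (by norm_num),
                  ← Real.rpow_natCast _ k, ← Real.rpow_mul (by norm_num)]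
                have e6 : (2 : ℝ) ^ (-(δ / 2) * (k : ℝ)) =
                    2 ^ ((k : ℝ) * (δ / 2)) * 2 ^ ((k : ℝ) * -δ) := by
                  rw [← Real.rpow_add two_pos]
                  congr 1
                  ring
                rw [e6]
                ring
        refine (add_le_add (V0_int hm HC' hf) (ENNReal.tsum_le_tsum h5)).trans (le_of_eq ?_)
        have hD0 : 0 < D := by positivity
        have h7 : 0 < 1 - (2 : ℝ) ^ (-(δ / 2)) := by linarith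
        rw [← ENNReal.ofReal_tsum_of_nonneg (fun k => by positivity)
          ((summable_geometric_of_lt_one hr0.le hr1).mul_left _), tsum_mul_left,
          tsum_geometric_of_lt_one hr0.le hr1, ← ENNReal.ofReal_add hC.le (by positivity)]

end Pool.Agent.Q89.SM
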