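import Pool.Agent.Q89.SM.P
set_option autoImplicit false

/-! The theorem for all functions. -/

namespace Pool.Agent.Q89.SM

open MeasureTheory Set Complex Filter Topology
open scoped ENNReal NNReal ComplexConjugate
open Pool.Agent.Y183.LS

variable {m : ℕ}

lemma X_zero (f : (Fin m → ℝ) → ℂ) (hf : ∀ x, f x = 0) (t : ℝ) (y : Fin m → ℝ) : X f t y = 0 := by
  unfold X
  simp [hf]

lemma X_smul (c : ℂ) (f : (Fin m → ℝ) → ℂ) (t : ℝ) (y : Fin m → ℝ) :
    X (fun v => c * f v) t y = c * X f t y := by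
  unfold X
  rw [← integral_const_mul]
  congr 1
  ext v
  ring

/-- all exponents, normalized functions -/
theorem main1 (hm : 1 ≤ m) (q : ℝ) (hq : 2 * ((m : ℝ) + 1) / m < q) (s : ℝ)
    (hs : (m : ℝ) / (2 * m + 1) < s) : ∃ C : ℝ≥0, ∀ (f : (Fin m → ℝ) → ℂ),
    Nm s f → ∫⁻ t, ∫⁻ y, ‖X f t y‖ₑ ^ q ≤ C := by
  have hm0 : (0 : ℝ) < m := by exact_mod_cast hm
  have e1 : 2 * ((m : ℝ) + 1) / m = 2 + 2 / m := by field_simp
  rw [e1] at hq
  have h2 : 0 < 2 / (m : ℝ) := by positivity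
  set q' : ℝ := min q (2 + 3 / (m : ℝ)) with hq'
  set s' : ℝ := min s 1 with hs'
  have h3 : 2 + 2 / (m : ℝ) < 2 + 3 / (m : ℝ) := by
    have : 2 / (m : ℝ) < 3 / m := by
      apply div_lt_div_of_pos_right (by norm_num) hm0
    linarith
  have h4 : 2 + 3 / (m : ℝ) < 2 + 4 / (m : ℝ) := by
    have : 3 / (m : ℝ) < 4 / m := by
      apply div_lt_div_of_pos_right (by norm_num) hm0
    linarith
  have h5 : (m : ℝ) / (2 * m + 1) < 1 := by
    rw [div_lt_one (by positivity)]
    linarith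
  obtain ⟨C, hC⟩ := main0 hm q' (lt_min hq h3) (lt_of_le_of_lt (min_le_right _ _) h4) s'
    (lt_min hs h5) (min_le_right _ _)
  refine ⟨C, fun f hf => ?_⟩
  have hf' : Nm s' f := by
    refine ⟨hf.bf, fun u hu => (hf.md u hu).trans (ENNReal.ofReal_le_ofReal ?_)⟩
    rcases (norm_nonneg u).eq_or_lt with h0 | h0
    · have hs0 : 0 < s := lt_trans (by positivity) hs
      have hs0' : 0 < s' := lt_min hs0 one_pos
      rw [← h0, Real.zero_rpow hs0.ne', Real.zero_rpow hs0'.ne']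
    · gcongr 1 / 16 * ?_
      exact Real.rpow_le_rpow_of_exponent_ge h0 hu (min_le_left _ _)
  refine le_trans ?_ (hC f hf')
  apply lintegral_mono
  intro t
  apply lintegral_mono
  intro y
  have h6 : ‖X f t y‖ₑ ≤ 1 := (X_sup f t y).trans (hf.mass hm)
  exact ENNReal.rpow_le_rpow_of_exponent_ge h6 (min_le_left _ _)

/-- **all functions** -/
theorem main2 (hm : 1 ≤ m) (q : ℝ) (hq : 2 * ((m : ℝ) + 1) / m < q) (σ : ℝ)
    (hs : (m : ℝ) / (2 * (2 * m + 1)) < σ) : ∃ C : ℝ≥0, ∀ (f : (Fin m → ℝ) → ℂ) (M A : ℝ≥0),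
    Measurable f → (∀ x, ‖f x‖ ≤ M) → (∀ x, x ∉ BA 1 m → f x = 0) →
    (∀ u : Fin m → ℝ, ‖u‖ ≤ 1 →
      ∫⁻ x, ‖f (x + u) - f x‖ₑ ^ 2 ≤ (A * ENNReal.ofReal (‖u‖ ^ σ)) ^ 2) →
    (∫⁻ t, ∫⁻ y, ‖X f t y‖ₑ ^ q) ^ (1 / q) ≤ C * (M + A) := by
  have hm0 : (0 : ℝ) < m := by exact_mod_cast hm
  have hq0 : 0 < q := lt_trans (by positivity) hq
  obtain ⟨C, hC⟩ := main1 hm q hq (2 * σ) (by
    have e1 : (m : ℝ) / (2 * m + 1) = 2 * (m / (2 * (2 * m + 1))) := by field_simp
    rw [e1]
    linarith)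
  set K : ℝ≥0∞ := (C : ℝ≥0∞) ^ (1 / q) * (4 * 2 ^ m) with hK
  have hKt : K ≠ ∞ := by
    apply ENNReal.mul_ne_top
    · exact ENNReal.rpow_ne_top_of_nonneg (by positivity) ENNReal.coe_ne_top
    · exact ENNReal.mul_ne_top (by norm_num) (ENNReal.pow_ne_top (by norm_num))
  refine ⟨K.toNNReal, fun f M A hf hM hsupp hmod => ?_⟩
  rw [ENNReal.coe_toNNReal hKt]
  by_cases hM0 : M = 0
  · have h1 : ∀ x, f x = 0 := by
      intro x
      have := hM x
      rw [hM0, NNReal.coe_zero] at this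
      exact norm_le_zero_iff.mp this
    have h2 : ∀ t y, ‖X f t y‖ₑ ^ q = 0 := by
      intro t y
      rw [X_zero f h1, enorm_zero, ENNReal.zero_rpow_of_pos hq0]
    simp only [h2, lintegral_zero]
    rw [ENNReal.zero_rpow_of_pos (by positivity)]
    exact zero_le
  have hMpos : (0 : ℝ) < M := by
    have : 0 < M := pos_iff_ne_zero.mpr hM0
    exact_mod_cast this
  set L : ℝ := 4 * 2 ^ m * (M + A) with hL
  have hA0 : (0 : ℝ) ≤ A := A.coe_nonneg
  have h2m : (1 : ℝ) ≤ 2 ^ m := one_le_pow₀ one_le_two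
  have hL0 : 0 < L := by positivity
  set g : (Fin m → ℝ) → ℂ := fun x => ((L⁻¹ : ℝ) : ℂ) * f x with hg
  have hgN : Nm (2 * σ) g := by
    refine ⟨⟨hf.const_mul _, fun x => ?_, fun x hx => ?_⟩, fun u hu => ?_⟩
    · simp only [hg]
      rw [norm_mul, norm_real, Real.norm_eq_abs, abs_of_pos (inv_pos.mpr hL0)]
      calc L⁻¹ * ‖f x‖ ≤ L⁻¹ * M := by gcongr; exact hM x
        _ ≤ (2 ^ m)⁻¹ := by
            rw [inv_mul_le_iff₀ hL0, hL]
            have : 4 * 2 ^ m * ((M : ℝ) + A) * (2 ^ m)⁻¹ = 4 * (M + A) := by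
              field_simp
            rw [this]
            linarith
    · simp only [hg]
      rw [hsupp x hx, mul_zero]
    · have e2 : ∀ x, ‖g (x - u) - g x‖ₑ ^ 2 =
          ENNReal.ofReal (L⁻¹ ^ 2) * ‖f (x + -u) - f x‖ₑ ^ 2 := by
        intro x
        simp only [hg]
        rw [← mul_sub, enorm_mul, ← ofReal_norm ((L⁻¹ : ℝ) : ℂ), norm_real, Real.norm_eq_abs,
          abs_of_pos (inv_pos.mpr hL0), sub_eq_add_neg x u, mul_pow,
          ENNReal.ofReal_pow (by positivity)]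
      simp only [e2]
      have hmm : Measurable (fun x => ‖f (x + -u) - f x‖ₑ ^ 2) :=
        ((hf.comp (measurable_id.add measurable_const)).sub hf).enorm.pow_const 2
      rw [lintegral_const_mul _ hmm]
      have h3 := hmod (-u) (by rwa [norm_neg])
      rw [norm_neg] at h3
      calc ENNReal.ofReal (L⁻¹ ^ 2) * ∫⁻ x, ‖f (x + -u) - f x‖ₑ ^ 2 ≤
          ENNReal.ofReal (L⁻¹ ^ 2) * (A * ENNReal.ofReal (‖u‖ ^ σ)) ^ 2 := by gcongr
        _ = ENNReal.ofReal (L⁻¹ ^ 2 * (A * ‖u‖ ^ σ) ^ 2) := by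
            rw [← ENNReal.ofReal_coe_nnreal, ← ENNReal.ofReal_mul (by positivity),
              ← ENNReal.ofReal_pow (by positivity), ← ENNReal.ofReal_mul (by positivity)]
        _ ≤ _ := by
            apply ENNReal.ofReal_le_ofReal
            have h6 : L⁻¹ * A ≤ 1 / 4 := by
              rw [inv_mul_le_iff₀ hL0, hL]
              nlinarith
            have h7 : 0 ≤ L⁻¹ * (A : ℝ) := by positivity
            have h8 : (‖u‖ ^ σ) ^ 2 = ‖u‖ ^ (2 * σ) := by
              rw [← Real.rpow_natCast, ← Real.rpow_mul (norm_nonneg _)]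
              congr 1
              push_cast
              ring
            calc L⁻¹ ^ 2 * (A * ‖u‖ ^ σ) ^ 2 = (L⁻¹ * A) ^ 2 * (‖u‖ ^ σ) ^ 2 := by ring
              _ ≤ (1 / 4) ^ 2 * (‖u‖ ^ σ) ^ 2 := by gcongr
              _ = 1 / 16 * ‖u‖ ^ (2 * σ) := by
                  rw [h8]
                  norm_num
  have h4 := hC g hgN
  have h5 : ∀ t y, ‖X f t y‖ₑ ^ q = ENNReal.ofReal L ^ q * ‖X g t y‖ₑ ^ q := by
    intro t y
    have e3 : X f t y = (L : ℂ) * X g t y := by
      rw [hg, X_smul, ← mul_assoc, ← ofReal_mul, mul_inv_cancel₀ hL0.ne', ofReal_one, one_mul]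
    rw [e3, enorm_mul, ENNReal.mul_rpow_of_nonneg _ _ hq0.le, ← ofReal_norm (L : ℂ), norm_real,
      Real.norm_eq_abs, abs_of_pos hL0]
  have hLt : ENNReal.ofReal L ^ q ≠ ∞ :=
    ENNReal.rpow_ne_top_of_nonneg hq0.le ENNReal.ofReal_ne_top
  simp only [h5]
  simp only [lintegral_const_mul' _ _ hLt]
  rw [ENNReal.mul_rpow_of_nonneg _ _ (by positivity), ← ENNReal.rpow_mul,
    mul_one_div_cancel hq0.ne', ENNReal.rpow_one]
  calc ENNReal.ofReal L * (∫⁻ t, ∫⁻ y, ‖X g t y‖ₑ ^ q) ^ (1 / q) ≤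
      ENNReal.ofReal L * (C : ℝ≥0∞) ^ (1 / q) := by
        gcongr ENNReal.ofReal L * ?_
        exact ENNReal.rpow_le_rpow h4 (by positivity)
    _ = K * (M + A) := by
        rw [hK, hL, ENNReal.ofReal_mul (by positivity), ENNReal.ofReal_mul (by positivity),
          ENNReal.ofReal_add (by positivity) (by positivity), ENNReal.ofReal_pow (by norm_num),
          ENNReal.ofReal_coe_nnreal, ENNReal.ofReal_coe_nnreal, ENNReal.ofReal_ofNat,
          ENNReal.ofReal_ofNat]
        ring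

/-- functions that are Hölder continuous off a small set -/
lemma piece (σ : ℝ) (f : (Fin m → ℝ) → ℂ) (M A V : ℝ≥0) (Z : Set (Fin m → ℝ))
    (hM : ∀ x, ‖f x‖ ≤ M) (hsupp : ∀ x, x ∉ BA 1 m → f x = 0)
    (hZ : ∀ r : ℝ, 0 < r → r ≤ 1 →
      volume (Metric.cthickening r Z) ≤ (V * ENNReal.ofReal (r ^ σ)) ^ 2)
    (hH : ∀ x y, ‖x - y‖ ≤ 1 → Disjoint (segment ℝ x y) Z → ‖f x - f y‖ ≤ A * ‖x - y‖ ^ σ)
    (u : Fin m → ℝ) (hu : ‖u‖ ≤ 1) :
    ∫⁻ x, ‖f (x + u) - f x‖ₑ ^ 2 ≤
      (((2 * M * V + 2 ^ m * A : ℝ≥0) : ℝ≥0∞) * ENNReal.ofReal (‖u‖ ^ σ)) ^ 2 := by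
  rcases (norm_nonneg u).eq_or_lt with h0 | h0
  · have hu0 : u = 0 := norm_eq_zero.mp h0.symm
    simp [hu0]
  · have hpt : ∀ x, ‖f (x + u) - f x‖ₑ ^ 2 ≤ (Metric.cthickening ‖u‖ Z).indicator
        (fun _ => ((2 * M : ℝ≥0) : ℝ≥0∞) ^ 2) x + (BA 2 m).indicator
        (fun _ => ((A : ℝ≥0∞) * ENNReal.ofReal (‖u‖ ^ σ)) ^ 2) x := by
      intro x
      by_cases hx : Disjoint (segment ℝ (x + u) x) Z
      · by_cases hx2 : x ∈ BA 2 m
        · refine le_trans ?_ le_add_self
          rw [indicator_of_mem hx2]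
          have h1 : ‖x + u - x‖ = ‖u‖ := by rw [add_sub_cancel_left]
          have h2 := hH (x + u) x (by rw [h1]; exact hu) hx
          rw [h1] at h2
          gcongr
          rw [← ofReal_norm, ← ENNReal.ofReal_coe_nnreal, ← ENNReal.ofReal_mul A.coe_nonneg]
          exact ENNReal.ofReal_le_ofReal h2
        · have h3 : ∃ i, x i ∉ Icc (-2 : ℝ) 2 := by
            by_contra hc
            push Not at hc
            exact hx2 ⟨fun i => (hc i).1, fun i => (hc i).2⟩
          obtain ⟨i, hi⟩ := h3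
          have h4 : |u i| ≤ 1 := (norm_le_pi_norm u i).trans hu
          have h5 := abs_le.mp h4
          have h6 : x ∉ BA 1 m := by
            intro hc
            apply hi
            have a1 := hc.1 i
            have a2 := hc.2 i
            simp only at a1 a2
            exact ⟨by linarith, by linarith⟩
          have h7 : x + u ∉ BA 1 m := by
            intro hc
            apply hi
            have a1 := hc.1 i
            have a2 := hc.2 i
            simp only [Pi.add_apply] at a1 a2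
            exact ⟨by linarith, by linarith⟩
          rw [hsupp _ h6, hsupp _ h7, sub_zero, enorm_zero]
          simp
      · refine le_trans ?_ le_self_add
        rw [Set.not_disjoint_iff] at hx
        obtain ⟨z, hz1, hz2⟩ := hx
        have h1 : x ∈ Metric.cthickening ‖u‖ Z := by
          apply Metric.mem_cthickening_of_dist_le x z _ _ hz2
          rw [segment_symm] at hz1
          rw [segment_eq_image'] at hz1
          obtain ⟨θ, hθ, rfl⟩ := hz1
          simp only [add_sub_cancel_left]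
          rw [dist_self_add_right, norm_smul, Real.norm_eq_abs, abs_of_nonneg hθ.1]
          exact mul_le_of_le_one_left (norm_nonneg _) hθ.2
        rw [indicator_of_mem h1]
        gcongr
        rw [← ofReal_norm, ← ENNReal.ofReal_coe_nnreal]
        apply ENNReal.ofReal_le_ofReal
        refine (norm_sub_le _ _).trans ?_
        have h2 := hM (x + u)
        have h3 := hM x
        push_cast
        linarith
    refine (lintegral_mono hpt).trans ?_
    have hmZ : MeasurableSet (Metric.cthickening ‖u‖ Z) := Metric.isClosed_cthickening.measurableSet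
    rw [lintegral_add_left (measurable_const.indicator hmZ), lintegral_indicator hmZ,
      lintegral_indicator measurableSet_Icc, lintegral_const, lintegral_const,
      Measure.restrict_apply_univ, Measure.restrict_apply_univ, BA2_vol]
    calc ((2 * M : ℝ≥0) : ℝ≥0∞) ^ 2 * volume (Metric.cthickening ‖u‖ Z) +
        ((A : ℝ≥0∞) * ENNReal.ofReal (‖u‖ ^ σ)) ^ 2 * 4 ^ m ≤
        ((2 * M : ℝ≥0) : ℝ≥0∞) ^ 2 * (V * ENNReal.ofReal (‖u‖ ^ σ)) ^ 2 +
        ((A : ℝ≥0∞) * ENNReal.ofReal (‖u‖ ^ σ)) ^ 2 * 4 ^ m := by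
          gcongr
          exact hZ _ h0 hu
      _ = (((2 * M * V : ℝ≥0) : ℝ≥0∞) ^ 2 + (((2 ^ m * A : ℝ≥0) : ℝ≥0∞)) ^ 2) *
          ENNReal.ofReal (‖u‖ ^ σ) ^ 2 := by
          have e9 : (4 : ℝ≥0∞) ^ m = (2 ^ m) ^ 2 := by
            rw [← pow_mul, mul_comm, pow_mul]
            norm_num
          rw [e9]
          push_cast
          ring
      _ ≤ _ := by
          rw [mul_pow]
          gcongr
          push_cast
          set a : ℝ≥0∞ := 2 * (M : ℝ≥0∞) * V
          set b : ℝ≥0∞ := 2 ^ m * (A : ℝ≥0∞)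
          have e10 : (a + b) ^ 2 = a ^ 2 + b ^ 2 + 2 * a * b := by ring
          rw [e10]
          exact le_self_add

lemma seg_front {S : Set (Fin m → ℝ)} (x y : Fin m → ℝ)
    (h : Disjoint (segment ℝ x y) (frontier S)) (hx : x ∈ S) (hy : y ∉ S) : False := by
  have hp : IsPreconnected (segment ℝ x y) := (convex_segment x y).isPreconnected
  have hin : ∀ z ∈ segment ℝ x y, z ∈ interior S ∨ z ∈ (closure S)ᶜ := by
    intro z hz
    by_contra hc
    push Not at hc
    obtain ⟨h1, h2⟩ := hc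
    rw [notMem_compl_iff] at h2
    exact (Set.disjoint_left.mp h hz) ⟨h2, h1⟩
  have hxi : x ∈ interior S := by
    rcases hin x (left_mem_segment ℝ x y) with h1 | h1
    · exact h1
    · exact absurd (subset_closure hx) h1
  have hyi : y ∈ (closure S)ᶜ := by
    rcases hin y (right_mem_segment ℝ x y) with h1 | h1
    · exact absurd (interior_subset h1) hy
    · exact h1
  obtain ⟨z, _, hz1, hz2⟩ := hp (interior S) ((closure S)ᶜ) isOpen_interior
    isClosed_closure.isOpen_compl hin ⟨x, left_mem_segment ℝ x y, hxi⟩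
    ⟨y, right_mem_segment ℝ x y, hyi⟩
  exact hz2 (subset_closure (interior_subset hz1))

lemma ind_const {S : Set (Fin m → ℝ)} (x y : Fin m → ℝ)
    (h : Disjoint (segment ℝ x y) (frontier S)) :
    S.indicator (fun _ => (1 : ℂ)) x = S.indicator (fun _ => (1 : ℂ)) y := by
  by_cases hx : x ∈ S
  · by_cases hy : y ∈ S
    · rw [indicator_of_mem hx, indicator_of_mem hy]
    · exact (seg_front x y h hx hy).elim
  · by_cases hy : y ∈ S
    · rw [segment_symm] at h
      exact (seg_front y x h hy hx).elim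
    · rw [indicator_of_notMem hx, indicator_of_notMem hy]

end Pool.Agent.Q89.SM
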